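import Mathlib

set_option autoImplicit false
open MeasureTheory

namespace Pool.Agent.Helper160.MF

abbrev Eu (d : ℕ) := EuclideanSpace ℝ (Fin d)

/-- Gaussian density with variance `t` per coordinate. -/
noncomputable def ga (d : ℕ) (t : ℝ) (x : Eu d) : ℝ :=
  (2 * Real.pi * t) ^ (-(d : ℝ) / 2) * Real.exp (-‖x‖ ^ 2 / (2 * t))

/-- relative inner radius of the shell: `qd d ^ d = 1 / 2`. -/
noncomputable def qd (d : ℕ) : ℝ := (1 / 2 : ℝ) ^ (1 / (d : ℝ))

/-- the thin shell of outer radius `R`. -/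
def shell (d : ℕ) (R : ℝ) : Set (Eu d) := {x | qd d * R < ‖x‖ ∧ ‖x‖ < R}

/-- uniform density on the shell -/
noncomputable def bs (d : ℕ) (R : ℝ) (x : Eu d) : ENNReal :=
  (shell d R).indicator (fun _ => (volume (shell d R))⁻¹) x

/-- Poisson kernel of the ball of radius `‖x‖`, boundary point `x`, interior point `z`. -/
noncomputable def Pk (d : ℕ) (x z : Eu d) : ℝ :=
  ‖x‖ ^ d * (‖x‖ ^ 2 - ‖z‖ ^ 2) / (‖x‖ ^ 2 * ‖x - z‖ ^ d)

/-- transition density from time `j` (radius `r`) to time `k` (radius `R`), start `y`. -/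
noncomputable def tr (d : ℕ) (r R : ℝ) (y z x : Eu d) : ENNReal :=
  (shell d r).indicator (fun _ => (1 : ENNReal)) (z - y) *
    (bs d R (x - y) * ENNReal.ofReal (Pk d (x - y) (z - y)))

/-- majorant kernel, unit radius, variance `(1 - ε²)/d`. -/
noncomputable def Ak (d : ℕ) (ε : ℝ) (x y z : Eu d) : ℝ :=
  Real.sqrt d * Real.exp (-((d / 2 : ℝ) * (‖x - y‖ ^ 2 - 1)) ^ 2 / 2) *
    ga d ((1 - ε ^ 2) / d) (x - z) *
    Real.exp (5 * (Real.sqrt d * inner ℝ (x - z) (z - y)) ^ 2)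

end Pool.Agent.Helper160.MF
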