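import Pool.Agent.Helper160.MF.Defs

set_option autoImplicit false
open MeasureTheory Set Metric

namespace Pool.Agent.Helper160.MF

/-- the abstract data: a finite measure on a space of pairs (start Y, stopping point Z) -/
structure Dat (d : ℕ) (ε : ℝ) (lam : ENNReal) {Q : Type} [MeasurableSpace Q] (μ : Measure Q)
    (Y Z : Q → Eu d) : Prop where
  fin : IsFiniteMeasure μ
  mY : Measurable Y
  mZ : Measurable Z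
  close : ∀ q, ‖Z q - Y q‖ ≤ ε
  marg : ∀ F : Eu d → ENNReal, Measurable F → ∫⁻ q, F (Z q) ∂μ ≤ lam * ∫⁻ z, F z

/-- multiplier constants -/
noncomputable def kap (d : ℕ) (ε β : ℝ) : ℂ :=
  (1 - Complex.I * (β * (1 - ε ^ 2) / Real.sqrt d : ℝ)) ^ (-(d : ℂ) / 2) *
    Complex.exp (-(Complex.I * ((β * Real.sqrt d * (1 - ε ^ 2) / 2 : ℝ) : ℂ)))

noncomputable def Hf (d : ℕ) (ε : ℝ) {Q : Type} [MeasurableSpace Q] (μ : Measure Q)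
    (Y Z : Q → Eu d) (a β : ℝ) (x : Eu d) : ℂ :=
  ∫ q, (ga d ((1 - ε ^ 2) / d) (x - Z q) : ℂ) *
    Complex.exp ((a * Real.sqrt d * inner ℝ (x - Z q) (Z q - Y q) : ℝ)
      + Complex.I * ((β * (Real.sqrt d / 2) * (‖x - Y q‖ ^ 2 - 1) : ℝ) : ℂ)) ∂μ

noncomputable def H0f (d : ℕ) (ε : ℝ) {Q : Type} [MeasurableSpace Q] (μ : Measure Q)
    (Y Z : Q → Eu d) (β : ℝ) (x : Eu d) : ℂ :=
  ∫ q, Complex.exp (Complex.I * ((β * (Real.sqrt d / 2) * (‖Z q - Y q‖ ^ 2 - ε ^ 2) : ℝ) : ℂ)) *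
    ((ga d ((1 - ε ^ 2) / d) (x - Z q) : ℂ) *
      Complex.exp (Complex.I * ((β * (Real.sqrt d / 2) * (‖x - Z q‖ ^ 2 - (1 - ε ^ 2)) : ℝ) : ℂ))) ∂μ

noncomputable def H1f (d : ℕ) (ε : ℝ) {Q : Type} [MeasurableSpace Q] (μ : Measure Q)
    (Y Z : Q → Eu d) (β : ℝ) (x : Eu d) : ℂ :=
  ∫ q, Complex.exp (Complex.I * ((β * (Real.sqrt d / 2) * (‖Z q - Y q‖ ^ 2 - ε ^ 2) : ℝ) : ℂ)) *
    (ga d (1 / d) (x - Z q) : ℂ) ∂μ

/-- existence of densities for the image of `k μ` under `Z` -/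
def RN (d : ℕ) (lam : ENNReal) {Q : Type} [MeasurableSpace Q] (μ : Measure Q) (Z : Q → Eu d) : Prop :=
  ∀ k : Q → ℂ, Measurable k → (∀ q, ‖k q‖ ≤ 1) → ∃ h : Eu d → ℂ, Integrable h ∧ MemLp h 2 ∧
    ∫⁻ z, ‖h z‖ₑ ^ 2 ≤ lam * μ univ ∧
    ∀ φ : Eu d → ℂ, Continuous φ → (∃ M, ∀ z, ‖φ z‖ ≤ M) → ∫ q, k q * φ (Z q) ∂μ = ∫ z, φ z * h z

end Pool.Agent.Helper160.MF
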