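import Pool.Agent.Helper160.MF.Defs2

set_option autoImplicit false
open MeasureTheory Set Metric

namespace Pool.Agent.Helper160.MF


namespace Jga

theorem ga_pos (d : ℕ) (t : ℝ) (ht : 0 < t) (x : Eu d) : 0 < ga d t x := by
  unfold ga
  positivity

theorem continuous_ga (d : ℕ) (t : ℝ) : Continuous (ga d t) := by
  unfold ga
  fun_prop

theorem h170_rexp (d : ℕ) (t : ℝ) (ht : 0 < t) :
    ∫ x : Eu d, Real.exp (-‖x‖ ^ 2 / (2 * t)) = (2 * Real.pi * t) ^ ((d : ℝ) / 2) := by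
  have hb : (0:ℝ) < 1 / (2 * t) := by positivity
  have h := GaussianFourier.integral_rexp_neg_mul_sq_norm (V := Eu d) hb
  have e1 : ∀ x : Eu d, Real.exp (-‖x‖ ^ 2 / (2 * t)) = Real.exp (-(1 / (2 * t)) * ‖x‖ ^ 2) := by
    intro x
    congr 1
    ring
  simp only [e1]
  rw [h]
  have e2 : Real.pi / (1 / (2 * t)) = 2 * Real.pi * t := by field_simp
  rw [e2]
  simp

theorem h170_integral_ga (d : ℕ) (t : ℝ) (ht : 0 < t) : ∫ x : Eu d, ga d t x = 1 := by
  unfold ga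
  rw [integral_const_mul, h170_rexp d t ht, ← Real.rpow_add (by positivity)]
  have : -(d : ℝ) / 2 + (d : ℝ) / 2 = 0 := by ring
  rw [this, Real.rpow_zero]

theorem h170_integrable_ga (d : ℕ) (t : ℝ) (ht : 0 < t) : Integrable (ga d t) := by
  by_contra h
  have := integral_undef h
  rw [h170_integral_ga d t ht] at this
  exact one_ne_zero this

theorem lintegral_ga (d : ℕ) (t : ℝ) (ht : 0 < t) (z : Eu d) :
    ∫⁻ x, ENNReal.ofReal (ga d t (x - z)) = 1 := by
  rw [lintegral_sub_right_eq_self (fun x => ENNReal.ofReal (ga d t x)) z]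
  rw [← ofReal_integral_eq_lintegral_ofReal (h170_integrable_ga d t ht)
    (Filter.Eventually.of_forall fun x => (ga_pos d t ht x).le), h170_integral_ga d t ht, ENNReal.ofReal_one]

/-- complex linear exponential against the Gaussian -/
theorem integral_ga_cexp (d : ℕ) (t : ℝ) (ht : 0 < t) (c : ℂ) (v : Eu d) :
    ∫ x : Eu d, (ga d t x : ℂ) * Complex.exp (c * (inner ℝ x v : ℝ)) =
      Complex.exp (c ^ 2 * t * ‖v‖ ^ 2 / 2) := by
  have hb : (0:ℝ) < ((1 / (2 * t) : ℝ) : ℂ).re := by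
    rw [Complex.ofReal_re]; positivity
  have h := GaussianFourier.integral_cexp_neg_mul_sq_norm_add (V := Eu d) hb c v
  have e1 : ∀ x : Eu d, (ga d t x : ℂ) * Complex.exp (c * (inner ℝ x v : ℝ)) =
      (((2 * Real.pi * t) ^ (-(d : ℝ) / 2) : ℝ) : ℂ) *
        Complex.exp (-((1 / (2 * t) : ℝ) : ℂ) * (‖x‖ : ℂ) ^ 2 + c * (inner ℝ v x : ℝ)) := by
    intro x
    unfold ga
    rw [Complex.ofReal_mul, Complex.ofReal_exp, mul_assoc, ← Complex.exp_add, real_inner_comm]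
    congr 3
    push_cast
    ring
  simp only [e1]
  rw [integral_const_mul]
  have h' : ∫ x : Eu d, Complex.exp (-((1 / (2 * t) : ℝ) : ℂ) * (‖x‖ : ℂ) ^ 2 + c * (inner ℝ v x : ℝ)) =
    (Real.pi / ((1 / (2 * t) : ℝ) : ℂ)) ^ (Module.finrank ℝ (Eu d) / 2 : ℂ) *
      Complex.exp (c ^ 2 * ‖v‖ ^ 2 / (4 * ((1 / (2 * t) : ℝ) : ℂ))) := h
  rw [h']
  have ht' : (t : ℂ) ≠ 0 := by exact_mod_cast ht.ne'
  have e2 : ((Real.pi : ℂ) / ((1 / (2 * t) : ℝ) : ℂ)) = ((2 * Real.pi * t : ℝ) : ℂ) := by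
    push_cast
    field_simp
  have e3 : (Module.finrank ℝ (Eu d) / 2 : ℂ) = (((d : ℝ) / 2 : ℝ) : ℂ) := by
    rw [finrank_euclideanSpace_fin]
    push_cast
    rfl
  rw [e2, e3, ← Complex.ofReal_cpow (by positivity), ← mul_assoc, ← Complex.ofReal_mul,
    ← Real.rpow_add (by positivity)]
  have e4 : -(d : ℝ) / 2 + (d : ℝ) / 2 = 0 := by ring
  rw [e4, Real.rpow_zero, Complex.ofReal_one, one_mul]
  congr 1
  push_cast
  field_simp
  ring

end Jga

alias ga_pos := Jga.ga_pos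
alias continuous_ga := Jga.continuous_ga
alias lintegral_ga := Jga.lintegral_ga
alias integral_ga_cexp := Jga.integral_ga_cexp

end Pool.Agent.Helper160.MF
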