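import Pool.Agent.Helper160.MF.Defs2
import Pool.Agent.Helper160.MF.Jga

set_option autoImplicit false
open MeasureTheory Set Metric

namespace Pool.Agent.Helper160.MF


namespace JA

open ProbabilityTheory in
lemma stepA_gauss (s w : ℝ) (v : NNReal) :
    ∫ p : ℝ × ℝ, Complex.exp (((Real.sqrt 10 * p.1 * s : ℝ) : ℂ) + Complex.I * ((p.2 * w : ℝ) : ℂ))
      ∂((gaussianReal 0 1).prod (gaussianReal 0 v)) =
      ((Real.exp (5 * s ^ 2) * Real.exp (-((v : ℝ) * w ^ 2 / 2)) : ℝ) : ℂ) := by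
  have h1 : ∀ p : ℝ × ℝ, Complex.exp (((Real.sqrt 10 * p.1 * s : ℝ) : ℂ) +
      Complex.I * ((p.2 * w : ℝ) : ℂ)) =
      (fun a : ℝ => Complex.exp (((Real.sqrt 10 * s : ℝ) : ℂ) * (a : ℂ))) p.1 *
      (fun b : ℝ => Complex.exp ((Complex.I * (w : ℂ)) * (b : ℂ))) p.2 := by
    intro p
    simp only
    rw [← Complex.exp_add]
    congr 1
    push_cast
    ring
  rw [integral_congr_ae (Filter.Eventually.of_forall h1), integral_prod_mul
    (fun a : ℝ => Complex.exp (((Real.sqrt 10 * s : ℝ) : ℂ) * (a : ℂ)))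
    (fun b : ℝ => Complex.exp ((Complex.I * (w : ℂ)) * (b : ℂ)))]
  have h2 : ∫ a : ℝ, Complex.exp (((Real.sqrt 10 * s : ℝ) : ℂ) * (a : ℂ)) ∂(gaussianReal 0 1) =
      Complex.exp (((Real.sqrt 10 * s : ℝ) : ℂ) * ((0 : ℝ) : ℂ) +
        ((1 : NNReal) : ℂ) * ((Real.sqrt 10 * s : ℝ) : ℂ) ^ 2 / 2) := by
    have := complexMGF_id_gaussianReal (μ := 0) (v := 1) ((Real.sqrt 10 * s : ℝ) : ℂ)
    simpa [complexMGF] using this
  have h3 : ∫ b : ℝ, Complex.exp ((Complex.I * (w : ℂ)) * (b : ℂ)) ∂(gaussianReal 0 v) =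
      Complex.exp ((Complex.I * (w : ℂ)) * ((0 : ℝ) : ℂ) +
        ((v : ℝ) : ℂ) * (Complex.I * (w : ℂ)) ^ 2 / 2) := by
    have := complexMGF_id_gaussianReal (μ := 0) (v := v) (Complex.I * (w : ℂ))
    simpa [complexMGF] using this
  rw [h2, h3]
  push_cast
  congr 1
  · congr 1
    have : ((Real.sqrt 10 : ℝ) : ℂ) ^ 2 = 10 := by
      rw [← Complex.ofReal_pow, Real.sq_sqrt (by norm_num)]
      norm_num
    rw [mul_pow, this]
    ring
  · congr 1
    rw [mul_pow, Complex.I_sq]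
    ring

open ProbabilityTheory in
lemma stepA_abs_integrable (s : ℝ) (v : NNReal) :
    Integrable (fun p : ℝ × ℝ => Real.exp (Real.sqrt 10 * p.1 * s))
      ((gaussianReal 0 1).prod (gaussianReal 0 v)) := by
  have h := (integrable_exp_mul_gaussianReal (μ := 0) (v := 1) (Real.sqrt 10 * s)).mul_prod
    (integrable_const (1 : ℝ) (μ := gaussianReal 0 v))
  refine h.congr (Filter.Eventually.of_forall fun p => ?_)
  simp only [mul_one]
  congr 1
  ring

open ProbabilityTheory in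
lemma stepA_abs (s : ℝ) (v : NNReal) :
    ∫ p : ℝ × ℝ, Real.exp (Real.sqrt 10 * p.1 * s)
      ∂((gaussianReal 0 1).prod (gaussianReal 0 v)) = Real.exp (5 * s ^ 2) := by
  have h1 : ∀ p : ℝ × ℝ, Real.exp (Real.sqrt 10 * p.1 * s) =
      (fun a : ℝ => Real.exp ((Real.sqrt 10 * s) * a)) p.1 * (fun _ : ℝ => (1 : ℝ)) p.2 := by
    intro p
    simp only [mul_one]
    congr 1
    ring
  rw [integral_congr_ae (Filter.Eventually.of_forall h1), integral_prod_mul
    (fun a : ℝ => Real.exp ((Real.sqrt 10 * s) * a)) (fun _ : ℝ => (1 : ℝ))]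
  have h2 : ∫ a : ℝ, Real.exp ((Real.sqrt 10 * s) * a) ∂(gaussianReal 0 1) =
      Real.exp (0 * (Real.sqrt 10 * s) + ((1 : NNReal) : ℝ) * (Real.sqrt 10 * s) ^ 2 / 2) := by
    have := congrFun (mgf_id_gaussianReal (μ := 0) (v := 1)) (Real.sqrt 10 * s)
    simpa [mgf] using this
  rw [h2]
  simp only [integral_const, smul_eq_mul, mul_one, probReal_univ]
  congr 1
  rw [mul_pow, Real.sq_sqrt (by norm_num)]
  push_cast
  ring

/-- the Gaussian beats the exponential -/
lemma stepA_bound (d : ℕ) (hd : 16 ≤ d) (ε : ℝ) (hε : 0 < ε) (hε1 : ε ≤ 1 / 64) (v u : Eu d)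
    (hu : ‖u‖ ≤ ε) :
    ga d ((1 - ε ^ 2) / d) v * Real.exp (5 * (Real.sqrt d * inner ℝ v u) ^ 2) ≤
      (2 * Real.pi * ((1 - ε ^ 2) / d)) ^ (-(d : ℝ) / 2) := by
  have hd0 : (0 : ℝ) < d := by
    have : 0 < d := by omega
    exact_mod_cast this
  have hε2 : ε ^ 2 ≤ 1 / 4096 := by nlinarith
  have hε3 : 0 < 1 - ε ^ 2 := by linarith
  unfold ga
  rw [mul_assoc, ← Real.exp_add]
  have hC : 0 ≤ (2 * Real.pi * ((1 - ε ^ 2) / d)) ^ (-(d : ℝ) / 2) := by positivity
  have hE : Real.exp (-‖v‖ ^ 2 / (2 * ((1 - ε ^ 2) / d)) +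
      5 * (Real.sqrt d * inner ℝ v u) ^ 2) ≤ 1 := by
    apply Real.exp_le_one_iff.mpr
    have h1 : (inner ℝ v u : ℝ) ^ 2 ≤ ‖v‖ ^ 2 * ε ^ 2 := by
      have h2 := abs_real_inner_le_norm v u
      have h3 : |(inner ℝ v u : ℝ)| ≤ ‖v‖ * ε :=
        h2.trans (mul_le_mul_of_nonneg_left hu (norm_nonneg v))
      rw [← sq_abs, ← mul_pow]
      exact pow_le_pow_left₀ (abs_nonneg _) h3 2
    have h4 : (Real.sqrt d * inner ℝ v u) ^ 2 ≤ d * (‖v‖ ^ 2 * ε ^ 2) := by
      rw [mul_pow, Real.sq_sqrt hd0.le]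
      exact mul_le_mul_of_nonneg_left h1 hd0.le
    have h5 : -‖v‖ ^ 2 / (2 * ((1 - ε ^ 2) / d)) ≤ -(‖v‖ ^ 2 * d / 2) := by
      have h6 : -‖v‖ ^ 2 / (2 * ((1 - ε ^ 2) / d)) = -(‖v‖ ^ 2 * d / (2 * (1 - ε ^ 2))) := by
        field_simp
      rw [h6]
      apply neg_le_neg
      apply div_le_div_of_nonneg_left (by positivity) (by positivity)
      nlinarith
    have h7 : 0 ≤ ‖v‖ ^ 2 * d := by positivity
    nlinarith
  calc _ ≤ (2 * Real.pi * ((1 - ε ^ 2) / d)) ^ (-(d : ℝ) / 2) * 1 :=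
        mul_le_mul_of_nonneg_left hE hC
    _ = _ := mul_one _

open ProbabilityTheory in
theorem stepA (d : ℕ) (hd : 16 ≤ d) (ε : ℝ) (hε : 0 < ε) (hε1 : ε ≤ 1 / 64) (lam : ENNReal) (hl : lam ≠ ⊤)
    {Q : Type} [MeasurableSpace Q] (μ : Measure Q) (Y Z : Q → Eu d) (hD : Dat d ε lam μ Y Z) (x : Eu d) :
    ∫⁻ q, ENNReal.ofReal (Ak d ε x (Y q) (Z q)) ∂μ ≤
      ENNReal.ofReal (Real.sqrt d) * ∫⁻ p : ℝ × ℝ, ‖Hf d ε μ Y Z (Real.sqrt 10 * p.1) p.2 x‖ₑ
        ∂((gaussianReal 0 1).prod (gaussianReal 0 (d : NNReal))) := by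
  haveI := hD.fin
  have hmY := hD.mY
  have hmZ := hD.mZ
  have hd0 : (0 : ℝ) < d := by
    have : 0 < d := by omega
    exact_mod_cast this
  have hε2 : ε ^ 2 ≤ 1 / 4096 := by nlinarith
  have ht : 0 < (1 - ε ^ 2) / d := div_pos (by linarith) hd0
  set g : Q → ℝ := fun q => ga d ((1 - ε ^ 2) / d) (x - Z q) with hg
  set s : Q → ℝ := fun q => Real.sqrt d * inner ℝ (x - Z q) (Z q - Y q) with hs
  set w : Q → ℝ := fun q => Real.sqrt d / 2 * (‖x - Y q‖ ^ 2 - 1) with hw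
  have hgm : Measurable g := (continuous_ga d _).measurable.comp (measurable_const.sub hmZ)
  have hsm : Measurable s := by
    apply Measurable.const_mul
    exact (measurable_const.sub hmZ).inner (hmZ.sub hmY)
  have hwm : Measurable w := by
    apply Measurable.const_mul
    apply Measurable.sub_const
    exact ((measurable_const.sub hmY).norm).pow_const 2
  have hgp : ∀ q, 0 < g q := fun q => ga_pos d _ ht _
  set γ := (gaussianReal 0 1).prod (gaussianReal 0 (d : NNReal)) with hγ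
  -- the integrand
  set G : Q → ℝ × ℝ → ℂ := fun q p => (g q : ℂ) *
    Complex.exp (((Real.sqrt 10 * p.1 * s q : ℝ) : ℂ) + Complex.I * ((p.2 * w q : ℝ) : ℂ)) with hG
  have hGH : ∀ p : ℝ × ℝ, Hf d ε μ Y Z (Real.sqrt 10 * p.1) p.2 x = ∫ q, G q p ∂μ := by
    intro p
    unfold Hf
    apply integral_congr_ae
    refine Filter.Eventually.of_forall fun q => ?_
    simp only [hG, hg, hs, hw]
    congr 2
    congr 1
    · push_cast; ring
    · congr 1
      push_cast; ring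
  have hGn : ∀ q p, ‖G q p‖ = g q * Real.exp (Real.sqrt 10 * p.1 * s q) := by
    intro q p
    simp only [hG]
    rw [norm_mul, Complex.norm_real, Real.norm_of_nonneg (hgp q).le, Complex.norm_exp]
    congr 2
    simp
  -- the kernel
  have hAk : ∀ q, ((Ak d ε x (Y q) (Z q) : ℝ) : ℂ) = (Real.sqrt d : ℂ) * ∫ p, G q p ∂γ := by
    intro q
    simp only [hG]
    rw [integral_const_mul, hγ, stepA_gauss]
    unfold Ak
    have e1 : -((d / 2 : ℝ) * (‖x - Y q‖ ^ 2 - 1)) ^ 2 / 2 =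
        -((((d : NNReal)) : ℝ) * (w q) ^ 2 / 2) := by
      simp only [hw]
      rw [mul_pow, mul_pow, div_pow, div_pow, Real.sq_sqrt hd0.le]
      push_cast
      ring
    have hgq : ga d ((1 - ε ^ 2) / d) (x - Z q) = g q := rfl
    have hsq : Real.sqrt d * inner ℝ (x - Z q) (Z q - Y q) = s q := rfl
    rw [e1, hgq, hsq]
    push_cast
    ring
  have hmeas : Measurable (Function.uncurry G) := by
    show Measurable (fun z : Q × (ℝ × ℝ) => (g z.1 : ℂ) *
      Complex.exp (((Real.sqrt 10 * z.2.1 * s z.1 : ℝ) : ℂ) +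
        Complex.I * ((z.2.2 * w z.1 : ℝ) : ℂ)))
    have m1 : Measurable (fun z : Q × (ℝ × ℝ) => g z.1) := hgm.comp measurable_fst
    have m2 : Measurable (fun z : Q × (ℝ × ℝ) => s z.1) := hsm.comp measurable_fst
    have m3 : Measurable (fun z : Q × (ℝ × ℝ) => w z.1) := hwm.comp measurable_fst
    have m4 : Measurable (fun z : Q × (ℝ × ℝ) => z.2.1) := measurable_fst.comp measurable_snd
    have m5 : Measurable (fun z : Q × (ℝ × ℝ) => z.2.2) := measurable_snd.comp measurable_snd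
    refine (Complex.measurable_ofReal.comp m1).mul (Complex.measurable_exp.comp ?_)
    refine (Complex.measurable_ofReal.comp ((m4.const_mul _).mul m2)).add ?_
    exact (Complex.measurable_ofReal.comp (m5.mul m3)).const_mul _
  have hbd : ∀ q, g q * Real.exp (5 * (s q) ^ 2) ≤
      (2 * Real.pi * ((1 - ε ^ 2) / d)) ^ (-(d : ℝ) / 2) := by
    intro q
    exact stepA_bound d hd ε hε hε1 (x - Z q) (Z q - Y q) (hD.close q)
  have hGi : Integrable (Function.uncurry G) (μ.prod γ) := by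
    rw [integrable_prod_iff hmeas.aestronglyMeasurable]
    constructor
    · refine Filter.Eventually.of_forall fun q => ?_
      have h1 := (stepA_abs_integrable (s q) (d : NNReal)).const_mul (g q)
      refine Integrable.mono' h1 ?_ ?_
      · exact (hmeas.comp measurable_prodMk_left).aestronglyMeasurable
      · refine Filter.Eventually.of_forall fun p => ?_
        exact (hGn q p).le
    · have h2 : ∀ q, ∫ p, ‖Function.uncurry G (q, p)‖ ∂γ = g q * Real.exp (5 * (s q) ^ 2) := by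
        intro q
        simp only [Function.uncurry_apply_pair, hGn]
        rw [integral_const_mul, hγ, stepA_abs]
      simp_rw [h2]
      refine Integrable.mono' (integrable_const
        ((2 * Real.pi * ((1 - ε ^ 2) / d)) ^ (-(d : ℝ) / 2))) ?_ ?_
      · exact (hgm.mul (Real.measurable_exp.comp ((hsm.pow_const 2).const_mul 5))).aestronglyMeasurable
      · refine Filter.Eventually.of_forall fun q => ?_
        rw [Real.norm_of_nonneg (mul_pos (hgp q) (Real.exp_pos _)).le]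
        exact hbd q
  have hswap : ∫ q, ∫ p, G q p ∂γ ∂μ = ∫ p, ∫ q, G q p ∂μ ∂γ := integral_integral_swap hGi
  -- the left-hand side as an integral
  have hAk0 : ∀ q, 0 ≤ Ak d ε x (Y q) (Z q) := by
    intro q
    unfold Ak
    have := ga_pos d _ ht (x - Z q)
    positivity
  have hAkInt : Integrable (fun q => ((Ak d ε x (Y q) (Z q) : ℝ) : ℂ)) μ := by
    simp_rw [hAk]
    exact hGi.integral_prod_left.const_mul _
  have hAkInt' : Integrable (fun q => Ak d ε x (Y q) (Z q)) μ := by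
    have := hAkInt.re
    simpa using this
  have e1 : ∫⁻ q, ENNReal.ofReal (Ak d ε x (Y q) (Z q)) ∂μ =
      ENNReal.ofReal (∫ q, Ak d ε x (Y q) (Z q) ∂μ) :=
    (ofReal_integral_eq_lintegral_ofReal hAkInt' (Filter.Eventually.of_forall hAk0)).symm
  have e2 : ENNReal.ofReal (∫ q, Ak d ε x (Y q) (Z q) ∂μ) =
      ‖∫ q, ((Ak d ε x (Y q) (Z q) : ℝ) : ℂ) ∂μ‖ₑ := by
    rw [integral_complex_ofReal, ← ofReal_norm, Complex.norm_real,
      Real.norm_of_nonneg (integral_nonneg hAk0)]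
  rw [e1, e2]
  simp_rw [hAk]
  rw [integral_const_mul, hswap, enorm_mul]
  have e3 : ‖(Real.sqrt d : ℂ)‖ₑ = ENNReal.ofReal (Real.sqrt d) := by
    rw [← ofReal_norm, Complex.norm_real, Real.norm_of_nonneg (Real.sqrt_nonneg _)]
  rw [e3]
  simp_rw [hGH]
  exact mul_le_mul_right (enorm_integral_le_lintegral_enorm _) _

end JA

alias stepA := JA.stepA

end Pool.Agent.Helper160.MF
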