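import Pool.Agent.Helper160.MF.Defs2
import Pool.Agent.Helper160.MF.Jga

set_option autoImplicit false
open MeasureTheory Set Metric

namespace Pool.Agent.Helper160.MF


namespace JL1int

theorem lint_ga_exp (d : ℕ) (t : ℝ) (ht : 0 < t) (b : ℝ) (v : Eu d) :
    ∫⁻ w : Eu d, ENNReal.ofReal (ga d t w * Real.exp (b * inner ℝ w v)) =
      ENNReal.ofReal (Real.exp (b ^ 2 * t * ‖v‖ ^ 2 / 2)) := by
  have h1 : ∀ w : Eu d, ga d t w * Real.exp (b * inner ℝ w v) =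
      Real.exp (b ^ 2 * t * ‖v‖ ^ 2 / 2) * ga d t (w - (b * t) • v) := by
    intro w
    have h2 : ‖w - (b * t) • v‖ ^ 2 =
        ‖w‖ ^ 2 - 2 * (b * t) * inner ℝ w v + (b * t) ^ 2 * ‖v‖ ^ 2 := by
      rw [norm_sub_sq_real, inner_smul_right, norm_smul, mul_pow, Real.norm_eq_abs, sq_abs]
      ring
    have h3 : Real.exp (-‖w - (b * t) • v‖ ^ 2 / (2 * t)) * Real.exp (b ^ 2 * t * ‖v‖ ^ 2 / 2) =
        Real.exp (-‖w‖ ^ 2 / (2 * t)) * Real.exp (b * inner ℝ w v) := by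
      rw [h2, ← Real.exp_add, ← Real.exp_add]
      congr 1
      field_simp
      ring
    unfold ga
    calc (2 * Real.pi * t) ^ (-(d : ℝ) / 2) * Real.exp (-‖w‖ ^ 2 / (2 * t)) *
          Real.exp (b * inner ℝ w v)
        = (2 * Real.pi * t) ^ (-(d : ℝ) / 2) * (Real.exp (-‖w‖ ^ 2 / (2 * t)) *
          Real.exp (b * inner ℝ w v)) := by ring
      _ = (2 * Real.pi * t) ^ (-(d : ℝ) / 2) * (Real.exp (-‖w - (b * t) • v‖ ^ 2 / (2 * t)) *
          Real.exp (b ^ 2 * t * ‖v‖ ^ 2 / 2)) := by rw [h3]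
      _ = _ := by ring
  have h4 : ∀ w : Eu d, ENNReal.ofReal (ga d t w * Real.exp (b * inner ℝ w v)) =
      ENNReal.ofReal (Real.exp (b ^ 2 * t * ‖v‖ ^ 2 / 2)) *
        ENNReal.ofReal (ga d t (w - (b * t) • v)) := by
    intro w
    rw [h1 w, ENNReal.ofReal_mul (Real.exp_pos _).le]
  rw [lintegral_congr h4, lintegral_const_mul' _ _ ENNReal.ofReal_ne_top, lintegral_ga d t ht,
    mul_one]

theorem ga_damp (d : ℕ) (t : ℝ) (ht : 0 < t) (θ : ℝ) (hθ : 0 ≤ θ) (w : Eu d) :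
    ga d t w * Real.exp (-θ * ‖w‖ ^ 2) =
      (1 + 2 * θ * t) ^ (-(d : ℝ) / 2) * ga d (t / (1 + 2 * θ * t)) w := by
  have hp : 0 < 1 + 2 * θ * t := by positivity
  have h1 : 2 * Real.pi * t = (1 + 2 * θ * t) * (2 * Real.pi * (t / (1 + 2 * θ * t))) := by
    field_simp
  have h2 : (2 * Real.pi * t) ^ (-(d : ℝ) / 2) = (1 + 2 * θ * t) ^ (-(d : ℝ) / 2) *
      (2 * Real.pi * (t / (1 + 2 * θ * t))) ^ (-(d : ℝ) / 2) := by
    conv_lhs => rw [h1]
    rw [Real.mul_rpow hp.le (by positivity)]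
  have h3 : Real.exp (-‖w‖ ^ 2 / (2 * t)) * Real.exp (-θ * ‖w‖ ^ 2) =
      Real.exp (-‖w‖ ^ 2 / (2 * (t / (1 + 2 * θ * t)))) := by
    rw [← Real.exp_add]
    congr 1
    field_simp
    ring
  unfold ga
  rw [h2, mul_assoc, mul_assoc, h3]

theorem rpow_bd (d : ℕ) (s : ℝ) (hs : 99 / 100 ≤ s) :
    (1 + 2 * s) ^ (-(d : ℝ) / 2) ≤ Real.exp (-(d : ℝ) / 2) := by
  have h1 : Real.exp 1 ≤ 1 + 2 * s := by
    have := Real.exp_one_lt_d9
    linarith
  calc (1 + 2 * s) ^ (-(d : ℝ) / 2) ≤ (Real.exp 1) ^ (-(d : ℝ) / 2) := by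
        apply Real.rpow_le_rpow_of_nonpos (Real.exp_pos _) h1
        have : (0 : ℝ) ≤ d := Nat.cast_nonneg d
        linarith
    _ = Real.exp (-(d : ℝ) / 2) := by
        rw [← Real.exp_mul, one_mul]

theorem L1_int : ∃ C c : ℝ, 0 < C ∧ 0 < c ∧ ∀ d : ℕ, 16 ≤ d → ∀ ε : ℝ, 0 < ε → ε ≤ 1 / 64 →
    ∀ v : Eu d, ‖v‖ ≤ ε → ∀ a β : ℝ,
    ∫⁻ w : Eu d, ENNReal.ofReal (ga d (2 * (1 - ε ^ 2) / d) w * Real.exp (a * Real.sqrt d * inner ℝ w v) *
        Real.exp (-((1 - ε ^ 2) / 4 * β ^ 2 * (max (‖w‖ - 2 * ε) 0) ^ 2))) ≤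
      ENNReal.ofReal (C * Real.exp (2 * a ^ 2 * ε ^ 2) * (Real.exp (-c * β ^ 2) + Real.exp (-c * d))) := by
  refine ⟨1, 1 / 20, one_pos, by norm_num, ?_⟩
  intro d hd ε hε0 hε v hv a β
  have hd0 : (0 : ℝ) < d := by
    have : 0 < d := by omega
    exact_mod_cast this
  obtain ⟨s, hs⟩ : ∃ s : ℝ, s = 1 - ε ^ 2 := ⟨_, rfl⟩
  have hε2 : ε ^ 2 ≤ (1 / 64) ^ 2 := by
    exact pow_le_pow_left₀ hε0.le hε 2
  have hs99 : 99 / 100 ≤ s := by rw [hs]; norm_num at hε2 ⊢; linarith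
  have hs1 : s ≤ 1 := by rw [hs]; nlinarith [sq_nonneg ε]
  have hs0 : 0 < s := by linarith
  rw [← hs]
  obtain ⟨t, ht⟩ : ∃ t : ℝ, t = 2 * s / d := ⟨_, rfl⟩
  have ht0 : 0 < t := by rw [ht]; positivity
  rw [← ht]
  have hθt : 1 + 2 * ((d : ℝ) / 2) * t = 1 + 2 * s := by
    rw [ht]; field_simp
  obtain ⟨t', ht'⟩ : ∃ t' : ℝ, t' = t / (1 + 2 * s) := ⟨_, rfl⟩
  have ht'0 : 0 < t' := by rw [ht']; positivity
  have htt : t' ≤ t := by
    rw [ht']
    exact div_le_self ht0.le (by linarith)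
  have hdamp : ∀ w : Eu d, ga d t w * Real.exp (-((d : ℝ) / 2) * ‖w‖ ^ 2) =
      (1 + 2 * s) ^ (-(d : ℝ) / 2) * ga d t' w := by
    intro w
    have := ga_damp d t ht0 ((d : ℝ) / 2) (by positivity) w
    rw [hθt, ← ht'] at this
    exact this
  have hpt : ∀ w : Eu d, ga d t w * Real.exp (a * Real.sqrt d * inner ℝ w v) *
        Real.exp (-(s / 4 * β ^ 2 * (max (‖w‖ - 2 * ε) 0) ^ 2)) ≤
      Real.exp (-(1 / 20) * β ^ 2) * (ga d t w * Real.exp (a * Real.sqrt d * inner ℝ w v)) +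
      Real.exp (-(1 / 20) * d) * (ga d t' w * Real.exp (a * Real.sqrt d * inner ℝ w v)) := by
    intro w
    have hE : 0 < Real.exp (a * Real.sqrt d * inner ℝ w v) := Real.exp_pos _
    have hg : 0 < ga d t w := ga_pos d t ht0 w
    have hg' : 0 < ga d t' w := ga_pos d t' ht'0 w
    rcases le_or_gt (1 / 2) ‖w‖ with hw | hw
    · have h1 : 15 / 32 ≤ max (‖w‖ - 2 * ε) 0 := by
        apply le_max_of_le_left
        linarith
      have h2 : (15 / 32 : ℝ) ^ 2 ≤ (max (‖w‖ - 2 * ε) 0) ^ 2 :=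
        pow_le_pow_left₀ (by norm_num) h1 2
      have h3 : (1 / 20) * β ^ 2 ≤ s / 4 * β ^ 2 * (max (‖w‖ - 2 * ε) 0) ^ 2 := by
        have h4 : (1 / 20 : ℝ) ≤ s / 4 * (max (‖w‖ - 2 * ε) 0) ^ 2 := by
          calc (1 / 20 : ℝ) ≤ (99 / 100) / 4 * (15 / 32) ^ 2 := by norm_num
            _ ≤ s / 4 * (max (‖w‖ - 2 * ε) 0) ^ 2 := by
              apply mul_le_mul (by linarith) h2 (by positivity) (by positivity)
        nlinarith [sq_nonneg β]
      have h5 : Real.exp (-(s / 4 * β ^ 2 * (max (‖w‖ - 2 * ε) 0) ^ 2)) ≤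
          Real.exp (-(1 / 20) * β ^ 2) := Real.exp_le_exp.2 (by linarith)
      have h6 : 0 ≤ Real.exp (-(1 / 20) * (d : ℝ)) *
          (ga d t' w * Real.exp (a * Real.sqrt d * inner ℝ w v)) := by positivity
      have h7 : ga d t w * Real.exp (a * Real.sqrt d * inner ℝ w v) *
          Real.exp (-(s / 4 * β ^ 2 * (max (‖w‖ - 2 * ε) 0) ^ 2)) ≤
          ga d t w * Real.exp (a * Real.sqrt d * inner ℝ w v) * Real.exp (-(1 / 20) * β ^ 2) :=
        mul_le_mul_of_nonneg_left h5 (by positivity)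
      linarith
    · have h1 : Real.exp (-(s / 4 * β ^ 2 * (max (‖w‖ - 2 * ε) 0) ^ 2)) ≤ 1 := by
        rw [Real.exp_le_one_iff]
        have : 0 ≤ s / 4 * β ^ 2 * (max (‖w‖ - 2 * ε) 0) ^ 2 := by positivity
        linarith
      have h2 : 1 ≤ Real.exp ((d : ℝ) / 8) * Real.exp (-((d : ℝ) / 2) * ‖w‖ ^ 2) := by
        rw [← Real.exp_add]
        apply Real.one_le_exp
        have h3 : ‖w‖ ^ 2 ≤ 1 / 4 := by
          nlinarith [norm_nonneg w]
        nlinarith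
      have h4 : Real.exp ((d : ℝ) / 8) * (1 + 2 * s) ^ (-(d : ℝ) / 2) ≤
          Real.exp (-(1 / 20) * d) := by
        calc Real.exp ((d : ℝ) / 8) * (1 + 2 * s) ^ (-(d : ℝ) / 2)
            ≤ Real.exp ((d : ℝ) / 8) * Real.exp (-(d : ℝ) / 2) :=
              mul_le_mul_of_nonneg_left (rpow_bd d s hs99) (Real.exp_pos _).le
          _ = Real.exp ((d : ℝ) / 8 + -(d : ℝ) / 2) := by rw [Real.exp_add]
          _ ≤ Real.exp (-(1 / 20) * d) := Real.exp_le_exp.2 (by linarith)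
      have h5 : 0 ≤ Real.exp (-(1 / 20) * β ^ 2) *
          (ga d t w * Real.exp (a * Real.sqrt d * inner ℝ w v)) := by positivity
      have h6 : ga d t w ≤ Real.exp (-(1 / 20) * d) * ga d t' w := by
        calc ga d t w = ga d t w * 1 := (mul_one _).symm
          _ ≤ ga d t w * (Real.exp ((d : ℝ) / 8) * Real.exp (-((d : ℝ) / 2) * ‖w‖ ^ 2)) :=
              mul_le_mul_of_nonneg_left h2 hg.le
          _ = Real.exp ((d : ℝ) / 8) * (ga d t w * Real.exp (-((d : ℝ) / 2) * ‖w‖ ^ 2)) := by ring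
          _ = Real.exp ((d : ℝ) / 8) * (1 + 2 * s) ^ (-(d : ℝ) / 2) * ga d t' w := by
              rw [hdamp w]; ring
          _ ≤ Real.exp (-(1 / 20) * d) * ga d t' w := mul_le_mul_of_nonneg_right h4 hg'.le
      have h7 : ga d t w * Real.exp (a * Real.sqrt d * inner ℝ w v) *
          Real.exp (-(s / 4 * β ^ 2 * (max (‖w‖ - 2 * ε) 0) ^ 2)) ≤
          ga d t w * Real.exp (a * Real.sqrt d * inner ℝ w v) * 1 :=
        mul_le_mul_of_nonneg_left h1 (by positivity)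
      have h8 : ga d t w * Real.exp (a * Real.sqrt d * inner ℝ w v) ≤
          Real.exp (-(1 / 20) * d) * ga d t' w * Real.exp (a * Real.sqrt d * inner ℝ w v) :=
        mul_le_mul_of_nonneg_right h6 hE.le
      linarith
  have hb : ∀ t₁ : ℝ, 0 < t₁ → t₁ ≤ t →
      ENNReal.ofReal (Real.exp ((a * Real.sqrt d) ^ 2 * t₁ * ‖v‖ ^ 2 / 2)) ≤
      ENNReal.ofReal (Real.exp (2 * a ^ 2 * ε ^ 2)) := by
    intro t₁ ht₁ ht₁t
    apply ENNReal.ofReal_le_ofReal
    apply Real.exp_le_exp.2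
    rw [mul_pow, Real.sq_sqrt hd0.le]
    have h1 : (d : ℝ) * t₁ ≤ 2 := by
      calc (d : ℝ) * t₁ ≤ d * t := mul_le_mul_of_nonneg_left ht₁t hd0.le
        _ = 2 * s := by rw [ht]; field_simp
        _ ≤ 2 := by linarith
    have h2 : ‖v‖ ^ 2 ≤ ε ^ 2 := pow_le_pow_left₀ (norm_nonneg v) hv 2
    have h3 : (d : ℝ) * t₁ * ‖v‖ ^ 2 ≤ 2 * ε ^ 2 :=
      mul_le_mul h1 h2 (by positivity) (by norm_num)
    have h4 : a ^ 2 * ((d : ℝ) * t₁ * ‖v‖ ^ 2) ≤ a ^ 2 * (2 * ε ^ 2) :=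
      mul_le_mul_of_nonneg_left h3 (sq_nonneg a)
    have h5 : 0 ≤ a ^ 2 * ε ^ 2 := by positivity
    nlinarith
  calc ∫⁻ w : Eu d, ENNReal.ofReal (ga d t w * Real.exp (a * Real.sqrt d * inner ℝ w v) *
        Real.exp (-(s / 4 * β ^ 2 * (max (‖w‖ - 2 * ε) 0) ^ 2)))
      ≤ ∫⁻ w : Eu d, (ENNReal.ofReal (Real.exp (-(1 / 20) * β ^ 2)) *
          ENNReal.ofReal (ga d t w * Real.exp (a * Real.sqrt d * inner ℝ w v)) +
          ENNReal.ofReal (Real.exp (-(1 / 20) * d)) *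
          ENNReal.ofReal (ga d t' w * Real.exp (a * Real.sqrt d * inner ℝ w v))) := by
        apply lintegral_mono
        intro w
        have hg : 0 < ga d t w := ga_pos d t ht0 w
        have hg' : 0 < ga d t' w := ga_pos d t' ht'0 w
        beta_reduce
        rw [← ENNReal.ofReal_mul (Real.exp_pos _).le, ← ENNReal.ofReal_mul (Real.exp_pos _).le,
          ← ENNReal.ofReal_add (by positivity) (by positivity)]
        exact ENNReal.ofReal_le_ofReal (hpt w)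
    _ = ENNReal.ofReal (Real.exp (-(1 / 20) * β ^ 2)) *
          ENNReal.ofReal (Real.exp ((a * Real.sqrt d) ^ 2 * t * ‖v‖ ^ 2 / 2)) +
        ENNReal.ofReal (Real.exp (-(1 / 20) * d)) *
          ENNReal.ofReal (Real.exp ((a * Real.sqrt d) ^ 2 * t' * ‖v‖ ^ 2 / 2)) := by
        have hm : ∀ t₁ : ℝ, Measurable fun w : Eu d => ENNReal.ofReal (ga d t₁ w *
            Real.exp (a * Real.sqrt d * inner ℝ w v)) := by
          intro t₁
          apply ENNReal.measurable_ofReal.comp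
          apply Continuous.measurable
          exact (continuous_ga d t₁).mul (Real.continuous_exp.comp
            (continuous_const.mul (continuous_id.inner continuous_const)))
        rw [lintegral_add_left ((hm t).const_mul _), lintegral_const_mul _ (hm t),
          lintegral_const_mul _ (hm t'), lint_ga_exp d t ht0, lint_ga_exp d t' ht'0]
    _ ≤ ENNReal.ofReal (Real.exp (-(1 / 20) * β ^ 2)) *
          ENNReal.ofReal (Real.exp (2 * a ^ 2 * ε ^ 2)) +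
        ENNReal.ofReal (Real.exp (-(1 / 20) * d)) *
          ENNReal.ofReal (Real.exp (2 * a ^ 2 * ε ^ 2)) := by
        exact add_le_add (mul_le_mul_right (hb t ht0 le_rfl) _) (mul_le_mul_right (hb t' ht'0 htt) _)
    _ = ENNReal.ofReal (1 * Real.exp (2 * a ^ 2 * ε ^ 2) *
          (Real.exp (-(1 / 20) * β ^ 2) + Real.exp (-(1 / 20) * d))) := by
        rw [← ENNReal.ofReal_mul (Real.exp_pos _).le, ← ENNReal.ofReal_mul (Real.exp_pos _).le,
          ← ENNReal.ofReal_add (by positivity) (by positivity)]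
        congr 1
        ring

end JL1int

alias L1_int := JL1int.L1_int

end Pool.Agent.Helper160.MF
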