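import Pool.Agent.Helper160.MF.Defs2

set_option autoImplicit false
open MeasureTheory Set Metric

namespace Pool.Agent.Helper160.MF


namespace Jfub

/-- opening the square of an `L²` norm of an average -/
theorem open_square {X Q : Type} [MeasurableSpace X] [MeasurableSpace Q] (ν : Measure X) [SFinite ν]
    (μ : Measure Q) [IsFiniteMeasure μ] (G : Q → X → ℂ) (hG : Measurable (fun p : Q × X => G p.1 p.2))
    (hint : ∫⁻ x, (∫⁻ q, ‖G q x‖ₑ ∂μ) ^ 2 ∂ν ≠ ⊤) :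
    ∫⁻ x, ‖∫ q, G q x ∂μ‖ₑ ^ 2 ∂ν ≤
      ∫⁻ q, ∫⁻ q', ‖∫ x, G q x * (starRingEnd ℂ) (G q' x) ∂ν‖ₑ ∂μ ∂μ := by
  have hGs : Measurable (fun p : X × Q => G p.2 p.1) := hG.comp measurable_swap
  have hI : Measurable (fun x => ∫⁻ q, ‖G q x‖ₑ ∂μ) :=
    Measurable.lintegral_prod_right' (f := fun p : X × Q => ‖G p.2 p.1‖ₑ) hGs.enorm
  have hae : ∀ᵐ x ∂ν, ∫⁻ q, ‖G q x‖ₑ ∂μ < ⊤ := by
    have h1 : ∀ᵐ x ∂ν, (∫⁻ q, ‖G q x‖ₑ ∂μ) ^ 2 < ⊤ := ae_lt_top (hI.pow_const 2) hint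
    filter_upwards [h1] with x hx
    by_contra hcon
    rw [not_lt, top_le_iff] at hcon
    rw [hcon] at hx
    simp at hx
  -- the product function
  set Φ : X × (Q × Q) → ℂ := fun z => G z.2.1 z.1 * (starRingEnd ℂ) (G z.2.2 z.1) with hΦ
  have hconj : Measurable (starRingEnd ℂ) := Complex.continuous_conj.measurable
  have hm1 : Measurable (fun z : X × (Q × Q) => G z.2.1 z.1) :=
    hG.comp ((measurable_fst.comp measurable_snd).prodMk measurable_fst)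
  have hm2 : Measurable (fun z : X × (Q × Q) => G z.2.2 z.1) :=
    hG.comp ((measurable_snd.comp measurable_snd).prodMk measurable_fst)
  have hΦm : Measurable Φ := hm1.mul (hconj.comp hm2)
  have hslice : ∀ x : X, Measurable (fun q => G q x) := fun x =>
    hG.comp (measurable_id.prodMk measurable_const)
  have hsq : ∀ x : X, ∫⁻ p : Q × Q, ‖Φ (x, p)‖ₑ ∂(μ.prod μ) = (∫⁻ q, ‖G q x‖ₑ ∂μ) ^ 2 := by
    intro x
    have h1 : ∀ p : Q × Q, ‖Φ (x, p)‖ₑ = ‖G p.1 x‖ₑ * ‖G p.2 x‖ₑ := by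
      intro p
      simp only [hΦ, enorm_mul]
      congr 1
      rw [← ofReal_norm, ← ofReal_norm, Complex.norm_conj]
    simp_rw [h1]
    rw [lintegral_prod_mul (hslice x).enorm.aemeasurable (hslice x).enorm.aemeasurable, sq]
  have hΦint : Integrable Φ (ν.prod (μ.prod μ)) := by
    refine ⟨hΦm.aestronglyMeasurable, ?_⟩
    rw [hasFiniteIntegral_iff_enorm, lintegral_prod _ hΦm.enorm.aemeasurable]
    simp_rw [hsq]
    exact lt_top_iff_ne_top.mpr hint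
  -- pointwise identity
  have hpt : ∀ᵐ x ∂ν, ((‖∫ q, G q x ∂μ‖ ^ 2 : ℝ) : ℂ) = ∫ p, Φ (x, p) ∂(μ.prod μ) := by
    filter_upwards [hae] with x hx
    have h1 : ∫ p, Φ (x, p) ∂(μ.prod μ) =
        (∫ q, G q x ∂μ) * (∫ q, (starRingEnd ℂ) (G q x) ∂μ) := by
      simp only [hΦ]
      exact integral_prod_mul (fun q => G q x) (fun q => (starRingEnd ℂ) (G q x))
    rw [h1, integral_conj, Complex.mul_conj, Complex.normSq_eq_norm_sq]
  -- the left side
  have hFint : Integrable (fun x => ∫ p, Φ (x, p) ∂(μ.prod μ)) ν := hΦint.integral_prod_left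
  have hreal : Integrable (fun x => ‖∫ q, G q x ∂μ‖ ^ 2) ν := by
    have h1 : Integrable (fun x => ((‖∫ q, G q x ∂μ‖ ^ 2 : ℝ) : ℂ)) ν :=
      hFint.congr (hpt.mono fun x hx => hx.symm)
    have h2 := h1.re
    refine h2.congr (Filter.Eventually.of_forall fun x => ?_)
    exact Complex.ofReal_re _
  have hL : ∫⁻ x, ‖∫ q, G q x ∂μ‖ₑ ^ 2 ∂ν = ‖∫ x, ∫ p, Φ (x, p) ∂(μ.prod μ) ∂ν‖ₑ := by
    have h1 : ∫ x, ∫ p, Φ (x, p) ∂(μ.prod μ) ∂ν = ((∫ x, ‖∫ q, G q x ∂μ‖ ^ 2 ∂ν : ℝ) : ℂ) := by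
      rw [← integral_complex_ofReal]
      exact (integral_congr_ae hpt).symm
    rw [h1]
    have h0 : 0 ≤ ∫ x, ‖∫ q, G q x ∂μ‖ ^ 2 ∂ν := integral_nonneg fun x => by positivity
    rw [← ofReal_norm, Complex.norm_real, Real.norm_of_nonneg h0,
      ofReal_integral_eq_lintegral_ofReal hreal (Filter.Eventually.of_forall fun x => by positivity)]
    refine lintegral_congr fun x => ?_
    rw [ENNReal.ofReal_pow (norm_nonneg _), ofReal_norm]
  rw [hL, integral_integral_swap (f := fun x p => Φ (x, p)) hΦint]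
  have hR : ∫⁻ q, ∫⁻ q', ‖∫ x, G q x * (starRingEnd ℂ) (G q' x) ∂ν‖ₑ ∂μ ∂μ =
      ∫⁻ p : Q × Q, ‖∫ x, Φ (x, p) ∂ν‖ₑ ∂(μ.prod μ) := by
    have hmeas : AEMeasurable (fun p : Q × Q => ‖∫ x, Φ (x, p) ∂ν‖ₑ) (μ.prod μ) := by
      have h3 : StronglyMeasurable (fun p : Q × Q => ∫ x, Φ (x, p) ∂ν) := by
        have h4 : StronglyMeasurable (fun z : (Q × Q) × X => Φ (z.2, z.1)) :=
          (hΦm.comp measurable_swap).stronglyMeasurable
        exact h4.integral_prod_right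
      exact h3.enorm.aemeasurable
    rw [lintegral_prod _ hmeas]
  rw [hR]
  exact enorm_integral_le_lintegral_enorm _

end Jfub

alias open_square := Jfub.open_square

end Pool.Agent.Helper160.MF
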