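import Pool.Agent.Helper160.MF.Defs2
import Pool.Agent.Helper160.MF.Jga

set_option autoImplicit false
open MeasureTheory Set Metric

namespace Pool.Agent.Helper160.MF


namespace Jpair

theorem ga_shift (d : ℕ) (τ : ℝ) (hτ : 0 < τ) (p η : Eu d) :
    ga d τ (η + τ • p) * Real.exp (inner ℝ (η + τ • p) p) =
      Real.exp (τ / 2 * ‖p‖ ^ 2) * ga d τ η := by
  unfold ga
  have h1 : -‖η + τ • p‖ ^ 2 / (2 * τ) + inner ℝ (η + τ • p) p =
      τ / 2 * ‖p‖ ^ 2 + -‖η‖ ^ 2 / (2 * τ) := by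
    rw [norm_add_sq_real, inner_add_left, inner_smul_right, real_inner_smul_left,
      real_inner_self_eq_norm_sq, norm_smul, Real.norm_of_nonneg hτ.le]
    field_simp
    ring
  calc (2 * Real.pi * τ) ^ (-(d : ℝ) / 2) * Real.exp (-‖η + τ • p‖ ^ 2 / (2 * τ)) *
        Real.exp (inner ℝ (η + τ • p) p)
      = (2 * Real.pi * τ) ^ (-(d : ℝ) / 2) *
        Real.exp (-‖η + τ • p‖ ^ 2 / (2 * τ) + inner ℝ (η + τ • p) p) := by
          rw [Real.exp_add]; ring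
    _ = _ := by rw [h1, Real.exp_add]; ring

theorem gauss_norm (d : ℕ) (τ : ℝ) (hτ : 0 < τ) (p q : Eu d) :
    ‖∫ ξ : Eu d, (ga d τ ξ : ℂ) * Complex.exp (((inner ℝ ξ p : ℝ) : ℂ) +
      Complex.I * ((inner ℝ ξ q : ℝ) : ℂ))‖ = Real.exp (τ / 2 * (‖p‖ ^ 2 - ‖q‖ ^ 2)) := by
  suffices h : ∀ f : Eu d → ℂ, (∀ η, f (η + τ • p) =
      Complex.exp (((τ / 2 * ‖p‖ ^ 2 : ℝ) : ℂ) + ((τ * inner ℝ p q : ℝ) : ℂ) * Complex.I) *
        ((ga d τ η : ℂ) * Complex.exp (Complex.I * ((inner ℝ η q : ℝ) : ℂ)))) →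
      ‖∫ x, f x‖ = Real.exp (τ / 2 * (‖p‖ ^ 2 - ‖q‖ ^ 2)) by
    refine h _ fun η => ?_
    have h1 := congrArg (fun r : ℝ => (r : ℂ)) (ga_shift d τ hτ p η)
    simp only [Complex.ofReal_mul, Complex.ofReal_exp] at h1
    have h2 : inner ℝ (η + τ • p) q = inner ℝ η q + τ * inner ℝ p q := by
      rw [inner_add_left, real_inner_smul_left]
    rw [Complex.exp_add, ← mul_assoc, h1, h2, Complex.ofReal_add, mul_add, Complex.exp_add,
      Complex.exp_add]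
    simp only [Complex.ofReal_mul]
    ring_nf
  intro f hf
  rw [← integral_add_right_eq_self f (τ • p)]
  simp_rw [hf]
  rw [integral_const_mul, norm_mul, Complex.norm_exp, integral_ga_cexp d τ hτ Complex.I q,
    Complex.norm_exp, ← Real.exp_add]
  congr 1
  have e1 : (((τ / 2 * ‖p‖ ^ 2 : ℝ) : ℂ) + ((τ * inner ℝ p q : ℝ) : ℂ) * Complex.I).re =
      τ / 2 * ‖p‖ ^ 2 := by
    rw [Complex.add_re, Complex.ofReal_re, Complex.re_ofReal_mul, Complex.I_re]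
    ring
  have e2 : (Complex.I ^ 2 * (τ : ℂ) * (‖q‖ : ℂ) ^ 2 / 2).re = - (τ / 2 * ‖q‖ ^ 2) := by
    rw [Complex.I_sq]
    have : (-1 : ℂ) * (τ : ℂ) * (‖q‖ : ℂ) ^ 2 / 2 = ((-(τ / 2 * ‖q‖ ^ 2) : ℝ) : ℂ) := by
      push_cast
      ring
    rw [this, Complex.ofReal_re]
  rw [e1, e2]
  ring

theorem ga_pair (d : ℕ) (t : ℝ) (ht : 0 < t) (z z' ξ : Eu d) :
    ga d t (ξ + (1 / 2 : ℝ) • (z + z') - z) * ga d t (ξ + (1 / 2 : ℝ) • (z + z') - z') =
      ga d (2 * t) (z' - z) * ga d (t / 2) ξ := by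
  have e1 : ξ + (1 / 2 : ℝ) • (z + z') - z = ξ + (1 / 2 : ℝ) • (z' - z) := by module
  have e2 : ξ + (1 / 2 : ℝ) • (z + z') - z' = ξ - (1 / 2 : ℝ) • (z' - z) := by module
  rw [e1, e2]
  unfold ga
  have h1 : -‖ξ + (1 / 2 : ℝ) • (z' - z)‖ ^ 2 / (2 * t) +
      -‖ξ - (1 / 2 : ℝ) • (z' - z)‖ ^ 2 / (2 * t) =
      -‖z' - z‖ ^ 2 / (2 * (2 * t)) + -‖ξ‖ ^ 2 / (2 * (t / 2)) := by
    rw [norm_add_sq_real, norm_sub_sq_real, inner_smul_right, norm_smul,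
      Real.norm_of_nonneg (by norm_num : (0:ℝ) ≤ 1 / 2)]
    field_simp
    ring
  have hpi := Real.pi_pos
  have h2 : (2 * Real.pi * t) ^ (-(d : ℝ) / 2) * (2 * Real.pi * t) ^ (-(d : ℝ) / 2) =
      (2 * Real.pi * (2 * t)) ^ (-(d : ℝ) / 2) * (2 * Real.pi * (t / 2)) ^ (-(d : ℝ) / 2) := by
    rw [← Real.mul_rpow (by positivity) (by positivity),
      ← Real.mul_rpow (by positivity) (by positivity)]
    congr 1
    ring
  calc _ = ((2 * Real.pi * t) ^ (-(d : ℝ) / 2) * (2 * Real.pi * t) ^ (-(d : ℝ) / 2)) *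
        Real.exp (-‖ξ + (1 / 2 : ℝ) • (z' - z)‖ ^ 2 / (2 * t) +
      -‖ξ - (1 / 2 : ℝ) • (z' - z)‖ ^ 2 / (2 * t)) := by rw [Real.exp_add]; ring
    _ = _ := by rw [h1, h2, Real.exp_add]; ring

/-- pair estimate: explicit Gaussian integral in `x`. -/
theorem pair_bound (d : ℕ) (hd : 1 ≤ d) (s a β : ℝ) (hs : 0 < s) (y z y' z' : Eu d) :
    ‖∫ x : Eu d, ((ga d (s / d) (x - z) : ℂ) * Complex.exp ((a * Real.sqrt d * inner ℝ (x - z) (z - y) : ℝ)
        + Complex.I * ((β * (Real.sqrt d / 2) * ‖x - y‖ ^ 2 : ℝ) : ℂ))) *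
      (starRingEnd ℂ) ((ga d (s / d) (x - z') : ℂ) * Complex.exp ((a * Real.sqrt d * inner ℝ (x - z') (z' - y') : ℝ)
        + Complex.I * ((β * (Real.sqrt d / 2) * ‖x - y'‖ ^ 2 : ℝ) : ℂ)))‖ ≤
    ga d (2 * s / d) (z' - z) * Real.exp (a * Real.sqrt d / 2 * (inner ℝ (z' - z) (z - y) - inner ℝ (z' - z) (z' - y'))
      + s / 4 * (a ^ 2 * ‖(z - y) + (z' - y')‖ ^ 2 - β ^ 2 * ‖y' - y‖ ^ 2)) := by
  have hd0 : (0:ℝ) < d := by
    have : 0 < d := hd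
    exact_mod_cast this
  obtain ⟨t, ht⟩ : ∃ t : ℝ, t = s / d := ⟨_, rfl⟩
  have ht0 : 0 < t := by rw [ht]; positivity
  have h2t : 2 * s / d = 2 * t := by rw [ht]; ring
  rw [← ht, h2t]
  obtain ⟨D, hD⟩ : ∃ D : ℝ, D = Real.sqrt d := ⟨_, rfl⟩
  have hD2 : D ^ 2 = d := by rw [hD, Real.sq_sqrt hd0.le]
  rw [← hD]
  let c : Eu d := (1 / 2 : ℝ) • (z + z')
  let p : Eu d := (a * D) • ((z - y) + (z' - y'))
  let q : Eu d := (β * D) • (y' - y)
  let K : ℂ := (ga d (2 * t) (z' - z) : ℂ) * Complex.exp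
    (((a * D / 2 * (inner ℝ (z' - z) (z - y) - inner ℝ (z' - z) (z' - y')) : ℝ) : ℂ) +
      ((β * (D / 2) * (2 * inner ℝ c (y' - y) + ‖y‖ ^ 2 - ‖y'‖ ^ 2) : ℝ) : ℂ) * Complex.I)
  have hga2 : 0 < ga d (2 * t) (z' - z) := ga_pos d (2 * t) (by positivity) _
  suffices h : ∀ f : Eu d → ℂ, (∀ ξ, f (ξ + c) =
      K * ((ga d (t / 2) ξ : ℂ) * Complex.exp (((inner ℝ ξ p : ℝ) : ℂ) +
        Complex.I * ((inner ℝ ξ q : ℝ) : ℂ)))) →
      ‖∫ x, f x‖ ≤ ga d (2 * t) (z' - z) *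
        Real.exp (a * D / 2 * (inner ℝ (z' - z) (z - y) - inner ℝ (z' - z) (z' - y')) +
          s / 4 * (a ^ 2 * ‖(z - y) + (z' - y')‖ ^ 2 - β ^ 2 * ‖y' - y‖ ^ 2)) by
    refine h _ fun ξ => ?_
    have h1 := congrArg (fun r : ℝ => (r : ℂ)) (ga_pair d t ht0 z z' ξ)
    simp only [Complex.ofReal_mul] at h1
    have e1 : ξ + c - z = ξ + (1 / 2 : ℝ) • (z' - z) := by
      simp only [c]; module
    have e2 : ξ + c - z' = ξ - (1 / 2 : ℝ) • (z' - z) := by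
      simp only [c]; module
    have i1 : inner ℝ (ξ + c - z) (z - y) =
        inner ℝ ξ (z - y) + 1 / 2 * inner ℝ (z' - z) (z - y) := by
      rw [e1, inner_add_left, real_inner_smul_left]
    have i2 : inner ℝ (ξ + c - z') (z' - y') =
        inner ℝ ξ (z' - y') - 1 / 2 * inner ℝ (z' - z) (z' - y') := by
      rw [e2, inner_sub_left, real_inner_smul_left]
    have i3 : inner ℝ ξ p = a * D * inner ℝ ξ (z - y) + a * D * inner ℝ ξ (z' - y') := by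
      simp only [p]
      rw [inner_smul_right, inner_add_right]
      ring
    have i4 : inner ℝ ξ q = β * D * inner ℝ ξ (y' - y) := by
      simp only [q]
      rw [inner_smul_right]
    have i5 : ‖ξ + c - y‖ ^ 2 = ‖ξ + c - y'‖ ^ 2 + (2 * inner ℝ ξ (y' - y) +
        (2 * inner ℝ c (y' - y) + ‖y‖ ^ 2 - ‖y'‖ ^ 2)) := by
      rw [norm_sub_sq_real, norm_sub_sq_real (ξ + c) y', inner_sub_right, inner_sub_right,
        inner_add_left, inner_add_left]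
      ring
    rw [map_mul, Complex.conj_ofReal, ← Complex.exp_conj]
    simp only [map_add, map_mul, Complex.conj_ofReal, Complex.conj_I]
    calc _ = ((ga d t (ξ + c - z) : ℂ) * (ga d t (ξ + c - z') : ℂ)) *
          (Complex.exp (((a * D * inner ℝ (ξ + c - z) (z - y) : ℝ) : ℂ) +
            Complex.I * ((β * (D / 2) * ‖ξ + c - y‖ ^ 2 : ℝ) : ℂ)) *
          Complex.exp (((a * D * inner ℝ (ξ + c - z') (z' - y') : ℝ) : ℂ) +
            -Complex.I * ((β * (D / 2) * ‖ξ + c - y'‖ ^ 2 : ℝ) : ℂ))) := by ring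
      _ = ((ga d (2 * t) (z' - z) : ℂ) * (ga d (t / 2) ξ : ℂ)) * (Complex.exp
          (((a * D / 2 * (inner ℝ (z' - z) (z - y) - inner ℝ (z' - z) (z' - y')) : ℝ) : ℂ) +
      ((β * (D / 2) * (2 * inner ℝ c (y' - y) + ‖y‖ ^ 2 - ‖y'‖ ^ 2) : ℝ) : ℂ) * Complex.I) *
          Complex.exp (((inner ℝ ξ p : ℝ) : ℂ) +
        Complex.I * ((inner ℝ ξ q : ℝ) : ℂ))) := by
          rw [h1, ← Complex.exp_add, ← Complex.exp_add]
          congr 2
          rw [i1, i2, i3, i4, i5]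
          push_cast
          ring
      _ = _ := by
          simp only [K]
          ring
  intro f hf
  rw [← integral_add_right_eq_self f c]
  simp_rw [hf]
  rw [integral_const_mul, norm_mul, gauss_norm d (t / 2) (by positivity) p q]
  have hK : ‖K‖ = ga d (2 * t) (z' - z) *
      Real.exp (a * D / 2 * (inner ℝ (z' - z) (z - y) - inner ℝ (z' - z) (z' - y'))) := by
    simp only [K]
    rw [norm_mul, Complex.norm_real, Real.norm_of_nonneg hga2.le, Complex.norm_exp,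
      Complex.add_re, Complex.ofReal_re, Complex.re_ofReal_mul, Complex.I_re, mul_zero, add_zero]
  rw [hK, Real.exp_add, mul_assoc]
  apply le_of_eq
  congr 2
  have hp : ‖p‖ ^ 2 = a ^ 2 * d * ‖(z - y) + (z' - y')‖ ^ 2 := by
    simp only [p]
    rw [norm_smul, mul_pow, Real.norm_eq_abs, sq_abs, mul_pow, hD2]
  have hq : ‖q‖ ^ 2 = β ^ 2 * d * ‖y' - y‖ ^ 2 := by
    simp only [q]
    rw [norm_smul, mul_pow, Real.norm_eq_abs, sq_abs, mul_pow, hD2]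
  rw [hp, hq, ht]
  congr 1
  field_simp
  ring


end Jpair

alias pair_bound := Jpair.pair_bound

end Pool.Agent.Helper160.MF
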