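import Pool.Agent.Helper160.MF.Defs2
import Pool.Agent.Helper160.MF.Jga
import Pool.Agent.Helper160.MF.Jpair
import Pool.Agent.Helper160.MF.Jfub
import Pool.Agent.Helper160.MF.JL1int

set_option autoImplicit false
open MeasureTheory Set Metric

namespace Pool.Agent.Helper160.MF


namespace JL1


/-- the majorant -/
noncomputable def Phi (d : ℕ) (ε a β : ℝ) (v w : Eu d) : ℝ :=
  ga d (2 * (1 - ε ^ 2) / d) w * Real.exp (a * Real.sqrt d * inner ℝ w v) *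
        Real.exp (-((1 - ε ^ 2) / 4 * β ^ 2 * (max (‖w‖ - 2 * ε) 0) ^ 2))

theorem ga_neg (d : ℕ) (t : ℝ) (x : Eu d) : ga d t (-x) = ga d t x := by
  simp [ga]

theorem Phi_nonneg (d : ℕ) (hd : 1 ≤ d) (ε a β : ℝ) (hε : 0 < ε) (hε' : ε ≤ 1 / 64) (v w : Eu d) :
    0 ≤ Phi d ε a β v w := by
  have hd0 : (0 : ℝ) < d := by exact_mod_cast hd
  have hs : 0 < 1 - ε ^ 2 := by nlinarith
  have := ga_pos d (2 * (1 - ε ^ 2) / d) (by positivity) w
  unfold Phi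
  positivity

theorem key (d : ℕ) (hd : 1 ≤ d) (ε a β : ℝ) (hε : 0 < ε) (hε' : ε ≤ 1 / 64) (y z y' z' : Eu d)
    (h : ‖z - y‖ ≤ ε) (h' : ‖z' - y'‖ ≤ ε) :
    ga d (2 * (1 - ε ^ 2) / d) (z' - z) *
      Real.exp (a * Real.sqrt d / 2 * (inner ℝ (z' - z) (z - y) - inner ℝ (z' - z) (z' - y'))
      + (1 - ε ^ 2) / 4 * (a ^ 2 * ‖(z - y) + (z' - y')‖ ^ 2 - β ^ 2 * ‖y' - y‖ ^ 2)) ≤
    Real.exp (a ^ 2 * ε ^ 2) * (1 / 2 * (Phi d ε a β (z - y) (z' - z) + Phi d ε a β (z' - y') (z - z'))) := by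
  have hd0 : (0 : ℝ) < d := by exact_mod_cast hd
  have hs : 0 < 1 - ε ^ 2 := by nlinarith
  have hs1 : 1 - ε ^ 2 ≤ 1 := by nlinarith
  have hga := ga_pos d (2 * (1 - ε ^ 2) / d) (by positivity) (z' - z)
  set g := ga d (2 * (1 - ε ^ 2) / d) (z' - z) with hg
  set A := a * Real.sqrt d * inner ℝ (z' - z) (z - y) with hA
  set B := a * Real.sqrt d * inner ℝ (z' - z) (z' - y') with hB
  set m := max (‖z' - z‖ - 2 * ε) 0 with hm
  have hPhi1 : Phi d ε a β (z - y) (z' - z) = g * Real.exp A *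
      Real.exp (-((1 - ε ^ 2) / 4 * β ^ 2 * m ^ 2)) := rfl
  have hPhi2 : Phi d ε a β (z' - y') (z - z') = g * Real.exp (-B) *
      Real.exp (-((1 - ε ^ 2) / 4 * β ^ 2 * m ^ 2)) := by
    unfold Phi
    have e1 : z - z' = -(z' - z) := by abel
    rw [e1, ga_neg, inner_neg_left, norm_neg, hB, mul_neg]
  have hvv : ‖(z - y) + (z' - y')‖ ≤ 2 * ε := by
    calc ‖(z - y) + (z' - y')‖ ≤ ‖z - y‖ + ‖z' - y'‖ := norm_add_le _ _
      _ ≤ 2 * ε := by linarith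
  have hvv2 : ‖(z - y) + (z' - y')‖ ^ 2 ≤ 4 * ε ^ 2 := by
    nlinarith [norm_nonneg ((z - y) + (z' - y'))]
  have hyy : m ≤ ‖y' - y‖ := by
    refine max_le ?_ (norm_nonneg _)
    have e2 : z' - z = (y' - y) + ((z' - y') - (z - y)) := by abel
    have e3 : ‖z' - z‖ ≤ ‖y' - y‖ + (‖z' - y'‖ + ‖z - y‖) := by
      rw [e2]
      exact (norm_add_le _ _).trans (add_le_add_right (norm_sub_le _ _) _)
    linarith
  have hm0 : 0 ≤ m := le_max_right _ _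
  have hyy2 : m ^ 2 ≤ ‖y' - y‖ ^ 2 := by
    nlinarith
  have hexp : a * Real.sqrt d / 2 * (inner ℝ (z' - z) (z - y) - inner ℝ (z' - z) (z' - y'))
      + (1 - ε ^ 2) / 4 * (a ^ 2 * ‖(z - y) + (z' - y')‖ ^ 2 - β ^ 2 * ‖y' - y‖ ^ 2) ≤
      (A + (-B)) / 2 + a ^ 2 * ε ^ 2 + (-((1 - ε ^ 2) / 4 * β ^ 2 * m ^ 2)) := by
    have h1 : (1 - ε ^ 2) / 4 * (a ^ 2 * ‖(z - y) + (z' - y')‖ ^ 2) ≤ a ^ 2 * ε ^ 2 := by
      have h11 : a ^ 2 * ‖(z - y) + (z' - y')‖ ^ 2 ≤ a ^ 2 * (4 * ε ^ 2) :=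
        mul_le_mul_of_nonneg_left hvv2 (sq_nonneg a)
      have h12 : 0 ≤ a ^ 2 * ‖(z - y) + (z' - y')‖ ^ 2 := by positivity
      nlinarith
    have h2 : (1 - ε ^ 2) / 4 * β ^ 2 * m ^ 2 ≤ (1 - ε ^ 2) / 4 * (β ^ 2 * ‖y' - y‖ ^ 2) := by
      have : (1 - ε ^ 2) / 4 * β ^ 2 * m ^ 2 ≤ (1 - ε ^ 2) / 4 * β ^ 2 * ‖y' - y‖ ^ 2 :=
        mul_le_mul_of_nonneg_left hyy2 (by positivity)
      linarith
    have h3 : a * Real.sqrt d / 2 * (inner ℝ (z' - z) (z - y) - inner ℝ (z' - z) (z' - y')) =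
        (A + (-B)) / 2 := by rw [hA, hB]; ring
    rw [h3]
    linarith
  have hAM : Real.exp ((A + (-B)) / 2) ≤ 1 / 2 * (Real.exp A + Real.exp (-B)) := by
    have e4 : Real.exp ((A + (-B)) / 2) = Real.exp (A / 2) * Real.exp (-B / 2) := by
      rw [← Real.exp_add]; congr 1; ring
    have e5 : Real.exp A = Real.exp (A / 2) ^ 2 := by
      rw [← Real.exp_nat_mul]; congr 1; push_cast; ring
    have e6 : Real.exp (-B) = Real.exp (-B / 2) ^ 2 := by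
      rw [← Real.exp_nat_mul]; congr 1; push_cast; ring
    rw [e4, e5, e6]
    nlinarith [sq_nonneg (Real.exp (A / 2) - Real.exp (-B / 2))]
  rw [hPhi1, hPhi2]
  calc g * Real.exp (a * Real.sqrt d / 2 * (inner ℝ (z' - z) (z - y) - inner ℝ (z' - z) (z' - y'))
      + (1 - ε ^ 2) / 4 * (a ^ 2 * ‖(z - y) + (z' - y')‖ ^ 2 - β ^ 2 * ‖y' - y‖ ^ 2))
      ≤ g * Real.exp ((A + (-B)) / 2 + a ^ 2 * ε ^ 2 + (-((1 - ε ^ 2) / 4 * β ^ 2 * m ^ 2))) :=
        mul_le_mul_of_nonneg_left (Real.exp_le_exp.2 hexp) hga.le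
    _ = g * Real.exp ((A + (-B)) / 2) * Real.exp (a ^ 2 * ε ^ 2) *
        Real.exp (-((1 - ε ^ 2) / 4 * β ^ 2 * m ^ 2)) := by
        rw [Real.exp_add, Real.exp_add]; ring
    _ ≤ g * (1 / 2 * (Real.exp A + Real.exp (-B))) * Real.exp (a ^ 2 * ε ^ 2) *
        Real.exp (-((1 - ε ^ 2) / 4 * β ^ 2 * m ^ 2)) := by
        gcongr
    _ = _ := by ring

theorem ga_sq_le (d : ℕ) (t : ℝ) (ht : 0 < t) : ∃ M : ℝ, 0 ≤ M ∧ ∀ x : Eu d,
    ga d t x ^ 2 ≤ M * ga d (2 * t) x := by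
  refine ⟨((2 * Real.pi * t) ^ (-(d : ℝ) / 2)) ^ 2 / (2 * Real.pi * (2 * t)) ^ (-(d : ℝ) / 2),
    by positivity, fun x => ?_⟩
  unfold ga
  have hpos : 0 < (2 * Real.pi * (2 * t)) ^ (-(d : ℝ) / 2) := by positivity
  have h1 : ((2 * Real.pi * t) ^ (-(d : ℝ) / 2)) ^ 2 / (2 * Real.pi * (2 * t)) ^ (-(d : ℝ) / 2) *
      ((2 * Real.pi * (2 * t)) ^ (-(d : ℝ) / 2) * Real.exp (-‖x‖ ^ 2 / (2 * (2 * t)))) =
      ((2 * Real.pi * t) ^ (-(d : ℝ) / 2)) ^ 2 * Real.exp (-‖x‖ ^ 2 / (2 * (2 * t))) := by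
    field_simp
  rw [h1, mul_pow]
  refine mul_le_mul_of_nonneg_left ?_ (by positivity)
  rw [← Real.exp_nat_mul]
  apply Real.exp_le_exp.2
  have : (((2 : ℕ) : ℝ)) * (-‖x‖ ^ 2 / (2 * t)) - (-‖x‖ ^ 2 / (2 * (2 * t))) = -(3 * ‖x‖ ^ 2 / (4 * t)) := by
    push_cast; field_simp; ring
  have h2 : 0 ≤ 3 * ‖x‖ ^ 2 / (4 * t) := by positivity
  linarith

theorem measurable_Phi (d : ℕ) (ε a β : ℝ) {Q : Type} [MeasurableSpace Q] (V W : Q → Eu d)
    (hV : Measurable V) (hW : Measurable W) :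
    Measurable fun q => ENNReal.ofReal (Phi d ε a β (V q) (W q)) := by
  unfold Phi
  have h1 : Measurable fun q => ga d (2 * (1 - ε ^ 2) / d) (W q) :=
    (continuous_ga d _).measurable.comp hW
  have h2 : Measurable fun q => (inner ℝ (W q) (V q) : ℝ) := hW.inner hV
  have h3 : Measurable fun q => ‖W q‖ := hW.norm
  refine ENNReal.measurable_ofReal.comp ?_
  refine (h1.mul (Real.measurable_exp.comp (h2.const_mul _))).mul (Real.measurable_exp.comp ?_)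
  exact ((((h3.sub_const _).max measurable_const).pow_const 2).const_mul _).neg

theorem half (d : ℕ) (hd : 16 ≤ d) (ε : ℝ) (hε : 0 < ε) (hε' : ε ≤ 1 / 64) (lam : ENNReal)
    (Q : Type) [MeasurableSpace Q] (μ : Measure Q) (Y Z : Q → Eu d) (D : Dat d ε lam μ Y Z)
    (a β : ℝ) (K : ENNReal)
    (H : ∀ v : Eu d, ‖v‖ ≤ ε → ∫⁻ w : Eu d, ENNReal.ofReal (Phi d ε a β v w) ≤ K) :
    ∫⁻ q, ∫⁻ q', ENNReal.ofReal (Phi d ε a β (Z q - Y q) (Z q' - Z q)) ∂μ ∂μ ≤ K * lam * μ univ := by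
  have h1 : ∀ q, ∫⁻ q', ENNReal.ofReal (Phi d ε a β (Z q - Y q) (Z q' - Z q)) ∂μ ≤ lam * K := by
    intro q
    have hm := D.marg (fun z => ENNReal.ofReal (Phi d ε a β (Z q - Y q) (z - Z q)))
      (measurable_Phi d ε a β (Q := Eu d) (fun _ => Z q - Y q) (fun z => z - Z q)
        measurable_const (measurable_id.sub_const _))
    refine hm.trans ?_
    gcongr
    have := lintegral_sub_right_eq_self (μ := (volume : Measure (Eu d)))
      (fun w => ENNReal.ofReal (Phi d ε a β (Z q - Y q) w)) (Z q)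
    rw [this]
    exact H _ (D.close q)
  calc ∫⁻ q, ∫⁻ q', ENNReal.ofReal (Phi d ε a β (Z q - Y q) (Z q' - Z q)) ∂μ ∂μ
      ≤ ∫⁻ _, lam * K ∂μ := lintegral_mono h1
    _ = K * lam * μ univ := by rw [lintegral_const]; ring

theorem fin2 {X Q : Type} [MeasurableSpace X] [MeasurableSpace Q] (ν : Measure X) [SFinite ν]
    (μ : Measure Q) [IsFiniteMeasure μ] (g : Q → X → ENNReal)
    (hg : Measurable (fun p : Q × X => g p.1 p.2)) (K : ENNReal) (hK : K ≠ ⊤)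
    (h : ∀ q, ∫⁻ x, g q x ^ 2 ∂ν ≤ K) : ∫⁻ x, (∫⁻ q, g q x ∂μ) ^ 2 ∂ν ≠ ⊤ := by
  have h1 : ∀ x, (∫⁻ q, g q x ∂μ) ^ 2 ≤ μ univ * ∫⁻ q, g q x ^ 2 ∂μ := by
    intro x
    have hgx : Measurable fun q => g q x := hg.comp (measurable_id.prodMk measurable_const)
    have := ENNReal.lintegral_mul_le_Lp_mul_Lq μ Real.HolderConjugate.two_two
      (f := fun _ => (1 : ENNReal)) (g := fun q => g q x) aemeasurable_const hgx.aemeasurable
    simp only [Pi.mul_apply, one_mul, one_pow, lintegral_const, ENNReal.rpow_two] at this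
    calc (∫⁻ q, g q x ∂μ) ^ 2 ≤ (μ univ ^ (1 / 2 : ℝ) * (∫⁻ q, g q x ^ 2 ∂μ) ^ (1 / 2 : ℝ)) ^ 2 :=
          pow_le_pow_left' this 2
      _ = μ univ * ∫⁻ q, g q x ^ 2 ∂μ := by
          rw [mul_pow, ← ENNReal.rpow_natCast, ← ENNReal.rpow_natCast, ← ENNReal.rpow_mul,
            ← ENNReal.rpow_mul]
          norm_num
  have h2 : ∫⁻ x, (∫⁻ q, g q x ∂μ) ^ 2 ∂ν ≤ μ univ * (K * μ univ) := by
    calc ∫⁻ x, (∫⁻ q, g q x ∂μ) ^ 2 ∂ν ≤ ∫⁻ x, μ univ * ∫⁻ q, g q x ^ 2 ∂μ ∂ν := lintegral_mono h1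
      _ = μ univ * ∫⁻ x, ∫⁻ q, g q x ^ 2 ∂μ ∂ν := by
          rw [lintegral_const_mul' _ _ (measure_ne_top μ univ)]
      _ = μ univ * ∫⁻ q, ∫⁻ x, g q x ^ 2 ∂ν ∂μ := by
          rw [lintegral_lintegral_swap]
          have : Measurable fun p : X × Q => g p.2 p.1 := hg.comp measurable_swap
          exact (this.pow_const 2).aemeasurable
      _ ≤ μ univ * ∫⁻ _, K ∂μ := by gcongr with q; exact h q
      _ = μ univ * (K * μ univ) := by rw [lintegral_const]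
  refine ne_top_of_le_ne_top ?_ h2
  exact ENNReal.mul_ne_top (measure_ne_top _ _) (ENNReal.mul_ne_top hK (measure_ne_top _ _))

theorem sum_lem {Q : Type} [MeasurableSpace Q] (μ : Measure Q) [IsFiniteMeasure μ]
    (F1 F2 : Q → Q → ENNReal) (h1 : Measurable fun p : Q × Q => F1 p.1 p.2) (c : ENNReal)
    (hc : c ≠ ⊤) : ∫⁻ q, ∫⁻ q', c * (F1 q q' + F2 q q') ∂μ ∂μ =
      c * (∫⁻ q, ∫⁻ q', F1 q q' ∂μ ∂μ + ∫⁻ q, ∫⁻ q', F2 q q' ∂μ ∂μ) := by
  rw [← lintegral_add_left h1.lintegral_prod_right', ← lintegral_const_mul' _ _ hc]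
  congr 1
  funext q
  rw [lintegral_const_mul' _ _ hc, lintegral_add_left]
  exact h1.comp (measurable_const.prodMk measurable_id)

/-- first L2 bound: decay in the frequency -/
theorem L1_bound : ∃ C c : ℝ, 0 < C ∧ 0 < c ∧ ∀ d : ℕ, 16 ≤ d → ∀ ε : ℝ, 0 < ε → ε ≤ 1 / 64 →
    ∀ (lam : ENNReal), lam ≠ ⊤ → ∀ (Q : Type) [MeasurableSpace Q] (μ : Measure Q) (Y Z : Q → Eu d),
    Dat d ε lam μ Y Z → ∀ (k : Q → ℂ), Measurable k → (∀ q, ‖k q‖ ≤ 1) → ∀ a β : ℝ,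
    ∫⁻ x : Eu d, ‖∫ q, k q * ((ga d ((1 - ε ^ 2) / d) (x - Z q) : ℂ) *
        Complex.exp ((a * Real.sqrt d * inner ℝ (x - Z q) (Z q - Y q) : ℝ)
        + Complex.I * ((β * (Real.sqrt d / 2) * ‖x - Y q‖ ^ 2 : ℝ) : ℂ))) ∂μ‖ₑ ^ 2 ≤
      ENNReal.ofReal (C * Real.exp (4 * a ^ 2 * ε ^ 2) * (Real.exp (-c * β ^ 2) + Real.exp (-c * d))) *
        lam * μ univ := by
  obtain ⟨C, c, hC, hc, H⟩ := L1_int
  refine ⟨C, c, hC, hc, ?_⟩
  intro d hd ε hε hε' lam hlam Q _ μ Y Z D k hk hk1 a β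
  have := D.fin
  have hd1 : 1 ≤ d := by omega
  have hd0 : (0 : ℝ) < d := by exact_mod_cast hd1
  have hs : 0 < 1 - ε ^ 2 := by nlinarith
  have hH : ∀ a β : ℝ, ∀ v : Eu d, ‖v‖ ≤ ε → ∫⁻ w : Eu d, ENNReal.ofReal (Phi d ε a β v w) ≤
      ENNReal.ofReal (C * Real.exp (2 * a ^ 2 * ε ^ 2) * (Real.exp (-c * β ^ 2) + Real.exp (-c * d))) :=
    fun a β v hv => H d hd ε hε hε' v hv a β
  set G0 : Q → Eu d → ℂ := fun q x => (ga d ((1 - ε ^ 2) / d) (x - Z q) : ℂ) *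
        Complex.exp ((a * Real.sqrt d * inner ℝ (x - Z q) (Z q - Y q) : ℝ)
        + Complex.I * ((β * (Real.sqrt d / 2) * ‖x - Y q‖ ^ 2 : ℝ) : ℂ)) with hG0
  set G : Q → Eu d → ℂ := fun q x => k q * G0 q x with hGdef
  have mZ := D.mZ
  have mY := D.mY
  have hmeas0 : Measurable (fun p : Q × Eu d => G0 p.1 p.2) := by
    have m1 : Measurable fun p : Q × Eu d => p.2 - Z p.1 :=
      measurable_snd.sub (mZ.comp measurable_fst)
    have m2 : Measurable fun p : Q × Eu d => p.2 - Y p.1 :=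
      measurable_snd.sub (mY.comp measurable_fst)
    have m3 : Measurable fun p : Q × Eu d => Z p.1 - Y p.1 :=
      (mZ.comp measurable_fst).sub (mY.comp measurable_fst)
    have m4 : Measurable fun p : Q × Eu d => (inner ℝ (p.2 - Z p.1) (Z p.1 - Y p.1) : ℝ) :=
      m1.inner m3
    have m5 : Measurable fun p : Q × Eu d => ga d ((1 - ε ^ 2) / d) (p.2 - Z p.1) :=
      (continuous_ga d _).measurable.comp m1
    refine (Complex.measurable_ofReal.comp m5).mul (Complex.measurable_exp.comp ?_)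
    refine (Complex.measurable_ofReal.comp (m4.const_mul _)).add ?_
    exact (Complex.measurable_ofReal.comp ((m2.norm.pow_const 2).const_mul _)).const_mul _
  have hmeas : Measurable (fun p : Q × Eu d => G p.1 p.2) :=
    (hk.comp measurable_fst).mul hmeas0
  have hn0 : ∀ q x, ‖G0 q x‖ = ga d ((1 - ε ^ 2) / d) (x - Z q) *
      Real.exp (a * Real.sqrt d * inner ℝ (x - Z q) (Z q - Y q)) := by
    intro q x
    rw [hG0]
    simp only [norm_mul, Complex.norm_real, Complex.norm_exp, Complex.add_re, Complex.mul_re,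
      Complex.ofReal_re, Complex.ofReal_im, Complex.I_re, Complex.I_im]
    have := ga_pos d ((1 - ε ^ 2) / d) (by positivity) (x - Z q)
    rw [Real.norm_of_nonneg this.le]
    congr 2
    ring
  have hnG : ∀ q x, ‖G q x‖ₑ ≤ ENNReal.ofReal (ga d ((1 - ε ^ 2) / d) (x - Z q) *
      Real.exp (a * Real.sqrt d * inner ℝ (x - Z q) (Z q - Y q))) := by
    intro q x
    rw [← ofReal_norm]
    apply ENNReal.ofReal_le_ofReal
    rw [← hn0 q x]
    show ‖k q * G0 q x‖ ≤ _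
    rw [norm_mul]
    exact mul_le_of_le_one_left (norm_nonneg _) (hk1 q)
  -- finiteness
  have hfin : ∫⁻ x, (∫⁻ q, ‖G q x‖ₑ ∂μ) ^ 2 ≠ ⊤ := by
    obtain ⟨M, hM, hM2⟩ := ga_sq_le d ((1 - ε ^ 2) / d) (by positivity)
    refine fin2 volume μ (fun q x => ‖G q x‖ₑ) hmeas.enorm
      (ENNReal.ofReal M * ENNReal.ofReal (C * Real.exp (2 * (2 * a) ^ 2 * ε ^ 2) *
        (Real.exp (-c * 0 ^ 2) + Real.exp (-c * d)))) (by finiteness) ?_
    intro q
    have h1 : ∀ x, ‖G q x‖ₑ ^ 2 ≤ ENNReal.ofReal M *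
        ENNReal.ofReal (Phi d ε (2 * a) 0 (Z q - Y q) (x - Z q)) := by
      intro x
      have hp := Phi_nonneg d hd1 ε (2 * a) 0 hε hε' (Z q - Y q) (x - Z q)
      have hg0 := ga_pos d ((1 - ε ^ 2) / d) (by positivity) (x - Z q)
      calc ‖G q x‖ₑ ^ 2 ≤ (ENNReal.ofReal (ga d ((1 - ε ^ 2) / d) (x - Z q) *
            Real.exp (a * Real.sqrt d * inner ℝ (x - Z q) (Z q - Y q)))) ^ 2 :=
            pow_le_pow_left' (hnG q x) 2
        _ = ENNReal.ofReal ((ga d ((1 - ε ^ 2) / d) (x - Z q) *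
            Real.exp (a * Real.sqrt d * inner ℝ (x - Z q) (Z q - Y q))) ^ 2) := by
            rw [ENNReal.ofReal_pow (by positivity)]
        _ ≤ ENNReal.ofReal (M * Phi d ε (2 * a) 0 (Z q - Y q) (x - Z q)) := by
            apply ENNReal.ofReal_le_ofReal
            unfold Phi
            rw [mul_pow, ← Real.exp_nat_mul]
            have e1 : ((2 : ℕ) : ℝ) * (a * Real.sqrt d * inner ℝ (x - Z q) (Z q - Y q)) =
              2 * a * Real.sqrt d * inner ℝ (x - Z q) (Z q - Y q) := by push_cast; ring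
            have e2 : (-((1 - ε ^ 2) / 4 * (0 : ℝ) ^ 2 * (max (‖x - Z q‖ - 2 * ε) 0) ^ 2)) = 0 := by
              ring
            have e3 : 2 * (1 - ε ^ 2) / (d : ℝ) = 2 * ((1 - ε ^ 2) / d) := by ring
            rw [e1, e2, Real.exp_zero, mul_one, ← mul_assoc, e3]
            exact mul_le_mul_of_nonneg_right (hM2 _) (Real.exp_pos _).le
        _ = _ := by rw [ENNReal.ofReal_mul hM]
    calc ∫⁻ x, ‖G q x‖ₑ ^ 2 ≤ ∫⁻ x, ENNReal.ofReal M *
          ENNReal.ofReal (Phi d ε (2 * a) 0 (Z q - Y q) (x - Z q)) := lintegral_mono h1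
      _ = ENNReal.ofReal M * ∫⁻ x, ENNReal.ofReal (Phi d ε (2 * a) 0 (Z q - Y q) (x - Z q)) := by
          rw [lintegral_const_mul' _ _ ENNReal.ofReal_ne_top]
      _ = ENNReal.ofReal M * ∫⁻ w, ENNReal.ofReal (Phi d ε (2 * a) 0 (Z q - Y q) w) := by
          rw [lintegral_sub_right_eq_self (μ := (volume : Measure (Eu d)))
            (fun w => ENNReal.ofReal (Phi d ε (2 * a) 0 (Z q - Y q) w)) (Z q)]
      _ ≤ _ := by
          gcongr
          exact hH (2 * a) 0 _ (D.close q)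
  -- the pair bound
  have hpair : ∀ q q', ‖∫ x, G q x * (starRingEnd ℂ) (G q' x)‖ₑ ≤
      ENNReal.ofReal (Real.exp (a ^ 2 * ε ^ 2) / 2) *
        (ENNReal.ofReal (Phi d ε a β (Z q - Y q) (Z q' - Z q)) +
          ENNReal.ofReal (Phi d ε a β (Z q' - Y q') (Z q - Z q'))) := by
    intro q q'
    have hp1 := Phi_nonneg d hd1 ε a β hε hε' (Z q - Y q) (Z q' - Z q)
    have hp2 := Phi_nonneg d hd1 ε a β hε hε' (Z q' - Y q') (Z q - Z q')
    rw [← ENNReal.ofReal_add hp1 hp2, ← ENNReal.ofReal_mul (by positivity), ← ofReal_norm]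
    apply ENNReal.ofReal_le_ofReal
    have e1 : ∫ x, G q x * (starRingEnd ℂ) (G q' x) =
        k q * (starRingEnd ℂ) (k q') * ∫ x, G0 q x * (starRingEnd ℂ) (G0 q' x) := by
      rw [← integral_const_mul]
      congr 1
      funext x
      show k q * G0 q x * (starRingEnd ℂ) (k q' * G0 q' x) = _
      rw [map_mul]; ring
    rw [e1, norm_mul, norm_mul, RCLike.norm_conj]
    have h1 : ‖k q‖ * ‖k q'‖ ≤ 1 := by
      have := hk1 q; have := hk1 q'
      nlinarith [norm_nonneg (k q), norm_nonneg (k q')]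
    refine (mul_le_of_le_one_left (norm_nonneg _) h1).trans ?_
    refine (pair_bound d hd1 (1 - ε ^ 2) a β hs (Y q) (Z q) (Y q') (Z q')).trans ?_
    refine (key d hd1 ε a β hε hε' (Y q) (Z q) (Y q') (Z q') (D.close q) (D.close q')).trans ?_
    apply le_of_eq; ring
  set K := ENNReal.ofReal (C * Real.exp (2 * a ^ 2 * ε ^ 2) * (Real.exp (-c * β ^ 2) + Real.exp (-c * d)))
    with hK
  have hhalf := half d hd ε hε hε' lam Q μ Y Z D a β K (hH a β)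
  have hT2 : ∫⁻ q, ∫⁻ q', ENNReal.ofReal (Phi d ε a β (Z q' - Y q') (Z q - Z q')) ∂μ ∂μ ≤
      K * lam * μ univ := by
    rw [lintegral_lintegral_swap]
    · exact hhalf
    · apply Measurable.aemeasurable
      exact measurable_Phi d ε a β (Q := Q × Q) (fun p => Z p.2 - Y p.2) (fun p => Z p.1 - Z p.2)
        ((mZ.comp measurable_snd).sub (mY.comp measurable_snd))
        ((mZ.comp measurable_fst).sub (mZ.comp measurable_snd))
  calc ∫⁻ x, ‖∫ q, G q x ∂μ‖ₑ ^ 2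
      ≤ ∫⁻ q, ∫⁻ q', ‖∫ x, G q x * (starRingEnd ℂ) (G q' x)‖ₑ ∂μ ∂μ :=
        open_square volume μ G hmeas hfin
    _ ≤ ∫⁻ q, ∫⁻ q', ENNReal.ofReal (Real.exp (a ^ 2 * ε ^ 2) / 2) *
        (ENNReal.ofReal (Phi d ε a β (Z q - Y q) (Z q' - Z q)) +
          ENNReal.ofReal (Phi d ε a β (Z q' - Y q') (Z q - Z q'))) ∂μ ∂μ :=
        lintegral_mono fun q => lintegral_mono fun q' => hpair q q'
    _ = ENNReal.ofReal (Real.exp (a ^ 2 * ε ^ 2) / 2) *
        (∫⁻ q, ∫⁻ q', ENNReal.ofReal (Phi d ε a β (Z q - Y q) (Z q' - Z q)) ∂μ ∂μ +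
        ∫⁻ q, ∫⁻ q', ENNReal.ofReal (Phi d ε a β (Z q' - Y q') (Z q - Z q')) ∂μ ∂μ) := by
        have mm1 : Measurable fun p : Q × Q =>
            ENNReal.ofReal (Phi d ε a β (Z p.1 - Y p.1) (Z p.2 - Z p.1)) :=
          measurable_Phi d ε a β (Q := Q × Q) (fun p => Z p.1 - Y p.1) (fun p => Z p.2 - Z p.1)
            ((mZ.comp measurable_fst).sub (mY.comp measurable_fst))
            ((mZ.comp measurable_snd).sub (mZ.comp measurable_fst))
        exact sum_lem μ (fun q q' => ENNReal.ofReal (Phi d ε a β (Z q - Y q) (Z q' - Z q)))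
          (fun q q' => ENNReal.ofReal (Phi d ε a β (Z q' - Y q') (Z q - Z q'))) mm1 _
          ENNReal.ofReal_ne_top
    _ ≤ ENNReal.ofReal (Real.exp (a ^ 2 * ε ^ 2) / 2) * (K * lam * μ univ + K * lam * μ univ) := by
        gcongr
    _ = ENNReal.ofReal (Real.exp (a ^ 2 * ε ^ 2)) * K * lam * μ univ := by
        have e1 : ENNReal.ofReal (Real.exp (a ^ 2 * ε ^ 2)) =
          ENNReal.ofReal (Real.exp (a ^ 2 * ε ^ 2) / 2) * 2 := by
          rw [show (2 : ENNReal) = ENNReal.ofReal 2 by simp, ← ENNReal.ofReal_mul (by positivity)]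
          congr 1; ring
        rw [e1]; ring
    _ ≤ _ := by
        gcongr
        rw [hK, ← ENNReal.ofReal_mul (by positivity)]
        apply ENNReal.ofReal_le_ofReal
        have e2 : Real.exp (a ^ 2 * ε ^ 2) * Real.exp (2 * a ^ 2 * ε ^ 2) ≤
            Real.exp (4 * a ^ 2 * ε ^ 2) := by
          rw [← Real.exp_add]
          apply Real.exp_le_exp.2
          nlinarith [mul_nonneg (sq_nonneg a) (sq_nonneg ε)]
        have e3 : 0 ≤ Real.exp (-c * β ^ 2) + Real.exp (-c * d) := by positivity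
        calc Real.exp (a ^ 2 * ε ^ 2) * (C * Real.exp (2 * a ^ 2 * ε ^ 2) *
              (Real.exp (-c * β ^ 2) + Real.exp (-c * d)))
            = C * (Real.exp (a ^ 2 * ε ^ 2) * Real.exp (2 * a ^ 2 * ε ^ 2)) *
              (Real.exp (-c * β ^ 2) + Real.exp (-c * d)) := by ring
          _ ≤ _ := by gcongr

end JL1

alias L1_bound := JL1.L1_bound

end Pool.Agent.Helper160.MF
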