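import Pool.Agent.Helper160.MF.Defs2

set_option autoImplicit false
open MeasureTheory Set Metric

namespace Pool.Agent.Helper160.MF


namespace JL2cs

/-- weighted Cauchy-Schwarz in `q`, then Tonelli -/
theorem cs_avg {X Q : Type} [MeasurableSpace X] [MeasurableSpace Q] (ν : Measure X) [SFinite ν]
    (μ : Measure Q) [SFinite μ] (g φ : Q → X → ENNReal) (hg : Measurable (fun p : Q × X => g p.1 p.2))
    (hφ : Measurable (fun p : Q × X => φ p.1 p.2)) (lam : ENNReal)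
    (hl : ∀ x, ∫⁻ q, g q x ∂μ ≤ lam) :
    ∫⁻ x, (∫⁻ q, g q x * φ q x ∂μ) ^ 2 ∂ν ≤ lam * ∫⁻ q, ∫⁻ x, g q x * φ q x ^ 2 ∂ν ∂μ := by
  have hgx : ∀ x, Measurable fun q => g q x := fun x => hg.comp (measurable_id.prodMk measurable_const)
  have hφx : ∀ x, Measurable fun q => φ q x := fun x => hφ.comp (measurable_id.prodMk measurable_const)
  have h1 : ∀ x, (∫⁻ q, g q x * φ q x ∂μ) ^ 2 ≤ (∫⁻ q, g q x ∂μ) * ∫⁻ q, g q x * φ q x ^ 2 ∂μ := by
    intro x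
    have hcs := ENNReal.lintegral_mul_le_Lp_mul_Lq μ (p := 2) (q := 2) Real.HolderConjugate.two_two
      (f := fun q => g q x ^ (1 / 2 : ℝ)) (g := fun q => g q x ^ (1 / 2 : ℝ) * φ q x)
      ((hgx x).pow_const _).aemeasurable (((hgx x).pow_const _).mul (hφx x)).aemeasurable
    have e0 : ∀ q, g q x ^ (1 / 2 : ℝ) * g q x ^ (1 / 2 : ℝ) = g q x := by
      intro q
      rw [← ENNReal.rpow_add_of_nonneg _ _ (by norm_num) (by norm_num)]
      norm_num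
    have e1 : ∀ q, ((fun q => g q x ^ (1 / 2 : ℝ)) * fun q => g q x ^ (1 / 2 : ℝ) * φ q x) q = g q x * φ q x := by
      intro q
      simp only [Pi.mul_apply]
      rw [← mul_assoc, e0]
    have e2 : ∀ q, (g q x ^ (1 / 2 : ℝ)) ^ (2 : ℝ) = g q x := by
      intro q
      rw [← ENNReal.rpow_mul]
      norm_num
    have e3 : ∀ q, (g q x ^ (1 / 2 : ℝ) * φ q x) ^ (2 : ℝ) = g q x * φ q x ^ 2 := by
      intro q
      rw [ENNReal.mul_rpow_of_nonneg _ _ (by norm_num), e2]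
      norm_cast
    simp_rw [e1, e2, e3] at hcs
    calc (∫⁻ q, g q x * φ q x ∂μ) ^ 2
        ≤ ((∫⁻ q, g q x ∂μ) ^ (1 / 2 : ℝ) * (∫⁻ q, g q x * φ q x ^ 2 ∂μ) ^ (1 / 2 : ℝ)) ^ 2 := by
          gcongr
      _ = (∫⁻ q, g q x ∂μ) * ∫⁻ q, g q x * φ q x ^ 2 ∂μ := by
          rw [mul_pow, ← ENNReal.rpow_natCast, ← ENNReal.rpow_natCast, ← ENNReal.rpow_mul, ← ENNReal.rpow_mul]
          norm_num
  have hm : Measurable fun p : X × Q => g p.2 p.1 * φ p.2 p.1 ^ 2 :=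
    (hg.comp measurable_swap).mul ((hφ.comp measurable_swap).pow_const 2)
  calc ∫⁻ x, (∫⁻ q, g q x * φ q x ∂μ) ^ 2 ∂ν
      ≤ ∫⁻ x, lam * ∫⁻ q, g q x * φ q x ^ 2 ∂μ ∂ν := by
        refine lintegral_mono fun x => (h1 x).trans ?_
        gcongr
        exact hl x
    _ = lam * ∫⁻ x, ∫⁻ q, g q x * φ q x ^ 2 ∂μ ∂ν := by
        rw [lintegral_const_mul]
        exact hm.lintegral_prod_right'
    _ = lam * ∫⁻ q, ∫⁻ x, g q x * φ q x ^ 2 ∂ν ∂μ := by
        rw [lintegral_lintegral_swap]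
        exact hm.aemeasurable

end JL2cs

alias cs_avg := JL2cs.cs_avg

end Pool.Agent.Helper160.MF
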