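import Pool.Agent.Helper160.MF.Defs2
import Pool.Agent.Helper160.MF.Jga

set_option autoImplicit false
open MeasureTheory Set Metric

namespace Pool.Agent.Helper160.MF


namespace JL2int

theorem integrable_F (d : ℕ) (t : ℝ) (ht : 0 < t) (c : ℂ) (v : Eu d) :
    Integrable (fun x : Eu d => (ga d t x : ℂ) * Complex.exp (c * (inner ℝ x v : ℝ))) := by
  by_contra hcon
  have h1 := integral_ga_cexp d t ht c v
  rw [integral_undef hcon] at h1
  exact Complex.exp_ne_zero _ h1.symm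

theorem one_sub_cos_le (q : ℝ) : 1 - Real.cos q ≤ |q| := by
  have h1 : Real.cos q = 1 - 2 * Real.sin (q / 2) ^ 2 := by
    have h2 := Real.cos_two_mul (q / 2)
    have h3 := Real.sin_sq_add_cos_sq (q / 2)
    have h4 : 2 * (q / 2) = q := by ring
    rw [h4] at h2
    rw [h2]
    linarith
  have h5 : |Real.sin (q / 2)| ≤ |q / 2| := Real.abs_sin_le_abs
  have h6 : |Real.sin (q / 2)| ≤ 1 := Real.abs_sin_le_one _
  have h7 : Real.sin (q / 2) ^ 2 = |Real.sin (q / 2)| * |Real.sin (q / 2)| := by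
    rw [← sq, sq_abs]
  have h8 : |q / 2| = |q| / 2 := by rw [abs_div]; norm_num
  have h9 := abs_nonneg (Real.sin (q / 2))
  rw [h1, h7]
  nlinarith

theorem re_aux (x y : ℝ) :
    (Complex.exp ((x : ℂ) + (y : ℂ) * Complex.I)).re = Real.exp x * Real.cos y := by
  rw [Complex.exp_re]
  simp

/-- the elementary inequality -/
theorem elem (a β σ ε : ℝ) (hσ : 0 ≤ σ) (hσε : σ ≤ ε ^ 2) :
    Real.exp (2 * a ^ 2 * σ) - 2 * (Real.exp ((a ^ 2 - β ^ 2) * σ / 2) * Real.cos (a * β * σ)) + 1 ≤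
      8 * (a ^ 2 + β ^ 2) * ε ^ 2 * Real.exp (2 * a ^ 2 * ε ^ 2) := by
  set p : ℝ := (a ^ 2 - β ^ 2) * σ / 2 with hp
  set q : ℝ := a * β * σ with hq
  set E : ℝ := Real.exp (2 * a ^ 2 * σ) with hE
  have hE1 : 1 ≤ E := Real.one_le_exp (by positivity)
  -- e^x - 1 ≤ x e^x
  have h1 : E - 1 ≤ 2 * a ^ 2 * σ * E := by
    have h2 := Real.add_one_le_exp (-(2 * a ^ 2 * σ))
    have h3 : Real.exp (-(2 * a ^ 2 * σ)) * E = 1 := by
      rw [hE, ← Real.exp_add]; simp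
    have h4 : (-(2 * a ^ 2 * σ) + 1) * E ≤ Real.exp (-(2 * a ^ 2 * σ)) * E :=
      mul_le_mul_of_nonneg_right h2 (by linarith)
    rw [h3] at h4
    linarith
  have h5 : 1 - Real.exp p ≤ β ^ 2 * σ / 2 := by
    have h6 := Real.add_one_le_exp p
    have h7 : 0 ≤ a ^ 2 * σ := by positivity
    have h8 : p = a ^ 2 * σ / 2 - β ^ 2 * σ / 2 := by rw [hp]; ring
    linarith
  have h9 : Real.exp p ≤ E := by
    apply Real.exp_le_exp.2
    have h7 : 0 ≤ a ^ 2 * σ := by positivity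
    have h7' : 0 ≤ β ^ 2 * σ := by positivity
    rw [hp]
    linarith
  have h10 : |q| ≤ (a ^ 2 + β ^ 2) * σ / 2 := by
    rw [hq, abs_mul, abs_of_nonneg hσ, abs_mul]
    have h11 : |a| * |β| ≤ (a ^ 2 + β ^ 2) / 2 := by
      have := two_mul_le_add_sq |a| |β|
      rw [sq_abs, sq_abs] at this
      linarith
    have h12 := mul_le_mul_of_nonneg_right h11 hσ
    linarith
  have h13 := one_sub_cos_le q
  have h14 : Real.exp p * (1 - Real.cos q) ≤ E * ((a ^ 2 + β ^ 2) * σ / 2) := by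
    have h15 : 0 ≤ 1 - Real.cos q := by linarith [Real.cos_le_one q]
    exact mul_le_mul h9 (h13.trans h10) h15 (by linarith)
  have h16 : E - 2 * (Real.exp p * Real.cos q) + 1 ≤ 3 * (a ^ 2 + β ^ 2) * σ * E := by
    have e1 : E - 2 * (Real.exp p * Real.cos q) + 1
        = (E - 1) + 2 * (1 - Real.exp p) + 2 * (Real.exp p * (1 - Real.cos q)) := by ring
    rw [e1]
    have h17 : β ^ 2 * σ ≤ β ^ 2 * σ * E := le_mul_of_one_le_right (by positivity) hE1
    have h18 : 0 ≤ β ^ 2 * σ * E := by positivity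
    nlinarith
  refine h16.trans ?_
  have hEE : E ≤ Real.exp (2 * a ^ 2 * ε ^ 2) := by
    apply Real.exp_le_exp.2
    exact mul_le_mul_of_nonneg_left hσε (by positivity)
  have h19 : σ * E ≤ ε ^ 2 * Real.exp (2 * a ^ 2 * ε ^ 2) :=
    mul_le_mul hσε hEE (by linarith) (by positivity)
  have h20 : 0 ≤ ε ^ 2 * Real.exp (2 * a ^ 2 * ε ^ 2) := by positivity
  have h21 : 0 ≤ a ^ 2 + β ^ 2 := by positivity
  calc 3 * (a ^ 2 + β ^ 2) * σ * E = 3 * (a ^ 2 + β ^ 2) * (σ * E) := by ring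
    _ ≤ 3 * (a ^ 2 + β ^ 2) * (ε ^ 2 * Real.exp (2 * a ^ 2 * ε ^ 2)) :=
        mul_le_mul_of_nonneg_left h19 (by positivity)
    _ ≤ 8 * (a ^ 2 + β ^ 2) * (ε ^ 2 * Real.exp (2 * a ^ 2 * ε ^ 2)) := by
        apply mul_le_mul_of_nonneg_right _ h20
        linarith
    _ = 8 * (a ^ 2 + β ^ 2) * ε ^ 2 * Real.exp (2 * a ^ 2 * ε ^ 2) := by ring

theorem L2_int (d : ℕ) (hd : 1 ≤ d) (s ε : ℝ) (hs : 0 < s) (hs1 : s ≤ 1) (v : Eu d) (hv : ‖v‖ ≤ ε) (a β : ℝ) :
    ∫⁻ w : Eu d, ENNReal.ofReal (ga d (s / d) w) *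
      ‖Complex.exp (((a : ℂ) + Complex.I * β) * (Real.sqrt d * inner ℝ w v : ℝ)) - 1‖ₑ ^ 2 ≤
      ENNReal.ofReal (8 * (a ^ 2 + β ^ 2) * ε ^ 2 * Real.exp (2 * a ^ 2 * ε ^ 2)) := by
  have hd0 : (0 : ℝ) < d := by exact_mod_cast hd
  set t : ℝ := s / d with ht
  have ht0 : 0 < t := by positivity
  set r : ℝ := Real.sqrt d with hr
  have hr2 : r ^ 2 = d := Real.sq_sqrt hd0.le
  have htr : r ^ 2 * t = s := by rw [hr2, ht]; field_simp
  set σ : ℝ := s * ‖v‖ ^ 2 with hσ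
  have hσ0 : 0 ≤ σ := by positivity
  have hσε : σ ≤ ε ^ 2 := by
    have h1 : ‖v‖ ^ 2 ≤ ε ^ 2 := pow_le_pow_left₀ (norm_nonneg v) hv 2
    have h2 : s * ‖v‖ ^ 2 ≤ 1 * ‖v‖ ^ 2 := mul_le_mul_of_nonneg_right hs1 (by positivity)
    linarith
  set F : ℂ → Eu d → ℂ := fun c x => (ga d t x : ℂ) * Complex.exp (c * (inner ℝ x v : ℝ)) with hF
  have hint : ∀ c, Integrable (F c) := fun c => integrable_F d t ht0 c v
  have hval : ∀ c, ∫ x, F c x = Complex.exp (c ^ 2 * t * ‖v‖ ^ 2 / 2) := fun c =>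
    integral_ga_cexp d t ht0 c v
  set z : ℂ := (a : ℂ) + Complex.I * β with hz
  have hG : ∀ w : Eu d, ga d t w * ‖Complex.exp (z * (r * inner ℝ w v : ℝ)) - 1‖ ^ 2
      = (F (2 * a * r) w).re - 2 * (F (z * r) w).re + (F 0 w).re := by
    intro w
    set x : ℝ := inner ℝ w v with hx
    have e1 : (F (2 * a * r) w).re = ga d t w * Real.exp (2 * (a * (r * x))) := by
      simp only [hF]
      rw [Complex.re_ofReal_mul, ← Complex.exp_ofReal_re (2 * (a * (r * x)))]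
      congr 3
      push_cast
      ring
    have e2 : (F (z * r) w).re = ga d t w * (Complex.exp (z * (r * x : ℝ))).re := by
      simp only [hF]
      rw [Complex.re_ofReal_mul]
      congr 3
      push_cast
      ring
    have e3 : (F 0 w).re = ga d t w := by
      simp [hF]
    rw [e1, e2, e3]
    set E : ℂ := Complex.exp (z * (r * x : ℝ)) with hE
    have hnE : E.re ^ 2 + E.im ^ 2 = Real.exp (2 * (a * (r * x))) := by
      have h1 : ‖E‖ = Real.exp (a * (r * x)) := by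
        rw [hE, Complex.norm_exp]
        congr 1
        simp [hz]
      have h2 : ‖E‖ ^ 2 = E.re ^ 2 + E.im ^ 2 := by
        rw [Complex.sq_norm, Complex.normSq_apply]; ring
      rw [← h2, h1, ← Real.exp_nat_mul]
      push_cast
      ring_nf
    have h3 : ‖E - 1‖ ^ 2 = E.re ^ 2 + E.im ^ 2 - 2 * E.re + 1 := by
      rw [Complex.sq_norm, Complex.normSq_apply]
      simp only [Complex.sub_re, Complex.one_re, Complex.sub_im, Complex.one_im]
      ring
    rw [h3, hnE]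
    ring
  have hGint : Integrable fun w : Eu d =>
      ga d t w * ‖Complex.exp (z * (r * inner ℝ w v : ℝ)) - 1‖ ^ 2 := by
    simp only [hG]
    exact (((hint _).re).sub ((hint _).re.const_mul 2)).add (hint _).re
  have hGval : ∫ w : Eu d, ga d t w * ‖Complex.exp (z * (r * inner ℝ w v : ℝ)) - 1‖ ^ 2
      = Real.exp (2 * a ^ 2 * σ)
        - 2 * (Real.exp ((a ^ 2 - β ^ 2) * σ / 2) * Real.cos (a * β * σ)) + 1 := by
    have hre : ∀ c, ∫ w : Eu d, (F c w).re = (Complex.exp (c ^ 2 * t * ‖v‖ ^ 2 / 2)).re := by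
      intro c
      rw [← hval c]
      exact integral_re (hint c)
    have hi : ∀ c, Integrable fun w => (F c w).re := fun c => (hint c).re
    simp only [hG]
    have i1 : Integrable fun w => 2 * (F (z * r) w).re := (hi _).const_mul 2
    have i2 : Integrable fun w => (F (2 * a * r) w).re - 2 * (F (z * r) w).re := (hi _).sub i1
    rw [integral_add i2 (hi 0), integral_sub (hi _) i1, integral_const_mul, hre, hre, hre]
    have c1 : ((2 * a * r : ℂ) ^ 2 * t * ‖v‖ ^ 2 / 2) = ((2 * a ^ 2 * σ : ℝ) : ℂ) := by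
      have : (2 * a * r) ^ 2 * t * ‖v‖ ^ 2 / 2 = 2 * a ^ 2 * σ := by
        rw [hσ, ← htr]; ring
      rw [← this]
      push_cast
      ring
    have c2 : ((z * r) ^ 2 * t * ‖v‖ ^ 2 / 2)
        = (((a ^ 2 - β ^ 2) * σ / 2 : ℝ) : ℂ) + ((a * β * σ : ℝ) : ℂ) * Complex.I := by
      have h1 : (z * r) ^ 2 * t * ‖v‖ ^ 2 / 2 = z ^ 2 * ((r ^ 2 * t * ‖v‖ ^ 2 : ℝ) : ℂ) / 2 := by
        push_cast
        ring
      rw [h1, htr, ← hσ, hz]
      have h2 : ((a : ℂ) + Complex.I * β) ^ 2 = (a : ℂ) ^ 2 - (β : ℂ) ^ 2 + 2 * a * β * Complex.I := by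
        linear_combination ((β : ℂ) ^ 2) * Complex.I_sq
      rw [h2]
      push_cast
      ring
    rw [c1, c2, Complex.exp_ofReal_re, re_aux]
    simp
  have hgp : ∀ w, 0 ≤ ga d t w := fun w => (ga_pos d t ht0 w).le
  have hL : ∫⁻ w : Eu d, ENNReal.ofReal (ga d t w) *
      ‖Complex.exp (z * (r * inner ℝ w v : ℝ)) - 1‖ₑ ^ 2
      = ENNReal.ofReal (∫ w : Eu d, ga d t w * ‖Complex.exp (z * (r * inner ℝ w v : ℝ)) - 1‖ ^ 2) := by
    rw [ofReal_integral_eq_lintegral_ofReal hGint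
      (Filter.Eventually.of_forall fun w => mul_nonneg (hgp w) (by positivity))]
    refine lintegral_congr fun w => ?_
    rw [ENNReal.ofReal_mul (hgp w), ENNReal.ofReal_pow (norm_nonneg _), ofReal_norm]
  rw [hL, hGval]
  exact ENNReal.ofReal_le_ofReal (elem a β σ ε hσ0 hσε)

end JL2int

alias L2_int := JL2int.L2_int

end Pool.Agent.Helper160.MF
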