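import Pool.Agent.Helper160.MF.Defs2
import Pool.Agent.Helper160.MF.Jga
import Pool.Agent.Helper160.MF.JL2int
import Pool.Agent.Helper160.MF.JL2cs

set_option autoImplicit false
open MeasureTheory Set Metric

namespace Pool.Agent.Helper160.MF


namespace JL2

theorem ga_symm (d : ℕ) (t : ℝ) (x z : Eu d) : ga d t (x - z) = ga d t (z - x) := by
  unfold ga
  rw [norm_sub_rev]

theorem int_q {d : ℕ} {ε t : ℝ} (ht : 0 < t) {lam : ENNReal} {Q : Type} [MeasurableSpace Q]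
    {μ : Measure Q} {Y Z : Q → Eu d} (h : Dat d ε lam μ Y Z) (x : Eu d) :
    ∫⁻ q, ENNReal.ofReal (ga d t (x - Z q)) ∂μ ≤ lam := by
  have h1 := h.marg (fun z => ENNReal.ofReal (ga d t (x - z)))
    (ENNReal.measurable_ofReal.comp ((continuous_ga d t).measurable.comp
      (measurable_const.sub measurable_id)))
  have h2 : ∫⁻ z, ENNReal.ofReal (ga d t (x - z)) = 1 := by
    rw [← lintegral_ga d t ht x]
    exact lintegral_congr (fun z => by rw [ga_symm])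
  calc _ ≤ _ := h1
    _ = lam := by rw [h2, mul_one]

theorem nrm {d : ℕ} {t : ℝ} (ht : 0 < t) (w : Eu d) (k : ℂ) (hk : ‖k‖ ≤ 1) (θ : ℝ) (E : ℂ) :
    ‖k * ((ga d t w : ℂ) * Complex.exp (Complex.I * (θ : ℂ)) * E)‖ₑ ≤
      ENNReal.ofReal (ga d t w) * ‖E‖ₑ := by
  rw [enorm_mul, enorm_mul, enorm_mul]
  have h1 : ‖k‖ₑ ≤ 1 := by
    rw [← ofReal_norm]
    exact ENNReal.ofReal_le_one.2 hk
  have h2 : ‖Complex.exp (Complex.I * (θ : ℂ))‖ₑ = 1 := by
    rw [← ofReal_norm, mul_comm, Complex.norm_exp_ofReal_mul_I, ENNReal.ofReal_one]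
  have h3 : ‖(ga d t w : ℂ)‖ₑ = ENNReal.ofReal (ga d t w) := by
    rw [← ofReal_norm, Complex.norm_real, Real.norm_of_nonneg (ga_pos d t ht w).le]
  rw [h2, h3, mul_one]
  calc _ ≤ 1 * (ENNReal.ofReal (ga d t w) * ‖E‖ₑ) := by gcongr
    _ = _ := one_mul _

/-- second L2 bound: smallness in `ε` -/
theorem L2_bound : ∃ C : ℝ, 0 < C ∧ ∀ d : ℕ, 16 ≤ d → ∀ ε : ℝ, 0 < ε → ε ≤ 1 / 64 →
    ∀ (lam : ENNReal), lam ≠ ⊤ → ∀ (Q : Type) [MeasurableSpace Q] (μ : Measure Q) (Y Z : Q → Eu d),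
    Dat d ε lam μ Y Z → ∀ (k : Q → ℂ), Measurable k → (∀ q, ‖k q‖ ≤ 1) → ∀ a β : ℝ,
    ∫⁻ x : Eu d, ‖∫ q, k q * ((ga d ((1 - ε ^ 2) / d) (x - Z q) : ℂ) *
        Complex.exp (Complex.I * ((β * (Real.sqrt d / 2) * ‖x - Z q‖ ^ 2 : ℝ) : ℂ)) *
        (Complex.exp (((a : ℂ) + Complex.I * β) * (Real.sqrt d * inner ℝ (x - Z q) (Z q - Y q) : ℝ)) - 1)) ∂μ‖ₑ ^ 2 ≤
      ENNReal.ofReal (C * (a ^ 2 + β ^ 2) * ε ^ 2 * Real.exp (4 * a ^ 2 * ε ^ 2)) *
        lam * μ univ := by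
  refine ⟨8, by norm_num, ?_⟩
  intro d hd ε hε hε1 lam hlam Q _ μ Y Z h k hk hk1 a β
  have hfin : IsFiniteMeasure μ := h.fin
  have hmY := h.mY
  have hmZ := h.mZ
  have hd0 : (0 : ℝ) < d := by
    have : (16 : ℝ) ≤ d := by exact_mod_cast hd
    linarith
  have hs : 0 < 1 - ε ^ 2 := by nlinarith
  have hs1 : 1 - ε ^ 2 ≤ 1 := by nlinarith [sq_nonneg ε]
  have ht : 0 < (1 - ε ^ 2) / d := div_pos hs hd0
  set t : ℝ := (1 - ε ^ 2) / d with htdef
  have hmg : Measurable (fun p : Q × Eu d => ENNReal.ofReal (ga d t (p.2 - Z p.1))) :=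
    ENNReal.measurable_ofReal.comp ((continuous_ga d t).measurable.comp
      (measurable_snd.sub (hmZ.comp measurable_fst)))
  have hmi : Measurable (fun p : Q × Eu d => (inner ℝ (p.2 - Z p.1) (Z p.1 - Y p.1) : ℝ)) :=
    Measurable.inner (measurable_snd.sub (hmZ.comp measurable_fst))
      ((hmZ.comp measurable_fst).sub (hmY.comp measurable_fst))
  have hmφ : Measurable (fun p : Q × Eu d => ‖Complex.exp (((a : ℂ) + Complex.I * β) *
      (Real.sqrt d * inner ℝ (p.2 - Z p.1) (Z p.1 - Y p.1) : ℝ)) - 1‖ₑ) := by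
    refine Measurable.enorm (Measurable.sub ?_ measurable_const)
    refine Complex.measurable_exp.comp (measurable_const.mul ?_)
    exact Complex.measurable_ofReal.comp (measurable_const.mul hmi)
  calc _ ≤ ∫⁻ x : Eu d, (∫⁻ q, ENNReal.ofReal (ga d t (x - Z q)) *
        ‖Complex.exp (((a : ℂ) + Complex.I * β) *
          (Real.sqrt d * inner ℝ (x - Z q) (Z q - Y q) : ℝ)) - 1‖ₑ ∂μ) ^ 2 := by
        refine lintegral_mono (fun x => ?_)
        refine pow_le_pow_left' ?_ 2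
        refine le_trans (enorm_integral_le_lintegral_enorm _) (lintegral_mono (fun q => ?_))
        exact nrm ht (x - Z q) (k q) (hk1 q) _ _
    _ ≤ lam * ∫⁻ q, ∫⁻ x, ENNReal.ofReal (ga d t (x - Z q)) *
        ‖Complex.exp (((a : ℂ) + Complex.I * β) *
          (Real.sqrt d * inner ℝ (x - Z q) (Z q - Y q) : ℝ)) - 1‖ₑ ^ 2 ∂volume ∂μ :=
        cs_avg volume μ (fun q x => ENNReal.ofReal (ga d t (x - Z q)))
          (fun q x => ‖Complex.exp (((a : ℂ) + Complex.I * β) *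
            (Real.sqrt d * inner ℝ (x - Z q) (Z q - Y q) : ℝ)) - 1‖ₑ) hmg hmφ lam
          (fun x => int_q ht h x)
    _ ≤ lam * ∫⁻ q, ENNReal.ofReal (8 * (a ^ 2 + β ^ 2) * ε ^ 2 * Real.exp (4 * a ^ 2 * ε ^ 2)) ∂μ := by
        refine mul_le_mul_right (lintegral_mono (fun q => ?_)) _
        have e1 : ∫⁻ x, ENNReal.ofReal (ga d t (x - Z q)) *
            ‖Complex.exp (((a : ℂ) + Complex.I * β) *
              (Real.sqrt d * inner ℝ (x - Z q) (Z q - Y q) : ℝ)) - 1‖ₑ ^ 2 =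
            ∫⁻ w, ENNReal.ofReal (ga d t w) *
            ‖Complex.exp (((a : ℂ) + Complex.I * β) *
              (Real.sqrt d * inner ℝ w (Z q - Y q) : ℝ)) - 1‖ₑ ^ 2 :=
          lintegral_sub_right_eq_self (fun w : Eu d => ENNReal.ofReal (ga d t w) *
            ‖Complex.exp (((a : ℂ) + Complex.I * β) *
              (Real.sqrt d * inner ℝ w (Z q - Y q) : ℝ)) - 1‖ₑ ^ 2) (Z q)
        show (∫⁻ x, ENNReal.ofReal (ga d t (x - Z q)) *
            ‖Complex.exp (((a : ℂ) + Complex.I * β) *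
              (Real.sqrt d * inner ℝ (x - Z q) (Z q - Y q) : ℝ)) - 1‖ₑ ^ 2) ≤ _
        rw [e1]
        refine le_trans (L2_int d (by omega) (1 - ε ^ 2) ε hs hs1 (Z q - Y q) (h.close q) a β) ?_
        refine ENNReal.ofReal_le_ofReal ?_
        have h4 : 2 * a ^ 2 * ε ^ 2 ≤ 4 * a ^ 2 * ε ^ 2 := by
          nlinarith [mul_nonneg (sq_nonneg a) (sq_nonneg ε)]
        have h5 := Real.exp_le_exp.2 h4
        have h6 : 0 ≤ 8 * (a ^ 2 + β ^ 2) * ε ^ 2 := by positivity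
        exact mul_le_mul_of_nonneg_left h5 h6
    _ = _ := by
        rw [lintegral_const]
        ring

end JL2

alias L2_bound := JL2.L2_bound

end Pool.Agent.Helper160.MF
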