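import Pool.Agent.Helper160.MF.Defs2
import Pool.Agent.Helper160.MF.Jga
import Pool.Agent.Helper160.MF.JL1
import Pool.Agent.Helper160.MF.JL2

set_option autoImplicit false
open MeasureTheory Set Metric

namespace Pool.Agent.Helper160.MF


namespace JB

theorem inner_expand {d : ℕ} (x y z : Eu d) :
    ‖x - y‖ ^ 2 = ‖x - z‖ ^ 2 + 2 * inner ℝ (x - z) (z - y) + ‖z - y‖ ^ 2 := by
  have : x - y = (x - z) + (z - y) := by abel
  rw [this, norm_add_sq_real]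

/-- integrand of `Hf` -/
noncomputable def fH (d : ℕ) (ε a β : ℝ) (x y z : Eu d) : ℂ :=
  (ga d ((1 - ε ^ 2) / d) (x - z) : ℂ) *
    Complex.exp ((a * Real.sqrt d * inner ℝ (x - z) (z - y) : ℝ)
      + Complex.I * ((β * (Real.sqrt d / 2) * (‖x - y‖ ^ 2 - 1) : ℝ) : ℂ))

/-- integrand of `H0f` -/
noncomputable def fH0 (d : ℕ) (ε β : ℝ) (x y z : Eu d) : ℂ :=
  Complex.exp (Complex.I * ((β * (Real.sqrt d / 2) * (‖z - y‖ ^ 2 - ε ^ 2) : ℝ) : ℂ)) *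
    ((ga d ((1 - ε ^ 2) / d) (x - z) : ℂ) *
      Complex.exp (Complex.I * ((β * (Real.sqrt d / 2) * (‖x - z‖ ^ 2 - (1 - ε ^ 2)) : ℝ) : ℂ)))

/-- the multiplier -/
noncomputable def k0 (d : ℕ) (β : ℝ) (y z : Eu d) : ℂ :=
  Complex.exp (Complex.I * ((β * (Real.sqrt d / 2) * (‖z - y‖ ^ 2 - 1) : ℝ) : ℂ))

theorem norm_k0 (d : ℕ) (β : ℝ) (y z : Eu d) : ‖k0 d β y z‖ = 1 := by
  unfold k0
  rw [mul_comm]
  exact Complex.norm_exp_ofReal_mul_I _

theorem fH_eq1 (d : ℕ) (ε a β : ℝ) (x y z : Eu d) : fH d ε a β x y z =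
    Complex.exp (Complex.I * ((-(β * (Real.sqrt d / 2)) : ℝ) : ℂ)) *
    ((ga d ((1 - ε ^ 2) / d) (x - z) : ℂ) *
        Complex.exp ((a * Real.sqrt d * inner ℝ (x - z) (z - y) : ℝ)
        + Complex.I * ((β * (Real.sqrt d / 2) * ‖x - y‖ ^ 2 : ℝ) : ℂ))) := by
  unfold fH
  rw [mul_left_comm, ← Complex.exp_add]
  congr 2
  push_cast
  ring

theorem fH0_eq1 (d : ℕ) (ε β : ℝ) (x y z : Eu d) : fH0 d ε β x y z =
    k0 d β y z * ((ga d ((1 - ε ^ 2) / d) (x - z) : ℂ) *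
        Complex.exp (((0 : ℝ) * Real.sqrt d * inner ℝ (x - z) (z - z) : ℝ)
        + Complex.I * ((β * (Real.sqrt d / 2) * ‖x - z‖ ^ 2 : ℝ) : ℂ))) := by
  unfold fH0 k0
  rw [mul_left_comm, ← Complex.exp_add, mul_left_comm, ← Complex.exp_add]
  congr 2
  push_cast
  ring

theorem diff_eq (d : ℕ) (ε a β : ℝ) (x y z : Eu d) : fH d ε a β x y z - fH0 d ε β x y z =
    k0 d β y z * ((ga d ((1 - ε ^ 2) / d) (x - z) : ℂ) *
        Complex.exp (Complex.I * ((β * (Real.sqrt d / 2) * ‖x - z‖ ^ 2 : ℝ) : ℂ)) *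
        (Complex.exp (((a : ℂ) + Complex.I * β) *
          (Real.sqrt d * inner ℝ (x - z) (z - y) : ℝ)) - 1)) := by
  have h1 : fH d ε a β x y z = k0 d β y z * ((ga d ((1 - ε ^ 2) / d) (x - z) : ℂ) *
        Complex.exp (Complex.I * ((β * (Real.sqrt d / 2) * ‖x - z‖ ^ 2 : ℝ) : ℂ)) *
        Complex.exp (((a : ℂ) + Complex.I * β) *
          (Real.sqrt d * inner ℝ (x - z) (z - y) : ℝ))) := by
    have key : Complex.exp ((a * Real.sqrt d * inner ℝ (x - z) (z - y) : ℝ)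
        + Complex.I * ((β * (Real.sqrt d / 2) * (‖x - y‖ ^ 2 - 1) : ℝ) : ℂ)) =
        Complex.exp (Complex.I * ((β * (Real.sqrt d / 2) * (‖z - y‖ ^ 2 - 1) : ℝ) : ℂ)) *
        (Complex.exp (Complex.I * ((β * (Real.sqrt d / 2) * ‖x - z‖ ^ 2 : ℝ) : ℂ)) *
        Complex.exp (((a : ℂ) + Complex.I * β) *
          (Real.sqrt d * inner ℝ (x - z) (z - y) : ℝ))) := by
      rw [← Complex.exp_add, ← Complex.exp_add]
      congr 1
      rw [inner_expand x y z]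
      push_cast
      ring
    unfold fH k0
    rw [key]
    ring
  have h2 : fH0 d ε β x y z = k0 d β y z * ((ga d ((1 - ε ^ 2) / d) (x - z) : ℂ) *
        Complex.exp (Complex.I * ((β * (Real.sqrt d / 2) * ‖x - z‖ ^ 2 : ℝ) : ℂ))) := by
    rw [fH0_eq1]
    simp
  rw [h1, h2]
  ring

theorem meas_fH (d : ℕ) (ε a β : ℝ) {Q : Type} [MeasurableSpace Q] (Y Z : Q → Eu d)
    (hY : Measurable Y) (hZ : Measurable Z) (x : Eu d) : Measurable (fun q => fH d ε a β x (Y q) (Z q)) := by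
  have hga : Measurable (ga d ((1 - ε ^ 2) / d)) := (continuous_ga d _).measurable
  unfold fH
  fun_prop

theorem meas_fH0 (d : ℕ) (ε β : ℝ) {Q : Type} [MeasurableSpace Q] (Y Z : Q → Eu d)
    (hY : Measurable Y) (hZ : Measurable Z) (x : Eu d) : Measurable (fun q => fH0 d ε β x (Y q) (Z q)) := by
  have hga : Measurable (ga d ((1 - ε ^ 2) / d)) := (continuous_ga d _).measurable
  unfold fH0
  fun_prop

theorem meas_k0 (d : ℕ) (β : ℝ) {Q : Type} [MeasurableSpace Q] (Y Z : Q → Eu d)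
    (hY : Measurable Y) (hZ : Measurable Z) : Measurable (fun q => k0 d β (Y q) (Z q)) := by
  unfold k0
  fun_prop

theorem smeas_D (d : ℕ) (ε : ℝ) {Q : Type} [MeasurableSpace Q] (μ : Measure Q) [IsFiniteMeasure μ]
    (Y Z : Q → Eu d) (hY : Measurable Y) (hZ : Measurable Z) :
    StronglyMeasurable (fun w : Eu d × (ℝ × ℝ) =>
      Hf d ε μ Y Z (Real.sqrt 10 * w.2.1) w.2.2 w.1 - H0f d ε μ Y Z w.2.2 w.1) := by
  have hga : Measurable (ga d ((1 - ε ^ 2) / d)) := (continuous_ga d _).measurable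
  apply StronglyMeasurable.sub
  · unfold Hf
    refine StronglyMeasurable.integral_prod_right ?_
    apply Measurable.stronglyMeasurable
    unfold Function.uncurry
    fun_prop
  · unfold H0f
    refine StronglyMeasurable.integral_prod_right ?_
    apply Measurable.stronglyMeasurable
    unfold Function.uncurry
    fun_prop

theorem norm_fH_le (d : ℕ) (ε a β t : ℝ) (ht : t = (1 - ε ^ 2) / d) (ht0 : 0 < t) (x y z : Eu d)
    (hyz : ‖z - y‖ ≤ ε) : ‖fH d ε a β x y z‖ ≤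
      (2 * Real.pi * t) ^ (-(d : ℝ) / 2) * Real.exp (t * (|a| * Real.sqrt d * ε) ^ 2 / 2) := by
  unfold fH
  rw [← ht, norm_mul, Complex.norm_exp, Complex.norm_real, Real.norm_eq_abs, abs_of_pos (ga_pos d t ht0 _)]
  unfold ga
  rw [mul_assoc]
  have hpos : 0 ≤ (2 * Real.pi * t) ^ (-(d : ℝ) / 2) := by positivity
  refine mul_le_mul_of_nonneg_left ?_ hpos
  rw [← Real.exp_add]
  apply Real.exp_le_exp.mpr
  have hre : ((((a * Real.sqrt d * inner ℝ (x - z) (z - y) : ℝ) : ℂ)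
      + Complex.I * ((β * (Real.sqrt d / 2) * (‖x - y‖ ^ 2 - 1) : ℝ) : ℂ))).re =
      a * Real.sqrt d * inner ℝ (x - z) (z - y) := by
    rw [Complex.add_re, Complex.ofReal_re, Complex.re_mul_ofReal, Complex.I_re]
    ring
  rw [hre]
  have h1 : a * Real.sqrt d * inner ℝ (x - z) (z - y) ≤ (|a| * Real.sqrt d * ε) * ‖x - z‖ := by
    calc a * Real.sqrt d * inner ℝ (x - z) (z - y)
        ≤ |a * Real.sqrt d * inner ℝ (x - z) (z - y)| := le_abs_self _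
      _ = |a| * Real.sqrt d * |inner ℝ (x - z) (z - y)| := by
          rw [abs_mul, abs_mul, abs_of_nonneg (Real.sqrt_nonneg _)]
      _ ≤ |a| * Real.sqrt d * (‖x - z‖ * ‖z - y‖) := by
          gcongr
          exact abs_real_inner_le_norm _ _
      _ ≤ |a| * Real.sqrt d * (‖x - z‖ * ε) := by gcongr
      _ = _ := by ring
  have h2 : -‖x - z‖ ^ 2 / (2 * t) + (|a| * Real.sqrt d * ε) * ‖x - z‖ ≤
      t * (|a| * Real.sqrt d * ε) ^ 2 / 2 := by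
    have h3 : t * (|a| * Real.sqrt d * ε) ^ 2 / 2 - (-‖x - z‖ ^ 2 / (2 * t) +
        (|a| * Real.sqrt d * ε) * ‖x - z‖) = (‖x - z‖ - t * (|a| * Real.sqrt d * ε)) ^ 2 / (2 * t) := by
      field_simp
      ring
    have h4 : 0 ≤ (‖x - z‖ - t * (|a| * Real.sqrt d * ε)) ^ 2 / (2 * t) := by positivity
    linarith
  linarith

theorem norm_fH0_le (d : ℕ) (ε β t : ℝ) (ht : t = (1 - ε ^ 2) / d) (ht0 : 0 < t) (x y z : Eu d) :
    ‖fH0 d ε β x y z‖ ≤ (2 * Real.pi * t) ^ (-(d : ℝ) / 2) := by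
  unfold fH0
  rw [← ht, norm_mul, norm_mul, mul_comm Complex.I, mul_comm Complex.I, Complex.norm_exp_ofReal_mul_I,
    Complex.norm_exp_ofReal_mul_I, Complex.norm_real, Real.norm_eq_abs, abs_of_pos (ga_pos d t ht0 _)]
  unfold ga
  rw [one_mul, mul_one]
  have hpos : 0 ≤ (2 * Real.pi * t) ^ (-(d : ℝ) / 2) := by positivity
  refine (mul_le_mul_of_nonneg_left (Real.exp_le_one_iff.mpr ?_) hpos).trans (by rw [mul_one])
  apply div_nonpos_of_nonpos_of_nonneg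
  · have := sq_nonneg ‖x - z‖
    linarith
  · positivity

theorem HsubH0 (d : ℕ) (hd : 16 ≤ d) (ε : ℝ) (hε : 0 < ε) (hε1 : ε ≤ 1 / 64) {Q : Type}
    [MeasurableSpace Q] (μ : Measure Q) [IsFiniteMeasure μ]
    (Y Z : Q → Eu d) (hY : Measurable Y) (hZ : Measurable Z) (hc : ∀ q, ‖Z q - Y q‖ ≤ ε) (a β : ℝ)
    (x : Eu d) : Hf d ε μ Y Z a β x - H0f d ε μ Y Z β x = ∫ q, k0 d β (Y q) (Z q) *
      ((ga d ((1 - ε ^ 2) / d) (x - Z q) : ℂ) *
        Complex.exp (Complex.I * ((β * (Real.sqrt d / 2) * ‖x - Z q‖ ^ 2 : ℝ) : ℂ)) *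
        (Complex.exp (((a : ℂ) + Complex.I * β) *
          (Real.sqrt d * inner ℝ (x - Z q) (Z q - Y q) : ℝ)) - 1)) ∂μ := by
  have hd0 : (0 : ℝ) < d := by
    have : 0 < d := by omega
    exact_mod_cast this
  have ht0 : (0 : ℝ) < (1 - ε ^ 2) / d := by
    apply div_pos _ hd0
    nlinarith
  have i1 : Integrable (fun q => fH d ε a β x (Y q) (Z q)) μ := by
    exact Integrable.of_bound (meas_fH d ε a β Y Z hY hZ x).aestronglyMeasurable _
      (Filter.Eventually.of_forall fun q => norm_fH_le d ε a β _ rfl ht0 x (Y q) (Z q) (hc q))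
  have i2 : Integrable (fun q => fH0 d ε β x (Y q) (Z q)) μ := by
    exact Integrable.of_bound (meas_fH0 d ε β Y Z hY hZ x).aestronglyMeasurable _
      (Filter.Eventually.of_forall fun q => norm_fH0_le d ε β _ rfl ht0 x (Y q) (Z q))
  have e1 : Hf d ε μ Y Z a β x = ∫ q, fH d ε a β x (Y q) (Z q) ∂μ := rfl
  have e2 : H0f d ε μ Y Z β x = ∫ q, fH0 d ε β x (Y q) (Z q) ∂μ := rfl
  rw [e1, e2, ← integral_sub i1 i2]
  refine integral_congr_ae (Filter.Eventually.of_forall fun q => ?_)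
  exact diff_eq d ε a β x (Y q) (Z q)

theorem NB : ∃ C : ℝ, 0 < C ∧ ∀ d : ℕ, 16 ≤ d → ∀ ε : ℝ, 0 < ε → ε ≤ 1 / 64 →
    ∀ (lam : ENNReal), lam ≠ ⊤ → ∀ (Q : Type) [MeasurableSpace Q] (μ : Measure Q) (Y Z : Q → Eu d),
    Dat d ε lam μ Y Z → ∀ a β : ℝ,
    ∫⁻ x : Eu d, ‖Hf d ε μ Y Z a β x - H0f d ε μ Y Z β x‖ₑ ^ 2 ≤
      ENNReal.ofReal (C * (a ^ 2 + β ^ 2) * ε ^ 2 * Real.exp (4 * a ^ 2 * ε ^ 2)) *
        lam * μ univ := by
  obtain ⟨C, hC, h⟩ := L2_bound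
  refine ⟨C, hC, ?_⟩
  intro d hd ε hε hε1 lam hlam Q _ μ Y Z hD a β
  have := hD.fin
  have h1 := h d hd ε hε hε1 lam hlam Q μ Y Z hD (fun q => k0 d β (Y q) (Z q))
    (meas_k0 d β Y Z hD.mY hD.mZ) (fun q => (norm_k0 d β (Y q) (Z q)).le) a β
  refine le_trans (le_of_eq ?_) h1
  congr 1
  ext x
  rw [HsubH0 d hd ε hε hε1 μ Y Z hD.mY hD.mZ hD.close a β x]

theorem NA : ∃ C c : ℝ, 0 < C ∧ 0 < c ∧ ∀ d : ℕ, 16 ≤ d → ∀ ε : ℝ, 0 < ε → ε ≤ 1 / 64 →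
    ∀ (lam : ENNReal), lam ≠ ⊤ → ∀ (Q : Type) [MeasurableSpace Q] (μ : Measure Q) (Y Z : Q → Eu d),
    Dat d ε lam μ Y Z → ∀ a β : ℝ,
    ∫⁻ x : Eu d, ‖Hf d ε μ Y Z a β x - H0f d ε μ Y Z β x‖ₑ ^ 2 ≤
      ENNReal.ofReal (C * Real.exp (4 * a ^ 2 * ε ^ 2) * (Real.exp (-c * β ^ 2) + Real.exp (-c * d))) *
        lam * μ univ := by
  obtain ⟨C, c, hC, hc, h⟩ := L1_bound
  refine ⟨4 * C, c, by linarith, hc, ?_⟩
  intro d hd ε hε hε1 lam hlam Q _ μ Y Z hD a β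
  have := hD.fin
  have hD0 : Dat d ε lam μ Z Z := ⟨hD.fin, hD.mZ, hD.mZ, fun q => by simp [hε.le], hD.marg⟩
  have h1 := h d hd ε hε hε1 lam hlam Q μ Y Z hD
    (fun q => Complex.exp (Complex.I * ((-(β * (Real.sqrt d / 2)) : ℝ) : ℂ)))
    measurable_const (fun q => by
      rw [mul_comm]
      exact (Complex.norm_exp_ofReal_mul_I _).le) a β
  have h2 := h d hd ε hε hε1 lam hlam Q μ Z Z hD0 (fun q => k0 d β (Y q) (Z q))
    (meas_k0 d β Y Z hD.mY hD.mZ) (fun q => (norm_k0 d β (Y q) (Z q)).le) 0 β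
  have e1 : ∀ x, Hf d ε μ Y Z a β x = ∫ q, Complex.exp (Complex.I * ((-(β * (Real.sqrt d / 2)) : ℝ) : ℂ)) *
    ((ga d ((1 - ε ^ 2) / d) (x - Z q) : ℂ) *
        Complex.exp ((a * Real.sqrt d * inner ℝ (x - Z q) (Z q - Y q) : ℝ)
        + Complex.I * ((β * (Real.sqrt d / 2) * ‖x - Y q‖ ^ 2 : ℝ) : ℂ))) ∂μ := by
    intro x
    exact integral_congr_ae (Filter.Eventually.of_forall fun q => fH_eq1 d ε a β x (Y q) (Z q))
  have e2 : ∀ x, H0f d ε μ Y Z β x = ∫ q, k0 d β (Y q) (Z q) *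
    ((ga d ((1 - ε ^ 2) / d) (x - Z q) : ℂ) *
        Complex.exp (((0 : ℝ) * Real.sqrt d * inner ℝ (x - Z q) (Z q - Z q) : ℝ)
        + Complex.I * ((β * (Real.sqrt d / 2) * ‖x - Z q‖ ^ 2 : ℝ) : ℂ))) ∂μ := by
    intro x
    exact integral_congr_ae (Filter.Eventually.of_forall fun q => fH0_eq1 d ε β x (Y q) (Z q))
  simp only [← e1] at h1
  simp only [← e2] at h2
  have hpt : ∀ x, ‖Hf d ε μ Y Z a β x - H0f d ε μ Y Z β x‖ₑ ^ 2 ≤
      2 * ‖Hf d ε μ Y Z a β x‖ₑ ^ 2 + 2 * ‖H0f d ε μ Y Z β x‖ₑ ^ 2 := by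
    intro x
    have h3 : ‖Hf d ε μ Y Z a β x - H0f d ε μ Y Z β x‖ ^ 2 ≤
      2 * ‖Hf d ε μ Y Z a β x‖ ^ 2 + 2 * ‖H0f d ε μ Y Z β x‖ ^ 2 := by
      have h4 := norm_sub_le (Hf d ε μ Y Z a β x) (H0f d ε μ Y Z β x)
      have h5 := norm_nonneg (Hf d ε μ Y Z a β x - H0f d ε μ Y Z β x)
      nlinarith [sq_nonneg (‖Hf d ε μ Y Z a β x‖ - ‖H0f d ε μ Y Z β x‖)]
    have h6 := ENNReal.ofReal_le_ofReal h3
    rw [ENNReal.ofReal_add (by positivity) (by positivity), ENNReal.ofReal_mul (by norm_num),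
      ENNReal.ofReal_mul (by norm_num), ENNReal.ofReal_pow (norm_nonneg _),
      ENNReal.ofReal_pow (norm_nonneg _), ENNReal.ofReal_pow (norm_nonneg _),
      ofReal_norm, ofReal_norm, ofReal_norm] at h6
    simpa using h6
  have hm0 : Measurable (fun x => H0f d ε μ Y Z β x) := by
    have hga : Measurable (ga d ((1 - ε ^ 2) / d)) := (continuous_ga d _).measurable
    have hmZ := hD.mZ
    have hmY := hD.mY
    refine StronglyMeasurable.measurable ?_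
    unfold H0f
    refine StronglyMeasurable.integral_prod_right ?_
    apply Measurable.stronglyMeasurable
    unfold Function.uncurry
    fun_prop
  have hm0' : Measurable (fun x => 2 * ‖H0f d ε μ Y Z β x‖ₑ ^ 2) := by fun_prop
  have hsum : ENNReal.ofReal (4 * C * Real.exp (4 * a ^ 2 * ε ^ 2) * (Real.exp (-c * β ^ 2) + Real.exp (-c * d))) =
      2 * ENNReal.ofReal (C * Real.exp (4 * a ^ 2 * ε ^ 2) * (Real.exp (-c * β ^ 2) + Real.exp (-c * d)))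
      + 2 * ENNReal.ofReal (C * Real.exp (4 * a ^ 2 * ε ^ 2) * (Real.exp (-c * β ^ 2) + Real.exp (-c * d))) := by
    rw [← two_mul, ← mul_assoc]
    have : (2 * 2 : ENNReal) = ENNReal.ofReal 4 := by
      norm_num
    rw [this, ← ENNReal.ofReal_mul (by norm_num)]
    congr 1
    ring
  have h0le : ENNReal.ofReal (C * Real.exp (4 * (0:ℝ) ^ 2 * ε ^ 2) * (Real.exp (-c * β ^ 2) + Real.exp (-c * d))) ≤
      ENNReal.ofReal (C * Real.exp (4 * a ^ 2 * ε ^ 2) * (Real.exp (-c * β ^ 2) + Real.exp (-c * d))) := by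
    apply ENNReal.ofReal_le_ofReal
    have : Real.exp (4 * (0:ℝ) ^ 2 * ε ^ 2) ≤ Real.exp (4 * a ^ 2 * ε ^ 2) := by
      apply Real.exp_le_exp.mpr
      have : 0 ≤ 4 * a ^ 2 * ε ^ 2 := by positivity
      simpa using this
    gcongr
  calc ∫⁻ x : Eu d, ‖Hf d ε μ Y Z a β x - H0f d ε μ Y Z β x‖ₑ ^ 2
      ≤ ∫⁻ x : Eu d, (2 * ‖Hf d ε μ Y Z a β x‖ₑ ^ 2 + 2 * ‖H0f d ε μ Y Z β x‖ₑ ^ 2) :=
        lintegral_mono hpt
    _ = (∫⁻ x : Eu d, 2 * ‖Hf d ε μ Y Z a β x‖ₑ ^ 2) + ∫⁻ x : Eu d, 2 * ‖H0f d ε μ Y Z β x‖ₑ ^ 2 :=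
        lintegral_add_right _ hm0'
    _ = 2 * (∫⁻ x : Eu d, ‖Hf d ε μ Y Z a β x‖ₑ ^ 2) + 2 * ∫⁻ x : Eu d, ‖H0f d ε μ Y Z β x‖ₑ ^ 2 := by
        rw [lintegral_const_mul' _ _ (by norm_num), lintegral_const_mul' _ _ (by norm_num)]
    _ ≤ 2 * (ENNReal.ofReal (C * Real.exp (4 * a ^ 2 * ε ^ 2) * (Real.exp (-c * β ^ 2) + Real.exp (-c * d))) *
        lam * μ univ) + 2 * (ENNReal.ofReal (C * Real.exp (4 * a ^ 2 * ε ^ 2) * (Real.exp (-c * β ^ 2) + Real.exp (-c * d))) *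
        lam * μ univ) := by
        refine add_le_add (mul_le_mul_right h1 2) (mul_le_mul_right (h2.trans ?_) 2)
        exact mul_le_mul_left (mul_le_mul_left h0le _) _
    _ = _ := by
        rw [hsum]
        ring

theorem NAB : ∃ C c : ℝ, 0 < C ∧ 0 < c ∧ ∀ d : ℕ, 16 ≤ d → ∀ ε : ℝ, 0 < ε → ε ≤ 1 / 64 →
    ∀ (lam : ENNReal), lam ≠ ⊤ → ∀ (Q : Type) [MeasurableSpace Q] (μ : Measure Q) (Y Z : Q → Eu d),
    Dat d ε lam μ Y Z → ∀ a β : ℝ,
    ∫⁻ x : Eu d, ‖Hf d ε μ Y Z a β x - H0f d ε μ Y Z β x‖ₑ ^ 2 ≤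
      ENNReal.ofReal (C * ε * (|a| + |β|) * Real.exp (4 * a ^ 2 * ε ^ 2) *
        (Real.exp (-(c * β ^ 2) / 2) + Real.exp (-(c * d) / 2))) * lam * μ univ := by
  obtain ⟨C1, c, hC1, hc, h1⟩ := NA
  obtain ⟨C2, hC2, h2⟩ := NB
  refine ⟨C1 + C2, c, by linarith, hc, ?_⟩
  intro d hd ε hε hε1 lam hlam Q _ μ Y Z hD a β
  have h1' := h1 d hd ε hε hε1 lam hlam Q μ Y Z hD a β
  have h2' := h2 d hd ε hε hε1 lam hlam Q μ Y Z hD a β
  have q1 : Real.exp (-c * β ^ 2) = (Real.exp (-(c * β ^ 2) / 2)) ^ 2 := by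
    rw [← Real.exp_nat_mul]
    congr 1
    push_cast
    ring
  have q2 : Real.exp (-c * d) = (Real.exp (-(c * d) / 2)) ^ 2 := by
    rw [← Real.exp_nat_mul]
    congr 1
    push_cast
    ring
  rw [q1, q2] at h1'
  have p1 : 0 < Real.exp (-(c * β ^ 2) / 2) := Real.exp_pos _
  have p2 : 0 < Real.exp (-(c * d) / 2) := Real.exp_pos _
  have p3 : 0 < Real.exp (4 * a ^ 2 * ε ^ 2) := Real.exp_pos _
  generalize Real.exp (-(c * β ^ 2) / 2) = e1 at h1' p1 ⊢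
  generalize Real.exp (-(c * d) / 2) = e2 at h1' p2 ⊢
  generalize Real.exp (4 * a ^ 2 * ε ^ 2) = e at h1' h2' p3 ⊢
  have hA : 0 ≤ C1 * e * (e1 ^ 2 + e2 ^ 2) := by positivity
  have hB : 0 ≤ C2 * (a ^ 2 + β ^ 2) * ε ^ 2 * e := by positivity
  have hX : 0 ≤ (C1 + C2) * ε * (|a| + |β|) * e * (e1 + e2) := by positivity
  have hAB : (C1 * e * (e1 ^ 2 + e2 ^ 2)) * (C2 * (a ^ 2 + β ^ 2) * ε ^ 2 * e) ≤
      ((C1 + C2) * ε * (|a| + |β|) * e * (e1 + e2)) ^ 2 := by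
    have s1 : e1 ^ 2 + e2 ^ 2 ≤ (e1 + e2) ^ 2 := by nlinarith
    have s2 : a ^ 2 + β ^ 2 ≤ (|a| + |β|) ^ 2 := by
      rw [← sq_abs a, ← sq_abs β]
      nlinarith [abs_nonneg a, abs_nonneg β, mul_nonneg (abs_nonneg a) (abs_nonneg β)]
    have s3 : C1 * C2 ≤ (C1 + C2) ^ 2 := by nlinarith
    calc (C1 * e * (e1 ^ 2 + e2 ^ 2)) * (C2 * (a ^ 2 + β ^ 2) * ε ^ 2 * e)
        = (C1 * C2) * (ε ^ 2 * e ^ 2) * (a ^ 2 + β ^ 2) * (e1 ^ 2 + e2 ^ 2) := by ring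
      _ ≤ (C1 + C2) ^ 2 * (ε ^ 2 * e ^ 2) * (|a| + |β|) ^ 2 * (e1 + e2) ^ 2 := by gcongr
      _ = _ := by ring
  rcases le_total (C1 * e * (e1 ^ 2 + e2 ^ 2)) (C2 * (a ^ 2 + β ^ 2) * ε ^ 2 * e) with hle | hle
  · refine h1'.trans (mul_le_mul_left (mul_le_mul_left (ENNReal.ofReal_le_ofReal ?_) _) _)
    have : (C1 * e * (e1 ^ 2 + e2 ^ 2)) ^ 2 ≤ ((C1 + C2) * ε * (|a| + |β|) * e * (e1 + e2)) ^ 2 := by
      refine le_trans ?_ hAB
      rw [sq]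
      exact mul_le_mul_of_nonneg_left hle hA
    exact le_of_sq_le_sq this hX
  · refine h2'.trans (mul_le_mul_left (mul_le_mul_left (ENNReal.ofReal_le_ofReal ?_) _) _)
    have : (C2 * (a ^ 2 + β ^ 2) * ε ^ 2 * e) ^ 2 ≤ ((C1 + C2) * ε * (|a| + |β|) * e * (e1 + e2)) ^ 2 := by
      refine le_trans ?_ hAB
      rw [sq]
      exact mul_le_mul_of_nonneg_right hle hB
    exact le_of_sq_le_sq this hX

open ProbabilityTheory in
theorem G1 (d : ℕ) (hd : 1 ≤ d) (f : ℝ → ENNReal) (hf : Measurable f) :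
    ENNReal.ofReal (Real.sqrt d) * ∫⁻ x, f x ∂(gaussianReal 0 (d : NNReal)) ≤
      ∫⁻ x, f x * ENNReal.ofReal (Real.exp (-x ^ 2 / (2 * d))) := by
  have hd0 : (0 : ℝ) < d := by exact_mod_cast hd
  have hv : (d : NNReal) ≠ 0 := by
    have : d ≠ 0 := by omega
    exact_mod_cast this
  rw [gaussianReal_of_var_ne_zero 0 hv, lintegral_withDensity_eq_lintegral_mul _
    (measurable_gaussianPDF 0 _) hf, ← lintegral_const_mul' _ _ (by norm_num)]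
  refine lintegral_mono fun x => ?_
  simp only [Pi.mul_apply]
  rw [← mul_assoc, mul_comm (f x)]
  refine mul_le_mul_left ?_ _
  rw [gaussianPDF, ← ENNReal.ofReal_mul (Real.sqrt_nonneg _)]
  apply ENNReal.ofReal_le_ofReal
  unfold gaussianPDFReal
  rw [← mul_assoc]
  have h1 : Real.sqrt d * (Real.sqrt (2 * Real.pi * ((d : NNReal) : ℝ)))⁻¹ ≤ 1 := by
    rw [← div_eq_mul_inv]
    apply div_le_one_of_le₀ _ (Real.sqrt_nonneg _)
    apply Real.sqrt_le_sqrt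
    push_cast
    nlinarith [Real.pi_gt_three]
  have h2 : Real.exp (-(x - 0) ^ 2 / (2 * ((d : NNReal) : ℝ))) = Real.exp (-x ^ 2 / (2 * d)) := by
    congr 1
    simp
  rw [h2]
  have h3 : 0 ≤ Real.exp (-x ^ 2 / (2 * d)) := (Real.exp_pos _).le
  calc _ ≤ 1 * Real.exp (-x ^ 2 / (2 * d)) := mul_le_mul_of_nonneg_right h1 h3
    _ = _ := one_mul _

theorem lint_cauchy (K : ℝ) (hK : 0 ≤ K) :
    ∫⁻ x : ℝ, ENNReal.ofReal (K * (1 + x ^ 2)⁻¹) = ENNReal.ofReal (K * Real.pi) := by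
  rw [← ofReal_integral_eq_lintegral_ofReal]
  · rw [integral_const_mul, integral_univ_inv_one_add_sq]
  · exact integrable_inv_one_add_sq.const_mul K
  · exact Filter.Eventually.of_forall fun x => by positivity

open ProbabilityTheory in
theorem KA : ∫⁻ x, ENNReal.ofReal ((1 + 4 * |x|) * Real.exp (x ^ 2 / 100)) ∂(gaussianReal 0 1) ≤
    ENNReal.ofReal (24 * Real.exp 2 * Real.pi) := by
  have h := G1 1 le_rfl (fun x => ENNReal.ofReal ((1 + 4 * |x|) * Real.exp (x ^ 2 / 100)))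
    (by fun_prop)
  simp only [Nat.cast_one, Real.sqrt_one, ENNReal.ofReal_one, one_mul] at h
  refine h.trans ?_
  rw [← lint_cauchy _ (by positivity)]
  refine lintegral_mono fun x => ?_
  rw [← ENNReal.ofReal_mul (by positivity)]
  apply ENNReal.ofReal_le_ofReal
  rw [← div_eq_mul_inv, le_div_iff₀ (by positivity), mul_assoc (1 + 4 * |x|), ← Real.exp_add]
  have hx := abs_nonneg x
  have hsq : x ^ 2 = |x| ^ 2 := (sq_abs x).symm
  have h1 : x ^ 2 / 100 + -x ^ 2 / (2 * 1) ≤ 1 - |x| := by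
    rw [hsq]
    nlinarith [sq_nonneg (|x| - 1)]
  have h2 : (1 + |x|) ^ 3 / (Nat.factorial 3 : ℝ) ≤ Real.exp (1 + |x|) :=
    Real.pow_div_factorial_le_exp (1 + |x|) (by positivity) 3
  have h2' : (1 + |x|) ^ 3 ≤ 6 * Real.exp (1 + |x|) := by
    have : (Nat.factorial 3 : ℝ) = 6 := by norm_num [Nat.factorial]
    rw [this, div_le_iff₀ (by norm_num)] at h2
    linarith
  calc (1 + 4 * |x|) * Real.exp (x ^ 2 / 100 + -x ^ 2 / (2 * 1)) * (1 + x ^ 2)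
      = ((1 + 4 * |x|) * (1 + |x| ^ 2)) * Real.exp (x ^ 2 / 100 + -x ^ 2 / (2 * 1)) := by
        rw [← hsq]; ring
    _ ≤ (4 * (1 + |x|) ^ 3) * Real.exp (1 - |x|) := by
        refine mul_le_mul ?_ (Real.exp_le_exp.mpr h1) (Real.exp_pos _).le (by positivity)
        nlinarith [pow_nonneg hx 2, pow_nonneg hx 3]
    _ ≤ (4 * (6 * Real.exp (1 + |x|))) * Real.exp (1 - |x|) := by gcongr
    _ = 24 * (Real.exp (1 + |x|) * Real.exp (1 - |x|)) := by ring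
    _ = 24 * Real.exp 2 := by
        rw [← Real.exp_add]
        congr 2
        ring

open ProbabilityTheory in
theorem KW (d : ℕ) (hd : 1 ≤ d) : ENNReal.ofReal (Real.sqrt d) *
    ∫⁻ x, ENNReal.ofReal ((1 + x ^ 2)⁻¹) ∂(gaussianReal 0 (d : NNReal)) ≤ ENNReal.ofReal Real.pi := by
  refine (G1 d hd _ (by fun_prop)).trans ?_
  have := lint_cauchy 1 (by norm_num)
  rw [one_mul] at this
  rw [← this]
  refine lintegral_mono fun x => ?_
  rw [← ENNReal.ofReal_mul (by positivity)]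
  apply ENNReal.ofReal_le_ofReal
  rw [one_mul]
  have h1 : Real.exp (-x ^ 2 / (2 * d)) ≤ 1 := by
    apply Real.exp_le_one_iff.mpr
    apply div_nonpos_of_nonpos_of_nonneg
    · nlinarith [sq_nonneg x]
    · positivity
  have h2 : 0 ≤ (1 + x ^ 2)⁻¹ := by positivity
  nlinarith

/-- weight function in `β` -/
noncomputable def Bw (c : ℝ) (d : ℕ) (β : ℝ) : ℝ :=
  (1 + β ^ 2) * (1 + |β|) * (Real.exp (-(c * β ^ 2) / 2) + Real.exp (-(c * d) / 2))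

open ProbabilityTheory in
theorem KB (c : ℝ) (hc : 0 < c) (d : ℕ) (hd : 1 ≤ d) : ENNReal.ofReal (Real.sqrt d) *
    ∫⁻ x, ENNReal.ofReal (Bw c d x) ∂(gaussianReal 0 (d : NNReal)) ≤
      ENNReal.ofReal (3 * (120 / (Real.sqrt c) ^ 5 * Real.exp (Real.sqrt c)) * Real.pi) := by
  have hd0 : (0 : ℝ) < d := by exact_mod_cast hd
  refine (G1 d hd _ (by unfold Bw; fun_prop)).trans ?_
  rw [← lint_cauchy _ (by positivity)]
  refine lintegral_mono fun x => ?_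
  have hBw : 0 ≤ Bw c d x := by unfold Bw; positivity
  rw [← ENNReal.ofReal_mul hBw]
  apply ENNReal.ofReal_le_ofReal
  rw [← div_eq_mul_inv, le_div_iff₀ (by positivity)]
  set s := Real.sqrt c with hs
  have hs0 : 0 < s := Real.sqrt_pos.mpr hc
  have hs2 : s ^ 2 = c := Real.sq_sqrt hc.le
  have hx := abs_nonneg x
  have hsq : x ^ 2 = |x| ^ 2 := (sq_abs x).symm
  have h1 : -(c * x ^ 2) / 2 + -x ^ 2 / (2 * d) ≤ 1 / 2 - s * |x| := by
    have h3 : 0 ≤ x ^ 2 / (2 * d) := by positivity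
    rw [neg_div (2 * (d : ℝ))]
    have h4 : -(c * x ^ 2) / 2 ≤ 1 / 2 - s * |x| := by
      rw [hsq, ← hs2]
      nlinarith [sq_nonneg (s * |x| - 1)]
    linarith
  have h2 : -(c * d) / 2 + -x ^ 2 / (2 * d) ≤ - (s * |x|) := by
    have h3 : c * d / 2 + x ^ 2 / (2 * d) - s * |x| = (s * d - |x|) ^ 2 / (2 * d) := by
      rw [hsq, ← hs2]
      field_simp
      ring
    have h4 : 0 ≤ (s * d - |x|) ^ 2 / (2 * d) := by positivity
    rw [neg_div (2 * (d : ℝ))]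
    linarith
  have h3 : (Real.exp (-(c * x ^ 2) / 2) + Real.exp (-(c * d) / 2)) * Real.exp (-x ^ 2 / (2 * d)) ≤
      3 * Real.exp (-(s * |x|)) := by
    rw [add_mul, ← Real.exp_add, ← Real.exp_add]
    have h4 := Real.exp_le_exp.mpr h1
    have h5 := Real.exp_le_exp.mpr h2
    have h6 : Real.exp (1 / 2 - s * |x|) ≤ 2 * Real.exp (-(s * |x|)) := by
      rw [sub_eq_add_neg, Real.exp_add]
      have h7 : Real.exp (1 / 2) ≤ 2 := by
        have h8 : Real.exp (1 / 2) ^ 2 ≤ 2 ^ 2 := by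
          rw [← Real.exp_nat_mul]
          have := Real.exp_one_lt_d9
          norm_num
          linarith
        exact le_of_sq_le_sq h8 (by norm_num)
      exact mul_le_mul_of_nonneg_right h7 (Real.exp_pos _).le
    linarith
  have h7 : (s * (1 + |x|)) ^ 5 / (Nat.factorial 5 : ℝ) ≤ Real.exp (s * (1 + |x|)) :=
    Real.pow_div_factorial_le_exp (s * (1 + |x|)) (by positivity) 5
  have h7' : (1 + |x|) ^ 5 ≤ 120 / s ^ 5 * Real.exp (s * (1 + |x|)) := by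
    have : (Nat.factorial 5 : ℝ) = 120 := by norm_num [Nat.factorial]
    rw [this, div_le_iff₀ (by norm_num), mul_pow] at h7
    rw [div_mul_eq_mul_div, le_div_iff₀ (by positivity)]
    linarith
  have h8 : (1 + x ^ 2) * (1 + |x|) * (1 + x ^ 2) ≤ (1 + |x|) ^ 5 := by
    rw [hsq]
    have : 1 + |x| ^ 2 ≤ (1 + |x|) ^ 2 := by nlinarith
    calc (1 + |x| ^ 2) * (1 + |x|) * (1 + |x| ^ 2)
        ≤ (1 + |x|) ^ 2 * (1 + |x|) * (1 + |x|) ^ 2 := by gcongr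
      _ = _ := by ring
  calc Bw c d x * Real.exp (-x ^ 2 / (2 * d)) * (1 + x ^ 2)
      = ((1 + x ^ 2) * (1 + |x|) * (1 + x ^ 2)) *
        ((Real.exp (-(c * x ^ 2) / 2) + Real.exp (-(c * d) / 2)) * Real.exp (-x ^ 2 / (2 * d))) := by
        unfold Bw; ring
    _ ≤ (1 + |x|) ^ 5 * (3 * Real.exp (-(s * |x|))) := by
        refine mul_le_mul h8 h3 (by positivity) (by positivity)
    _ ≤ (120 / s ^ 5 * Real.exp (s * (1 + |x|))) * (3 * Real.exp (-(s * |x|))) := by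
        refine mul_le_mul_of_nonneg_right h7' (by positivity)
    _ = 3 * (120 / s ^ 5 * (Real.exp (s * (1 + |x|)) * Real.exp (-(s * |x|)))) := by ring
    _ = _ := by
        rw [← Real.exp_add]
        congr 4
        ring

theorem CS {α : Type*} [MeasurableSpace α] (μ : Measure α) (u v : α → ENNReal) (hu : Measurable u)
    (hv : Measurable v) : (∫⁻ a, u a * v a ∂μ) ^ 2 ≤ (∫⁻ a, u a ^ 2 ∂μ) * ∫⁻ a, v a ^ 2 ∂μ := by
  have h := ENNReal.lintegral_mul_le_Lp_mul_Lq μ Real.HolderConjugate.two_two hu.aemeasurable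
    hv.aemeasurable
  simp only [Pi.mul_apply, ENNReal.rpow_two] at h
  have h2 := pow_le_pow_left' h 2
  refine h2.trans (le_of_eq ?_)
  rw [mul_pow, ← ENNReal.rpow_natCast, ← ENNReal.rpow_natCast, ← ENNReal.rpow_mul, ← ENNReal.rpow_mul]
  norm_num

open ProbabilityTheory in
theorem CSw (d : ℕ) (hd : 1 ≤ d) (f : ℝ × ℝ → ENNReal) (hf : Measurable f) :
    (ENNReal.ofReal (Real.sqrt d) * ∫⁻ p : ℝ × ℝ, f p
        ∂((gaussianReal 0 1).prod (gaussianReal 0 (d : NNReal)))) ^ 2 ≤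
    ENNReal.ofReal Real.pi * (ENNReal.ofReal (Real.sqrt d) *
      ∫⁻ p : ℝ × ℝ, ENNReal.ofReal (1 + p.2 ^ 2) * f p ^ 2
        ∂((gaussianReal 0 1).prod (gaussianReal 0 (d : NNReal)))) := by
  have h := CS ((gaussianReal 0 1).prod (gaussianReal 0 (d : NNReal)))
    (fun p : ℝ × ℝ => ENNReal.ofReal (Real.sqrt ((1 + p.2 ^ 2)⁻¹)))
    (fun p : ℝ × ℝ => ENNReal.ofReal (Real.sqrt (1 + p.2 ^ 2)) * f p) (by fun_prop) (by fun_prop)
  have e1 : ∀ p : ℝ × ℝ, ENNReal.ofReal (Real.sqrt ((1 + p.2 ^ 2)⁻¹)) *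
      (ENNReal.ofReal (Real.sqrt (1 + p.2 ^ 2)) * f p) = f p := by
    intro p
    have hp : (0:ℝ) < 1 + p.2 ^ 2 := by positivity
    rw [← mul_assoc, ← ENNReal.ofReal_mul (Real.sqrt_nonneg _), ← Real.sqrt_mul (by positivity),
      inv_mul_cancel₀ hp.ne']
    simp
  have e2 : ∀ p : ℝ × ℝ, ENNReal.ofReal (Real.sqrt ((1 + p.2 ^ 2)⁻¹)) ^ 2 =
      1 * ENNReal.ofReal ((1 + p.2 ^ 2)⁻¹) := by
    intro p
    rw [← ENNReal.ofReal_pow (Real.sqrt_nonneg _), Real.sq_sqrt (by positivity), one_mul]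
  have e3 : ∀ p : ℝ × ℝ, (ENNReal.ofReal (Real.sqrt (1 + p.2 ^ 2)) * f p) ^ 2 =
      ENNReal.ofReal (1 + p.2 ^ 2) * f p ^ 2 := by
    intro p
    rw [mul_pow, ← ENNReal.ofReal_pow (Real.sqrt_nonneg _), Real.sq_sqrt (by positivity)]
  simp only [e1, e2, e3] at h
  rw [lintegral_prod_mul (f := fun _ => 1) (g := fun y => ENNReal.ofReal ((1 + y ^ 2)⁻¹))
    (by fun_prop) (by fun_prop)] at h
  simp only [lintegral_const, measure_univ, mul_one, one_mul] at h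
  have hW := KW d hd
  rw [mul_pow, sq (ENNReal.ofReal (Real.sqrt d))]
  calc ENNReal.ofReal (Real.sqrt d) * ENNReal.ofReal (Real.sqrt d) * (∫⁻ p : ℝ × ℝ, f p
        ∂((gaussianReal 0 1).prod (gaussianReal 0 (d : NNReal)))) ^ 2
      ≤ ENNReal.ofReal (Real.sqrt d) * ENNReal.ofReal (Real.sqrt d) *
        ((∫⁻ y, ENNReal.ofReal ((1 + y ^ 2)⁻¹) ∂(gaussianReal 0 (d : NNReal))) *
        ∫⁻ p : ℝ × ℝ, ENNReal.ofReal (1 + p.2 ^ 2) * f p ^ 2
        ∂((gaussianReal 0 1).prod (gaussianReal 0 (d : NNReal)))) := mul_le_mul_right h _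
    _ = (ENNReal.ofReal (Real.sqrt d) *
        ∫⁻ y, ENNReal.ofReal ((1 + y ^ 2)⁻¹) ∂(gaussianReal 0 (d : NNReal))) *
        (ENNReal.ofReal (Real.sqrt d) *
        ∫⁻ p : ℝ × ℝ, ENNReal.ofReal (1 + p.2 ^ 2) * f p ^ 2
        ∂((gaussianReal 0 1).prod (gaussianReal 0 (d : NNReal)))) := by ring
    _ ≤ _ := mul_le_mul_left hW _

theorem pt_bound (d : ℕ) (ε C c a0 β : ℝ) (hε : 0 < ε) (hε1 : ε ≤ 1 / 64) (hC : 0 < C) (M N : ENNReal)
    (hN : N ≤ ENNReal.ofReal (C * ε * (|Real.sqrt 10 * a0| + |β|) *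
        Real.exp (4 * (Real.sqrt 10 * a0) ^ 2 * ε ^ 2) *
        (Real.exp (-(c * β ^ 2) / 2) + Real.exp (-(c * d) / 2))) * M) :
    ENNReal.ofReal (1 + β ^ 2) * N ≤
      (ENNReal.ofReal ((1 + 4 * |a0|) * Real.exp (a0 ^ 2 / 100)) *
        ENNReal.ofReal (Bw c d β)) * (ENNReal.ofReal (C * ε) * M) := by
  refine (mul_le_mul_right hN _).trans ?_
  have hA0 : 0 ≤ (1 + 4 * |a0|) * Real.exp (a0 ^ 2 / 100) := by positivity
  have hB0 : 0 ≤ Bw c d β := by unfold Bw; positivity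
  rw [← mul_assoc, ← mul_assoc, ← ENNReal.ofReal_mul (by positivity),
    ← ENNReal.ofReal_mul hA0, ← ENNReal.ofReal_mul (by positivity)]
  refine mul_le_mul_left (ENNReal.ofReal_le_ofReal ?_) _
  have h10 : Real.sqrt 10 ≤ 4 := by
    rw [Real.sqrt_le_left (by norm_num)]
    norm_num
  have h10' : Real.sqrt 10 ^ 2 = 10 := Real.sq_sqrt (by norm_num)
  have hs : |Real.sqrt 10 * a0| + |β| ≤ (1 + 4 * |a0|) * (1 + |β|) := by
    rw [abs_mul, abs_of_nonneg (Real.sqrt_nonneg 10)]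
    have h1 := abs_nonneg a0
    have h2 := abs_nonneg β
    have h3 : Real.sqrt 10 * |a0| ≤ 4 * |a0| := mul_le_mul_of_nonneg_right h10 h1
    nlinarith [mul_nonneg h1 h2]
  have he : Real.exp (4 * (Real.sqrt 10 * a0) ^ 2 * ε ^ 2) ≤ Real.exp (a0 ^ 2 / 100) := by
    apply Real.exp_le_exp.mpr
    rw [mul_pow, h10']
    have h1 : ε ^ 2 ≤ (1 / 64) ^ 2 := by gcongr
    have h2 : 0 ≤ a0 ^ 2 := sq_nonneg _
    nlinarith
  unfold Bw
  calc (1 + β ^ 2) * (C * ε * (|Real.sqrt 10 * a0| + |β|) *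
        Real.exp (4 * (Real.sqrt 10 * a0) ^ 2 * ε ^ 2) *
        (Real.exp (-(c * β ^ 2) / 2) + Real.exp (-(c * d) / 2)))
      ≤ (1 + β ^ 2) * (C * ε * ((1 + 4 * |a0|) * (1 + |β|)) *
        Real.exp (a0 ^ 2 / 100) *
        (Real.exp (-(c * β ^ 2) / 2) + Real.exp (-(c * d) / 2))) := by gcongr
    _ = _ := by ring

open ProbabilityTheory in
theorem main_step (d : ℕ) (hd1 : 1 ≤ d) (ε C c : ℝ) (hε : 0 < ε) (hε1 : ε ≤ 1 / 64) (hC : 0 < C)
    (hc : 0 < c) (M : ENNReal) {V : Type} [MeasurableSpace V] (vol : Measure V) [SFinite vol]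
    (E : V × (ℝ × ℝ) → ENNReal) (hE : Measurable E)
    (hN : ∀ p : ℝ × ℝ, ∫⁻ x, E (x, p) ^ 2 ∂vol ≤
      ENNReal.ofReal (C * ε * (|Real.sqrt 10 * p.1| + |p.2|) *
        Real.exp (4 * (Real.sqrt 10 * p.1) ^ 2 * ε ^ 2) *
        (Real.exp (-(c * p.2 ^ 2) / 2) + Real.exp (-(c * d) / 2))) * M) :
    ∫⁻ x, (ENNReal.ofReal (Real.sqrt d) * ∫⁻ p : ℝ × ℝ, E (x, p)
        ∂((gaussianReal 0 1).prod (gaussianReal 0 (d : NNReal)))) ^ 2 ∂vol ≤
      ENNReal.ofReal Real.pi * (ENNReal.ofReal (24 * Real.exp 2 * Real.pi) *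
        ENNReal.ofReal (3 * (120 / (Real.sqrt c) ^ 5 * Real.exp (Real.sqrt c)) * Real.pi)) *
        (ENNReal.ofReal (C * ε) * M) := by
  have hEx : ∀ x : V, Measurable (fun p : ℝ × ℝ => E (x, p)) := fun x =>
    hE.comp (measurable_prodMk_left (x := x))
  have hswap : ∫⁻ x : V, ∫⁻ p : ℝ × ℝ, ENNReal.ofReal (1 + p.2 ^ 2) * E (x, p) ^ 2
        ∂((gaussianReal 0 1).prod (gaussianReal 0 (d : NNReal))) ∂vol =
      ∫⁻ p : ℝ × ℝ, ∫⁻ x : V, ENNReal.ofReal (1 + p.2 ^ 2) * E (x, p) ^ 2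
        ∂vol ∂((gaussianReal 0 1).prod (gaussianReal 0 (d : NNReal))) := by
    refine lintegral_lintegral_swap ?_
    apply Measurable.aemeasurable
    unfold Function.uncurry
    have h2 : Measurable (fun w : V × (ℝ × ℝ) => ENNReal.ofReal (1 + w.2.2 ^ 2)) := by fun_prop
    exact h2.mul (hE.pow_const 2)
  have hpt : ∀ p : ℝ × ℝ, ∫⁻ x : V, ENNReal.ofReal (1 + p.2 ^ 2) * E (x, p) ^ 2 ∂vol ≤
      (ENNReal.ofReal ((1 + 4 * |p.1|) * Real.exp (p.1 ^ 2 / 100)) *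
        ENNReal.ofReal (Bw c d p.2)) * (ENNReal.ofReal (C * ε) * M) := by
    intro p
    rw [lintegral_const_mul' _ _ (by norm_num)]
    exact pt_bound d ε C c p.1 p.2 hε hε1 hC M _ (hN p)
  have hm : Measurable (fun p : ℝ × ℝ =>
      ENNReal.ofReal ((1 + 4 * |p.1|) * Real.exp (p.1 ^ 2 / 100)) *
        ENNReal.ofReal (Bw c d p.2)) := by
    unfold Bw
    fun_prop
  calc ∫⁻ x, (ENNReal.ofReal (Real.sqrt d) * ∫⁻ p : ℝ × ℝ, E (x, p)
        ∂((gaussianReal 0 1).prod (gaussianReal 0 (d : NNReal)))) ^ 2 ∂vol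
      ≤ ∫⁻ x, ENNReal.ofReal Real.pi * (ENNReal.ofReal (Real.sqrt d) *
      ∫⁻ p : ℝ × ℝ, ENNReal.ofReal (1 + p.2 ^ 2) * E (x, p) ^ 2
        ∂((gaussianReal 0 1).prod (gaussianReal 0 (d : NNReal)))) ∂vol :=
        lintegral_mono fun x => CSw d hd1 _ (hEx x)
    _ = ENNReal.ofReal Real.pi * (ENNReal.ofReal (Real.sqrt d) *
      ∫⁻ p : ℝ × ℝ, ∫⁻ x, ENNReal.ofReal (1 + p.2 ^ 2) * E (x, p) ^ 2
        ∂vol ∂((gaussianReal 0 1).prod (gaussianReal 0 (d : NNReal)))) := by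
        rw [lintegral_const_mul' _ _ (by norm_num), lintegral_const_mul' _ _ (by norm_num), hswap]
    _ ≤ ENNReal.ofReal Real.pi * (ENNReal.ofReal (Real.sqrt d) *
      ∫⁻ p : ℝ × ℝ, (ENNReal.ofReal ((1 + 4 * |p.1|) * Real.exp (p.1 ^ 2 / 100)) *
        ENNReal.ofReal (Bw c d p.2)) * (ENNReal.ofReal (C * ε) * M)
        ∂((gaussianReal 0 1).prod (gaussianReal 0 (d : NNReal)))) :=
        mul_le_mul_right (mul_le_mul_right (lintegral_mono hpt) _) _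
    _ = ENNReal.ofReal Real.pi *
        ((∫⁻ x, ENNReal.ofReal ((1 + 4 * |x|) * Real.exp (x ^ 2 / 100)) ∂(gaussianReal 0 1)) *
        (ENNReal.ofReal (Real.sqrt d) *
          ∫⁻ x, ENNReal.ofReal (Bw c d x) ∂(gaussianReal 0 (d : NNReal)))) *
        (ENNReal.ofReal (C * ε) * M) := by
        rw [lintegral_mul_const _ hm, lintegral_prod_mul
          (f := fun x => ENNReal.ofReal ((1 + 4 * |x|) * Real.exp (x ^ 2 / 100)))
          (g := fun x => ENNReal.ofReal (Bw c d x)) (by fun_prop) (by unfold Bw; fun_prop)]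
        ring
    _ ≤ ENNReal.ofReal Real.pi * (ENNReal.ofReal (24 * Real.exp 2 * Real.pi) *
        ENNReal.ofReal (3 * (120 / (Real.sqrt c) ^ 5 * Real.exp (Real.sqrt c)) * Real.pi)) *
        (ENNReal.ofReal (C * ε) * M) :=
        mul_le_mul_left (mul_le_mul_right (mul_le_mul' KA (KB c hc d hd1)) _) _

open ProbabilityTheory in
theorem stepB : ∃ C : ℝ, 0 < C ∧ ∀ d : ℕ, 16 ≤ d → ∀ ε : ℝ, 0 < ε → ε ≤ 1 / 64 →
    ∀ (lam : ENNReal), lam ≠ ⊤ → ∀ (Q : Type) [MeasurableSpace Q] (μ : Measure Q) (Y Z : Q → Eu d),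
    Dat d ε lam μ Y Z →
    ∫⁻ x : Eu d, (ENNReal.ofReal (Real.sqrt d) * ∫⁻ p : ℝ × ℝ,
        ‖Hf d ε μ Y Z (Real.sqrt 10 * p.1) p.2 x - H0f d ε μ Y Z p.2 x‖ₑ
        ∂((gaussianReal 0 1).prod (gaussianReal 0 (d : NNReal)))) ^ 2 ≤
      ENNReal.ofReal (C * ε) * lam * μ univ := by
  obtain ⟨C, c, hC, hc, hN⟩ := NAB
  refine ⟨C * (Real.pi * ((24 * Real.exp 2 * Real.pi) *
    (3 * (120 / (Real.sqrt c) ^ 5 * Real.exp (Real.sqrt c)) * Real.pi))), by positivity, ?_⟩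
  intro d hd ε hε hε1 lam hlam Q _ μ Y Z hD
  have hfin := hD.fin
  have hd1 : 1 ≤ d := by omega
  have hE : Measurable (fun w : Eu d × (ℝ × ℝ) =>
      ‖Hf d ε μ Y Z (Real.sqrt 10 * w.2.1) w.2.2 w.1 - H0f d ε μ Y Z w.2.2 w.1‖ₑ) :=
    (smeas_D d ε μ Y Z hD.mY hD.mZ).enorm
  have h := main_step d hd1 ε C c hε hε1 hC hc (lam * μ univ) (volume : Measure (Eu d)) _ hE
    (fun p => by
      have h1 := hN d hd ε hε hε1 lam hlam Q μ Y Z hD (Real.sqrt 10 * p.1) p.2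
      rw [mul_assoc _ lam] at h1
      exact h1)
  refine h.trans (le_of_eq ?_)
  rw [← ENNReal.ofReal_mul (by positivity), ← ENNReal.ofReal_mul (by positivity),
    ← mul_assoc, ← ENNReal.ofReal_mul (by positivity), mul_assoc _ lam]
  congr 2
  ring

end JB

alias stepB := JB.stepB

end Pool.Agent.Helper160.MF
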