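import Pool.Agent.Helper160.MF.Defs2
import Pool.Agent.Helper160.MF.Jga

set_option autoImplicit false
open MeasureTheory Set Metric

namespace Pool.Agent.Helper160.MF


namespace JL3ft

theorem int_ga (d : ℕ) (t : ℝ) (ht : 0 < t) : Integrable (fun x : Eu d => ga d t x) := by
  refine ⟨(continuous_ga d t).aestronglyMeasurable, ?_⟩
  rw [hasFiniteIntegral_iff_ofReal (Filter.Eventually.of_forall fun x => (ga_pos d t ht x).le)]
  have h := lintegral_ga d t ht 0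
  simp only [sub_zero] at h
  rw [h]
  exact ENNReal.one_lt_top

theorem exp_diff_le (p q : ℂ) (m : ℝ) (hp : m ≤ p.re) (hq : m ≤ q.re) :
    ‖Complex.exp (-p) - Complex.exp (-q)‖ ≤ Real.exp (-m) * ‖p - q‖ := by
  have hconv : Convex ℝ {z : ℂ | m ≤ z.re} := convex_halfSpace_re_ge m
  have h := hconv.norm_image_sub_le_of_norm_hasDerivWithin_le (𝕜 := ℂ)
    (f := fun z => Complex.exp (-z)) (f' := fun z => -Complex.exp (-z)) (C := Real.exp (-m))
    (x := q) (y := p) ?_ ?_ hq hp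
  · exact h
  · intro z _
    have h1 : HasDerivAt (fun z : ℂ => Complex.exp (-z)) (Complex.exp (-z) * (-1)) z :=
      (Complex.hasDerivAt_exp (-z)).comp z (hasDerivAt_neg z)
    have h2 : Complex.exp (-z) * (-1) = -Complex.exp (-z) := by ring
    rw [h2] at h1
    exact h1.hasDerivWithinAt
  · intro z hz
    have hz' : m ≤ z.re := hz
    rw [norm_neg, Complex.norm_exp, Complex.neg_re]
    exact Real.exp_le_exp.2 (by linarith)

theorem cpow_id (X : ℝ) (hX : 0 < X) (Z : ℂ) (hZ : 0 < Z.re) (a : ℂ) :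
    (X : ℂ) ^ (-a) * ((X : ℂ) * Z⁻¹) ^ a = Z ^ (-a) := by
  have hX0 : (X : ℂ) ≠ 0 := by exact_mod_cast hX.ne'
  have hZ0 : Z ≠ 0 := by
    intro h
    rw [h] at hZ
    simp at hZ
  have hZi : Z⁻¹ ≠ 0 := inv_ne_zero hZ0
  have hlog : Complex.log ((X : ℂ) * Z⁻¹) = Complex.log X + -Complex.log Z := by
    rw [Complex.log_ofReal_mul hX hZi, Complex.log_inv Z
      (Complex.slitPlane_arg_ne_pi (Or.inl hZ)), Complex.ofReal_log hX.le]
  rw [Complex.cpow_def_of_ne_zero hX0, Complex.cpow_def_of_ne_zero (mul_ne_zero hX0 hZi),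
    Complex.cpow_def_of_ne_zero hZ0, hlog, ← Complex.exp_add]
  congr 1
  ring

theorem ft_first (d : ℕ) (hd : 16 ≤ d) (ε : ℝ) (hs : 0 < 1 - ε ^ 2) (β : ℝ) (ξ : Eu d) :
    ∫ x : Eu d, Complex.exp (-(2 * Real.pi * inner ℝ x ξ : ℝ) * Complex.I) *
      ((ga d ((1 - ε ^ 2) / d) x : ℂ) *
        Complex.exp (Complex.I * ((β * (Real.sqrt d / 2) * (‖x‖ ^ 2 - (1 - ε ^ 2)) : ℝ) : ℂ))) =
      kap d ε β * Complex.exp (-(((2 * Real.pi ^ 2 * ‖ξ‖ ^ 2 / d * (1 - ε ^ 2) : ℝ) : ℂ) /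
        (1 - Complex.I * (β * (1 - ε ^ 2) / Real.sqrt d : ℝ)))) := by
  have hd0 : (0 : ℝ) < d := by
    have : (0 : ℕ) < d := by omega
    exact_mod_cast this
  have hsd : (0 : ℝ) < Real.sqrt d := Real.sqrt_pos.2 hd0
  have hsq : Real.sqrt d * Real.sqrt d = d := Real.mul_self_sqrt hd0.le
  set s : ℝ := 1 - ε ^ 2 with hsdef
  set Z : ℂ := 1 - Complex.I * (β * s / Real.sqrt d : ℝ) with hZ
  have hZre : Z.re = 1 := by
    rw [hZ]
    simp
  have hZpos : 0 < Z.re := by rw [hZre]; norm_num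
  have hZ0 : Z ≠ 0 := by
    intro h
    rw [h] at hZre
    simp at hZre
  set b : ℂ := ((d / (2 * s) : ℝ) : ℂ) * Z with hb
  have hbre : 0 < b.re := by
    rw [hb, Complex.re_ofReal_mul, hZre, mul_one]
    positivity
  have hX : 0 < 2 * Real.pi * (s / d) := by positivity
  have hpib : (Real.pi : ℂ) / b = ((2 * Real.pi * (s / d) : ℝ) : ℂ) * Z⁻¹ := by
    have h1 : (s : ℂ) ≠ 0 := by exact_mod_cast hs.ne'
    have h2 : (d : ℂ) ≠ 0 := by exact_mod_cast hd0.ne'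
    rw [hb]
    push_cast
    field_simp
  have hgau := GaussianFourier.integral_cexp_neg_mul_sq_norm_add (V := Eu d) hbre
    (-(2 * Real.pi * Complex.I)) ξ
  rw [hpib, finrank_euclideanSpace, Fintype.card_fin] at hgau
  set K : ℂ := ((2 * Real.pi * (s / d) : ℝ) : ℂ) ^ (-((d : ℂ) / 2)) *
    Complex.exp (-(Complex.I * ((β * Real.sqrt d * s / 2 : ℝ) : ℂ))) with hK
  have hint : ∀ x : Eu d, Complex.exp (-(2 * Real.pi * inner ℝ x ξ : ℝ) * Complex.I) *
      ((ga d (s / d) x : ℂ) *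
        Complex.exp (Complex.I * ((β * (Real.sqrt d / 2) * (‖x‖ ^ 2 - s) : ℝ) : ℂ))) =
      K * Complex.exp (-b * ‖x‖ ^ 2 + -(2 * Real.pi * Complex.I) * (inner ℝ ξ x : ℝ)) := by
    intro x
    have h1 : (ga d (s / d) x : ℂ) = ((2 * Real.pi * (s / d) : ℝ) : ℂ) ^ (-((d : ℂ) / 2)) *
        Complex.exp ((-‖x‖ ^ 2 / (2 * (s / d)) : ℝ) : ℂ) := by
      unfold ga
      rw [Complex.ofReal_mul, Complex.ofReal_cpow hX.le, Complex.ofReal_exp]
      congr 2
      push_cast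
      ring
    rw [h1, hK, real_inner_comm ξ x]
    have h2 : ∀ A B C D : ℂ, A * ((B * C) * D) = B * (A * C * D) := by
      intro A B C D; ring
    have h3 : Complex.exp (-(2 * Real.pi * inner ℝ ξ x : ℝ) * Complex.I) *
        Complex.exp ((-‖x‖ ^ 2 / (2 * (s / d)) : ℝ) : ℂ) *
        Complex.exp (Complex.I * ((β * (Real.sqrt d / 2) * (‖x‖ ^ 2 - s) : ℝ) : ℂ)) =
        Complex.exp (-(Complex.I * ((β * Real.sqrt d * s / 2 : ℝ) : ℂ))) *
        Complex.exp (-b * ‖x‖ ^ 2 + -(2 * Real.pi * Complex.I) * (inner ℝ ξ x : ℝ)) := by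
      rw [← Complex.exp_add, ← Complex.exp_add, ← Complex.exp_add]
      congr 1
      have h4 : b = ((d / (2 * s) : ℝ) : ℂ) - Complex.I * ((β * Real.sqrt d / 2 : ℝ) : ℂ) := by
        rw [hb, hZ, mul_sub, mul_one]
        congr 1
        have h5 : d / (2 * s) * (β * s / Real.sqrt d) = β * Real.sqrt d / 2 := by
          have h6 : (d : ℝ) = Real.sqrt d * Real.sqrt d := hsq.symm
          have h7 := hsd.ne'
          have h8 := hs.ne'
          rw [div_mul_div_comm, div_eq_div_iff (by positivity) (by norm_num)]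
          calc (d : ℝ) * (β * s) * 2 = (Real.sqrt d * Real.sqrt d) * (β * s) * 2 := by rw [hsq]
            _ = _ := by ring
        rw [← h5]
        push_cast
        ring
      rw [h4]
      have h5 : (s : ℂ) ≠ 0 := by exact_mod_cast hs.ne'
      have h6 : (d : ℂ) ≠ 0 := by exact_mod_cast hd0.ne'
      push_cast
      field_simp
      ring
    rw [h2, h3]
    ring
  simp only [hint]
  rw [integral_const_mul]
  have hgau' : ∫ x : Eu d, Complex.exp (-b * ‖x‖ ^ 2 +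
      -(2 * Real.pi * Complex.I) * (inner ℝ ξ x : ℝ)) = _ := hgau
  rw [hgau', hK]
  have h9 := cpow_id _ hX Z hZpos ((d : ℂ) / 2)
  have h10 : (-(2 * (Real.pi : ℂ) * Complex.I)) ^ 2 * ‖ξ‖ ^ 2 / (4 * b) =
      -(((2 * Real.pi ^ 2 * ‖ξ‖ ^ 2 / d * s : ℝ) : ℂ) / Z) := by
    have h5 : (s : ℂ) ≠ 0 := by exact_mod_cast hs.ne'
    have h6 : (d : ℂ) ≠ 0 := by exact_mod_cast hd0.ne'
    have h7 : (-(2 * (Real.pi : ℂ) * Complex.I)) ^ 2 = -(4 * Real.pi ^ 2) := by
      rw [neg_sq, mul_pow, mul_pow, Complex.I_sq]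
      ring
    rw [h7, hb]
    push_cast
    field_simp
  rw [h10]
  unfold kap
  rw [← hsdef, ← hZ]
  have h11 : (-(d : ℂ) / 2) = -((d : ℂ) / 2) := by ring
  rw [h11, ← h9]
  ring

/-- Fourier transform of the complex Gaussian kernel minus the multiple of the heat kernel. -/
theorem L3_ft : ∃ C : ℝ, 0 < C ∧ ∀ d : ℕ, 16 ≤ d → ∀ ε : ℝ, 0 < ε → ε ≤ 1 / 64 → ∀ β : ℝ, ∀ ξ : Eu d,
    ‖∫ x : Eu d, Complex.exp (-(2 * Real.pi * inner ℝ x ξ : ℝ) * Complex.I) *
      ((ga d ((1 - ε ^ 2) / d) x : ℂ) *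
        Complex.exp (Complex.I * ((β * (Real.sqrt d / 2) * (‖x‖ ^ 2 - (1 - ε ^ 2)) : ℝ) : ℂ)) -
        kap d ε β * (ga d (1 / d) x : ℂ))‖ ≤
      C * ‖kap d ε β‖ * (ε ^ 2 + |β| / Real.sqrt d) * (1 + β ^ 2 / d) := by
  refine ⟨2, by norm_num, ?_⟩
  intro d hd ε hε0 hε β ξ
  have hd0 : (0 : ℝ) < d := by
    have : (0 : ℕ) < d := by omega
    exact_mod_cast this
  have hsd : (0 : ℝ) < Real.sqrt d := Real.sqrt_pos.2 hd0
  have hsq : Real.sqrt d * Real.sqrt d = d := Real.mul_self_sqrt hd0.le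
  have hε2 : ε ^ 2 ≤ 1 / 2 := by nlinarith
  have hε2' : 0 ≤ ε ^ 2 := sq_nonneg ε
  have hs : 0 < 1 - ε ^ 2 := by linarith
  have hfirst := ft_first d hd ε hs β ξ
  set s : ℝ := 1 - ε ^ 2 with hsdef
  have hs1 : s ≤ 1 := by linarith
  have hs2 : 1 / 2 ≤ s := by linarith
  set Z : ℂ := 1 - Complex.I * (β * s / Real.sqrt d : ℝ) with hZ
  set A : ℝ := 2 * Real.pi ^ 2 * ‖ξ‖ ^ 2 / d with hA
  have hA0 : 0 ≤ A := by positivity
  set e : Eu d → ℂ := fun x => Complex.exp (-(2 * Real.pi * inner ℝ x ξ : ℝ) * Complex.I) with he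
  have hen : ∀ x, ‖e x‖ = 1 := by
    intro x
    rw [he]
    simp only [Complex.norm_exp]
    simp
  have hec : Continuous e := by
    rw [he]
    fun_prop
  -- integrability
  have hi1 : Integrable (fun x : Eu d => e x * ((ga d (s / d) x : ℂ) *
      Complex.exp (Complex.I * ((β * (Real.sqrt d / 2) * (‖x‖ ^ 2 - s) : ℝ) : ℂ)))) := by
    refine Integrable.mono (int_ga d (s / d) (by positivity)) ?_ ?_
    · refine Continuous.aestronglyMeasurable ?_
      refine hec.mul ((Complex.continuous_ofReal.comp (continuous_ga d _)).mul ?_)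
      fun_prop
    · refine Filter.Eventually.of_forall fun x => ?_
      rw [norm_mul, norm_mul, hen, one_mul, Complex.norm_real]
      have h1 : ‖Complex.exp (Complex.I * ((β * (Real.sqrt d / 2) * (‖x‖ ^ 2 - s) : ℝ) : ℂ))‖
          = 1 := by
        rw [Complex.norm_exp, Complex.I_mul_re, Complex.ofReal_im, neg_zero, Real.exp_zero]
      rw [h1, mul_one]
  have hi2 : Integrable (fun x : Eu d => (ga d (1 / d) x : ℂ) *
      Complex.exp (-(2 * Real.pi * Complex.I) * (inner ℝ x ξ : ℝ))) := by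
    refine Integrable.mono (int_ga d (1 / d) (by positivity)) ?_ ?_
    · refine Continuous.aestronglyMeasurable ?_
      refine (Complex.continuous_ofReal.comp (continuous_ga d _)).mul ?_
      fun_prop
    · refine Filter.Eventually.of_forall fun x => ?_
      rw [norm_mul, Complex.norm_real]
      have h1 : ‖Complex.exp (-(2 * Real.pi * Complex.I) * (inner ℝ x ξ : ℝ))‖ = 1 := by
        rw [Complex.norm_exp]
        simp
      rw [h1, mul_one]
  have hsplit : ∀ x : Eu d, e x * ((ga d (s / d) x : ℂ) *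
      Complex.exp (Complex.I * ((β * (Real.sqrt d / 2) * (‖x‖ ^ 2 - s) : ℝ) : ℂ)) -
        kap d ε β * (ga d (1 / d) x : ℂ)) = e x * ((ga d (s / d) x : ℂ) *
      Complex.exp (Complex.I * ((β * (Real.sqrt d / 2) * (‖x‖ ^ 2 - s) : ℝ) : ℂ))) -
      kap d ε β * ((ga d (1 / d) x : ℂ) *
      Complex.exp (-(2 * Real.pi * Complex.I) * (inner ℝ x ξ : ℝ))) := by
    intro x
    have h1 : e x = Complex.exp (-(2 * Real.pi * Complex.I) * (inner ℝ x ξ : ℝ)) := by
      rw [he]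
      simp only
      congr 1
      push_cast
      ring
    rw [← h1]
    ring
  have hfirst' : ∫ x : Eu d, e x * ((ga d (s / d) x : ℂ) *
      Complex.exp (Complex.I * ((β * (Real.sqrt d / 2) * (‖x‖ ^ 2 - s) : ℝ) : ℂ))) =
      kap d ε β * Complex.exp (-(((A * s : ℝ) : ℂ) / Z)) := hfirst
  refine (congrArg norm (integral_congr_ae (Filter.Eventually.of_forall hsplit))).trans_le ?_
  rw [integral_sub hi1 (hi2.const_mul _), integral_const_mul, hfirst',
    integral_ga_cexp d (1 / d) (by positivity) (-(2 * Real.pi * Complex.I)) ξ]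
  have hsec : (-(2 * (Real.pi : ℂ) * Complex.I)) ^ 2 * ((1 / d : ℝ) : ℂ) * ‖ξ‖ ^ 2 / 2 =
      -((A : ℝ) : ℂ) := by
    have h7 : (-(2 * (Real.pi : ℂ) * Complex.I)) ^ 2 = -(4 * Real.pi ^ 2) := by
      rw [neg_sq, mul_pow, mul_pow, Complex.I_sq]
      ring
    rw [h7, hA]
    push_cast
    ring
  rw [hsec, ← mul_sub, norm_mul]
  set τ : ℝ := β / Real.sqrt d with hτ
  have hZ' : Z = 1 - Complex.I * ((τ * s : ℝ) : ℂ) := by
    rw [hZ, hτ]
    congr 3
    ring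
  have hZn : Complex.normSq Z = 1 + (τ * s) ^ 2 := by
    rw [hZ', Complex.normSq_apply]
    simp
    ring
  have hZn1 : 1 ≤ ‖Z‖ := by
    have h1 : Z.re = 1 := by rw [hZ']; simp
    calc (1 : ℝ) = |Z.re| := by rw [h1, abs_one]
      _ ≤ ‖Z‖ := Complex.abs_re_le_norm Z
  have hZ0 : Z ≠ 0 := by
    intro h
    rw [h, norm_zero] at hZn1
    linarith
  have hτ2 : τ ^ 2 = β ^ 2 / d := by
    rw [hτ, div_pow, Real.sq_sqrt hd0.le]
  set c : ℝ := s / (1 + τ ^ 2) with hc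
  have hτ0 : 0 < 1 + τ ^ 2 := by positivity
  have hc0 : 0 < c := div_pos hs hτ0
  have hpre : (((A * s : ℝ) : ℂ) / Z).re = A * s / (1 + (τ * s) ^ 2) := by
    rw [div_eq_mul_inv, Complex.re_ofReal_mul, Complex.inv_re, hZn]
    have h1 : Z.re = 1 := by rw [hZ']; simp
    rw [h1]
    ring
  have hm1 : A * c ≤ (((A * s : ℝ) : ℂ) / Z).re := by
    rw [hpre, hc, mul_div_assoc]
    refine mul_le_mul_of_nonneg_left ?_ hA0
    refine div_le_div_of_nonneg_left hs.le (by positivity) ?_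
    have h1 : (τ * s) ^ 2 ≤ τ ^ 2 := by
      rw [mul_pow]
      have h2 : s ^ 2 ≤ 1 := pow_le_one₀ hs.le hs1
      calc τ ^ 2 * s ^ 2 ≤ τ ^ 2 * 1 := mul_le_mul_of_nonneg_left h2 (sq_nonneg τ)
        _ = τ ^ 2 := mul_one _
    linarith
  have hm2 : A * c ≤ ((A : ℝ) : ℂ).re := by
    rw [Complex.ofReal_re]
    have h1 : c ≤ 1 := by
      rw [hc, div_le_one hτ0]
      have := sq_nonneg τ
      linarith
    calc A * c ≤ A * 1 := mul_le_mul_of_nonneg_left h1 hA0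
      _ = A := mul_one A
  have hdiff := exp_diff_le _ _ _ hm1 hm2
  have hpq : ‖((A * s : ℝ) : ℂ) / Z - ((A : ℝ) : ℂ)‖ ≤ A * (ε ^ 2 + |τ|) := by
    have h1 : ((A * s : ℝ) : ℂ) / Z - ((A : ℝ) : ℂ) =
        (A : ℂ) * ((((s - 1 : ℝ) : ℂ) + Complex.I * ((τ * s : ℝ) : ℂ)) / Z) := by
      have h2 : (((s - 1 : ℝ) : ℂ) + Complex.I * ((τ * s : ℝ) : ℂ)) = (s : ℂ) - Z := by
        rw [hZ']
        push_cast
        ring
      rw [h2, sub_div, div_self hZ0]
      push_cast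
      ring
    rw [h1, norm_mul, norm_div, Complex.norm_real, Real.norm_of_nonneg hA0]
    refine mul_le_mul_of_nonneg_left ?_ hA0
    have h3 : ‖((s - 1 : ℝ) : ℂ) + Complex.I * ((τ * s : ℝ) : ℂ)‖ ≤ ε ^ 2 + |τ| := by
      refine (norm_add_le _ _).trans ?_
      rw [norm_mul, Complex.norm_I, one_mul, Complex.norm_real, Complex.norm_real,
        Real.norm_eq_abs, Real.norm_eq_abs, abs_mul, abs_of_pos hs]
      have h4 : |s - 1| = ε ^ 2 := by
        rw [hsdef]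
        have : (1 - ε ^ 2 - 1 : ℝ) = -(ε ^ 2) := by ring
        rw [this, abs_neg, abs_of_nonneg hε2']
      rw [h4]
      have h5 : |τ| * s ≤ |τ| * 1 := mul_le_mul_of_nonneg_left hs1 (abs_nonneg _)
      linarith
    calc ‖((s - 1 : ℝ) : ℂ) + Complex.I * ((τ * s : ℝ) : ℂ)‖ / ‖Z‖
        ≤ ‖((s - 1 : ℝ) : ℂ) + Complex.I * ((τ * s : ℝ) : ℂ)‖ / 1 :=
          div_le_div_of_nonneg_left (norm_nonneg _) one_pos hZn1
      _ ≤ ε ^ 2 + |τ| := by rw [div_one]; exact h3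
  have hAc : Real.exp (-(A * c)) * A ≤ 2 * (1 + β ^ 2 / d) := by
    have h1 : A * c ≤ Real.exp (A * c) := by
      have := Real.add_one_le_exp (A * c)
      linarith
    have h2 : Real.exp (-(A * c)) * (A * c) ≤ 1 := by
      rw [Real.exp_neg]
      rw [inv_mul_le_iff₀ (Real.exp_pos _), mul_one]
      exact h1
    have h3 : Real.exp (-(A * c)) * A ≤ 1 / c := by
      rw [le_div_iff₀ hc0, mul_assoc]
      exact h2
    refine h3.trans ?_
    rw [hc, one_div_div, ← hτ2, div_le_iff₀ hs]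
    nlinarith
  have hτabs : |τ| = |β| / Real.sqrt d := by
    rw [hτ, abs_div, abs_of_pos hsd]
  rw [← hτabs]
  have hε2τ : 0 ≤ ε ^ 2 + |τ| := add_nonneg hε2' (abs_nonneg _)
  calc ‖kap d ε β‖ * ‖Complex.exp (-(((A * s : ℝ) : ℂ) / Z)) - Complex.exp (-((A : ℝ) : ℂ))‖
      ≤ ‖kap d ε β‖ * (Real.exp (-(A * c)) * ‖((A * s : ℝ) : ℂ) / Z - ((A : ℝ) : ℂ)‖) :=
        mul_le_mul_of_nonneg_left hdiff (norm_nonneg _)
    _ ≤ ‖kap d ε β‖ * (Real.exp (-(A * c)) * (A * (ε ^ 2 + |τ|))) := by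
        refine mul_le_mul_of_nonneg_left ?_ (norm_nonneg _)
        exact mul_le_mul_of_nonneg_left hpq (Real.exp_pos _).le
    _ = ‖kap d ε β‖ * (ε ^ 2 + |τ|) * (Real.exp (-(A * c)) * A) := by ring
    _ ≤ ‖kap d ε β‖ * (ε ^ 2 + |τ|) * (2 * (1 + β ^ 2 / d)) :=
        mul_le_mul_of_nonneg_left hAc (mul_nonneg (norm_nonneg _) hε2τ)
    _ = 2 * ‖kap d ε β‖ * (ε ^ 2 + |τ|) * (1 + β ^ 2 / d) := by ring


end JL3ft

alias L3_ft := JL3ft.L3_ft

end Pool.Agent.Helper160.MF
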