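import Pool.Agent.Helper160.MF.Defs2

set_option autoImplicit false
open MeasureTheory Set Metric

namespace Pool.Agent.Helper160.MF


namespace JL3mult


open scoped FourierTransform ENNReal ContDiff SchwartzMap

theorem mb_fourier_toLp_ae {d : ℕ} (h : Eu d → ℂ) (h1 : Integrable h) (h2 : MemLp h 2) :
    (𝓕 (h2.toLp h : Lp (α := Eu d) ℂ 2) : Lp (α := Eu d) ℂ 2) =ᵐ[volume] 𝓕 h := by
  apply ae_eq_of_integral_contDiff_smul_eq
  · exact (Lp.memLp _).locallyIntegrable (by norm_num)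
  · apply Continuous.locallyIntegrable
    exact VectorFourier.fourierIntegral_continuous Real.continuous_fourierChar
      (innerSL ℝ).continuous₂ h1
  · intro g g_smooth g_cpt
    have hg₁ : HasCompactSupport (Complex.ofRealCLM ∘ g) := g_cpt.comp_left rfl
    have hg₂ : ContDiff ℝ ∞ (Complex.ofRealCLM ∘ g) := by fun_prop
    set G : 𝓢(Eu d, ℂ) := hg₁.toSchwartzMap hg₂ with hG
    have e1 : ∫ x, g x • (𝓕 (h2.toLp h : Lp (α := Eu d) ℂ 2) : Lp (α := Eu d) ℂ 2) x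
        = (Lp.toTemperedDistribution
          (𝓕 (h2.toLp h : Lp (α := Eu d) ℂ 2) : Lp (α := Eu d) ℂ 2)) G := by
      rw [Lp.toTemperedDistribution_apply]
      simp [hG]
    rw [e1, ← Lp.fourier_toTemperedDistribution_eq, TemperedDistribution.fourier_apply,
      Lp.toTemperedDistribution_apply]
    have e2 : ∫ x, (𝓕 G) x • (h2.toLp h : Lp (α := Eu d) ℂ 2) x =
        ∫ x, (𝓕 (G : Eu d → ℂ)) x • h x := by
      apply integral_congr_ae
      filter_upwards [h2.coeFn_toLp] with x hx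
      rw [hx]
      rfl
    rw [e2]
    have e3 : ∫ x, (𝓕 (G : Eu d → ℂ)) x • h x = ∫ x, (G x) • (𝓕 h) x := by
      simpa using! (VectorFourier.integral_fourierIntegral_smul_eq_flip (L := innerₗ (Eu d))
        Real.continuous_fourierChar continuous_inner G.integrable h1)
    rw [e3]
    apply integral_congr_ae
    filter_upwards with x
    simp [hG]

theorem mb_plancherel {d : ℕ} (h : Eu d → ℂ) (h1 : Integrable h) (h2 : MemLp h 2) :
    ∫⁻ ξ, ‖𝓕 h ξ‖ₑ ^ 2 = ∫⁻ t, ‖h t‖ₑ ^ 2 := by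
  have e1 : ‖(𝓕 (h2.toLp h : Lp (α := Eu d) ℂ 2) : Lp (α := Eu d) ℂ 2)‖ₑ =
      ‖(h2.toLp h : Lp (α := Eu d) ℂ 2)‖ₑ := by
    rw [← ofReal_norm, ← ofReal_norm, Lp.norm_fourier_eq]
  rw [Lp.enorm_def, Lp.enorm_def, eLpNorm_congr_ae (mb_fourier_toLp_ae h h1 h2),
    eLpNorm_congr_ae h2.coeFn_toLp] at e1
  have e2 : ∀ f : Eu d → ℂ, eLpNorm f 2 volume = (∫⁻ x, ‖f x‖ₑ ^ 2) ^ (1 / 2 : ℝ) := by
    intro f
    rw [eLpNorm_eq_lintegral_rpow_enorm_toReal (by norm_num) (by norm_num)]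
    simp
  rw [e2, e2] at e1
  exact ENNReal.rpow_left_injective (by norm_num) e1

/-- Plancherel: convolution with an integrable kernel whose Fourier transform is bounded by `M`. -/
theorem mult_bound (d : ℕ) (K : Eu d → ℂ) (hK : Integrable K) (hK2 : MemLp K 2) (M : ℝ) (hM : 0 ≤ M)
    (hF : ∀ ξ : Eu d, ‖∫ x, Complex.exp (-(2 * Real.pi * inner ℝ x ξ : ℝ) * Complex.I) * K x‖ ≤ M)
    (h : Eu d → ℂ) (hh : Integrable h) (hh2 : MemLp h 2) :
    ∫⁻ x : Eu d, ‖∫ z, K (x - z) * h z‖ₑ ^ 2 ≤ ENNReal.ofReal (M ^ 2) * ∫⁻ z, ‖h z‖ₑ ^ 2 := by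
  obtain ⟨F, hFdef⟩ : ∃ F : Eu d → ℂ, ∀ x, F x = ∫ z, K (x - z) * h z := ⟨_, fun _ => rfl⟩
  have hFc : F = convolution h K (ContinuousLinearMap.mul ℂ ℂ) volume := by
    funext x
    rw [hFdef]
    unfold convolution
    congr 1
    funext z
    rw [ContinuousLinearMap.mul_apply', mul_comm]
  have hF1 : Integrable F := by
    rw [hFc]
    exact hh.integrable_convolution (ContinuousLinearMap.mul ℂ ℂ) hK
  have hKsq : Integrable (fun x => ‖K x‖ ^ 2) := (memLp_two_iff_integrable_sq_norm hK2.1).1 hK2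
  have hhsq : Integrable (fun x => ‖h x‖ ^ 2) := (memLp_two_iff_integrable_sq_norm hh2.1).1 hh2
  have hbd : ∀ x, ‖F x‖ ≤ (∫ z, ‖K z‖ ^ 2) + ∫ z, ‖h z‖ ^ 2 := by
    intro x
    rw [hFdef]
    have hKx : Integrable (fun z => ‖K (x - z)‖ ^ 2) := hKsq.comp_sub_left x
    have h1 : ‖∫ z, K (x - z) * h z‖ ≤ ∫ z, (‖K (x - z)‖ ^ 2 + ‖h z‖ ^ 2) := by
      refine norm_integral_le_of_norm_le (hKx.add hhsq) (Filter.Eventually.of_forall fun z => ?_)
      rw [norm_mul]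
      nlinarith [sq_nonneg (‖K (x - z)‖ - ‖h z‖), sq_nonneg (‖K (x - z)‖), sq_nonneg ‖h z‖]
    refine h1.trans (le_of_eq ?_)
    rw [integral_add hKx hhsq]
    congr 1
    exact integral_sub_left_eq_self (fun z => ‖K z‖ ^ 2) volume x
  have hF2 : MemLp F 2 := by
    rw [memLp_two_iff_integrable_sq_norm hF1.1]
    refine (hF1.norm.const_mul ((∫ z, ‖K z‖ ^ 2) + ∫ z, ‖h z‖ ^ 2)).mono' (hF1.1.norm.pow 2) ?_
    refine Filter.Eventually.of_forall fun x => ?_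
    rw [Real.norm_of_nonneg (by positivity), pow_two]
    exact mul_le_mul_of_nonneg_right (hbd x) (norm_nonneg _)
  have hFF : ∀ ξ, 𝓕 F ξ = 𝓕 h ξ * 𝓕 K ξ := by
    intro ξ
    rw [hFc]
    exact Real.fourier_mul_convolution_eq hh hK ξ
  have hKM : ∀ ξ, ‖𝓕 K ξ‖ ≤ M := by
    intro ξ
    rw [Real.fourier_eq']
    refine le_trans (le_of_eq ?_) (hF ξ)
    congr 2
    funext x
    rw [smul_eq_mul]
    congr 3
    push_cast
    ring
  have e1 : ∫⁻ x : Eu d, ‖∫ z, K (x - z) * h z‖ₑ ^ 2 = ∫⁻ x, ‖F x‖ₑ ^ 2 := by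
    refine lintegral_congr fun x => ?_
    rw [hFdef]
  rw [e1, ← mb_plancherel F hF1 hF2, ← mb_plancherel h hh hh2,
    ← lintegral_const_mul' _ _ ENNReal.ofReal_ne_top]
  refine lintegral_mono fun ξ => ?_
  rw [hFF, enorm_mul, mul_pow, mul_comm]
  refine mul_le_mul_left ?_ _
  rw [ENNReal.ofReal_pow hM]
  refine pow_le_pow_left₀ (by positivity) ?_ 2
  rw [← ofReal_norm]
  exact ENNReal.ofReal_le_ofReal (hKM ξ)

end JL3mult

alias mult_bound := JL3mult.mult_bound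

end Pool.Agent.Helper160.MF
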