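import Pool.Agent.Helper160.MF.Defs2
import Pool.Agent.Helper160.MF.Jga
import Pool.Agent.Helper160.MF.JL3mult
import Pool.Agent.Helper160.MF.JL3ft

set_option autoImplicit false
open MeasureTheory Set Metric

namespace Pool.Agent.Helper160.MF


namespace JL3

lemma ga_int352 (d : ℕ) (t : ℝ) (ht : 0 < t) : Integrable (ga d t) := by
  refine ⟨(continuous_ga d t).aestronglyMeasurable, ?_⟩
  rw [hasFiniteIntegral_iff_ofReal (Filter.Eventually.of_forall fun x => (ga_pos d t ht x).le)]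
  have h := lintegral_ga d t ht 0
  simp only [sub_zero] at h
  rw [h]
  exact ENNReal.one_lt_top

lemma ga_le352 (d : ℕ) (t : ℝ) (ht : 0 < t) (x : Eu d) :
    ga d t x ≤ (2 * Real.pi * t) ^ (-(d : ℝ) / 2) := by
  unfold ga
  have h1 : (0 : ℝ) ≤ (2 * Real.pi * t) ^ (-(d : ℝ) / 2) := by positivity
  have h2 : Real.exp (-‖x‖ ^ 2 / (2 * t)) ≤ 1 := by
    rw [Real.exp_le_one_iff, neg_div]
    exact neg_nonpos.2 (by positivity)
  calc _ ≤ (2 * Real.pi * t) ^ (-(d : ℝ) / 2) * 1 := mul_le_mul_of_nonneg_left h2 h1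
    _ = _ := mul_one _

/-- Plancherel estimate: complex Gaussian kernel versus the heat kernel at time `1/d`. -/
theorem L3_bound : ∃ C : ℝ, 0 < C ∧ ∀ d : ℕ, 16 ≤ d → ∀ ε : ℝ, 0 < ε → ε ≤ 1 / 64 → ∀ β : ℝ,
    ∀ h : Eu d → ℂ, Integrable h → MemLp h 2 →
    ∫⁻ x : Eu d, ‖∫ z, ((ga d ((1 - ε ^ 2) / d) (x - z) : ℂ) *
        Complex.exp (Complex.I * ((β * (Real.sqrt d / 2) * (‖x - z‖ ^ 2 - (1 - ε ^ 2)) : ℝ) : ℂ)) -
        kap d ε β * (ga d (1 / d) (x - z) : ℂ)) * h z‖ₑ ^ 2 ≤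
      ENNReal.ofReal (C * ‖kap d ε β‖ ^ 2 * (ε ^ 2 + |β| / Real.sqrt d) ^ 2 * (1 + β ^ 2 / d) ^ 2) *
        ∫⁻ z, ‖h z‖ₑ ^ 2 := by
  obtain ⟨C, hC, hft⟩ := L3_ft
  refine ⟨C ^ 2, by positivity, fun d hd ε hε hε1 β h hh hh2 => ?_⟩
  have hd0 : (0 : ℝ) < d := by exact_mod_cast (by omega : 0 < d)
  have hε2 : ε ^ 2 < 1 := by nlinarith
  have hs : 0 < (1 - ε ^ 2) / (d : ℝ) := div_pos (by linarith) hd0
  have hs1 : 0 < 1 / (d : ℝ) := by positivity
  set K : Eu d → ℂ := fun x => (ga d ((1 - ε ^ 2) / d) x : ℂ) *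
        Complex.exp (Complex.I * ((β * (Real.sqrt d / 2) * (‖x‖ ^ 2 - (1 - ε ^ 2)) : ℝ) : ℂ)) -
        kap d ε β * (ga d (1 / d) x : ℂ) with hKdef
  have hnorm : ∀ x, ‖K x‖ ≤ ga d ((1 - ε ^ 2) / d) x + ‖kap d ε β‖ * ga d (1 / d) x := by
    intro x
    refine (norm_sub_le _ _).trans ?_
    rw [norm_mul, norm_mul, Complex.norm_real, Complex.norm_real, mul_comm Complex.I,
      Complex.norm_exp_ofReal_mul_I, mul_one, Real.norm_of_nonneg (ga_pos d _ hs x).le,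
      Real.norm_of_nonneg (ga_pos d _ hs1 x).le]
  have hcont : Continuous K := by
    have h1 := continuous_ga d ((1 - ε ^ 2) / d)
    have h2 := continuous_ga d (1 / d)
    rw [hKdef]
    fun_prop
  have hKi : Integrable K :=
    Integrable.mono' ((ga_int352 d _ hs).add ((ga_int352 d _ hs1).const_mul ‖kap d ε β‖))
      hcont.aestronglyMeasurable (Filter.Eventually.of_forall hnorm)
  set B : ℝ := (2 * Real.pi * ((1 - ε ^ 2) / d)) ^ (-(d : ℝ) / 2) +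
    ‖kap d ε β‖ * (2 * Real.pi * (1 / d)) ^ (-(d : ℝ) / 2) with hB
  have hbd : ∀ x, ‖K x‖ ≤ B := fun x => (hnorm x).trans
    (add_le_add (ga_le352 d _ hs x) (mul_le_mul_of_nonneg_left (ga_le352 d _ hs1 x) (norm_nonneg _)))
  have hK2 : MemLp K 2 := by
    rw [memLp_two_iff_integrable_sq_norm hcont.aestronglyMeasurable]
    refine Integrable.mono' (hKi.norm.const_mul B) (hcont.norm.pow 2).aestronglyMeasurable
      (Filter.Eventually.of_forall fun x => ?_)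
    rw [Real.norm_of_nonneg (by positivity), sq]
    exact mul_le_mul_of_nonneg_right (hbd x) (norm_nonneg _)
  have hM : 0 ≤ C * ‖kap d ε β‖ * (ε ^ 2 + |β| / Real.sqrt d) * (1 + β ^ 2 / d) := by positivity
  have hres := mult_bound d K hKi hK2 _ hM (hft d hd ε hε hε1 β) h hh hh2
  have hsq : (C * ‖kap d ε β‖ * (ε ^ 2 + |β| / Real.sqrt d) * (1 + β ^ 2 / d)) ^ 2 =
      C ^ 2 * ‖kap d ε β‖ ^ 2 * (ε ^ 2 + |β| / Real.sqrt d) ^ 2 * (1 + β ^ 2 / d) ^ 2 := by ring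
  rw [hsq] at hres
  exact hres

end JL3

alias L3_bound := JL3.L3_bound

end Pool.Agent.Helper160.MF
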