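import Pool.Agent.Helper160.MF.Defs2

set_option autoImplicit false
open MeasureTheory Set Metric

namespace Pool.Agent.Helper160.MF


namespace Jkap

theorem kap_bound : ∃ C : ℝ, 0 < C ∧ ∀ d : ℕ, 16 ≤ d → ∀ ε : ℝ, 0 < ε → ε ≤ 1 / 64 → ∀ β : ℝ,
    ‖kap d ε β‖ * (1 + β ^ 2) ^ 3 ≤ C := by
  refine ⟨17 ^ 4, by norm_num, ?_⟩
  intro d hd ε hε hε1 β
  have hd' : (16:ℝ) ≤ d := by exact_mod_cast hd
  have hd0 : (0:ℝ) < d := by linarith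
  obtain ⟨s, hs⟩ : ∃ s : ℝ, s = 1 - ε ^ 2 := ⟨_, rfl⟩
  have hs2 : 0.98 ≤ s ^ 2 := by
    have h1 : ε ^ 2 ≤ 1 / 4096 := by nlinarith
    have h2 : 0.999 ≤ s := by rw [hs]; linarith
    nlinarith
  obtain ⟨b, hb⟩ : ∃ b : ℝ, b = β * (1 - ε ^ 2) / Real.sqrt d := ⟨_, rfl⟩
  have hb2 : b ^ 2 = β ^ 2 * s ^ 2 / d := by
    rw [hb, div_pow, Real.sq_sqrt hd0.le, ← hs, mul_pow]
  obtain ⟨r, hr⟩ : ∃ r : ℝ, r = ‖(1 - Complex.I * (b : ℂ) : ℂ)‖ := ⟨_, rfl⟩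
  have hr0 : 0 ≤ r := by rw [hr]; exact norm_nonneg _
  have hr2 : r ^ 2 = 1 + b ^ 2 := by
    rw [hr, ← Complex.normSq_eq_norm_sq, Complex.normSq_apply]
    simp
    ring
  have hnorm : ‖kap d ε β‖ = ((1 + b ^ 2) ^ ((d:ℝ) / 4))⁻¹ := by
    unfold kap
    rw [norm_mul, ← hb]
    have e1 : (-(d : ℂ) / 2) = ((-(d:ℝ) / 2 : ℝ) : ℂ) := by push_cast; ring
    have e2 : (-(Complex.I * ((β * Real.sqrt d * (1 - ε ^ 2) / 2 : ℝ) : ℂ))) =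
        ((-(β * Real.sqrt d * (1 - ε ^ 2) / 2) : ℝ) : ℂ) * Complex.I := by push_cast; ring
    rw [e1, e2, Complex.norm_exp_ofReal_mul_I, mul_one, Complex.norm_cpow_real, ← hr, ← hr2,
      ← Real.rpow_natCast r 2, ← Real.rpow_mul hr0, ← Real.rpow_neg hr0]
    congr 1
    push_cast
    ring
  have hbern : 1 + β ^ 2 * s ^ 2 / 16 ≤ (1 + b ^ 2) ^ ((d:ℝ) / 16) := by
    have h1 := one_add_mul_self_le_rpow_one_add (s := b ^ 2) (by nlinarith [sq_nonneg b])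
      (p := (d:ℝ) / 16) (by rw [le_div_iff₀ (by norm_num)]; linarith)
    have h2 : (d:ℝ) / 16 * b ^ 2 = β ^ 2 * s ^ 2 / 16 := by
      rw [hb2]; field_simp
    rw [h2] at h1
    exact h1
  have hY : (1 + b ^ 2) ^ ((d:ℝ) / 4) = ((1 + b ^ 2) ^ ((d:ℝ) / 16)) ^ 4 := by
    rw [← Real.rpow_natCast ((1 + b ^ 2) ^ ((d:ℝ) / 16)) 4, ← Real.rpow_mul (by positivity)]
    congr 1
    push_cast
    ring
  have h17 : (1 + β ^ 2) / 17 ≤ (1 + b ^ 2) ^ ((d:ℝ) / 16) := by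
    refine le_trans ?_ hbern
    nlinarith [mul_le_mul_of_nonneg_left hs2 (sq_nonneg β)]
  have hY2 : ((1 + β ^ 2) / 17) ^ 4 ≤ (1 + b ^ 2) ^ ((d:ℝ) / 4) := by
    rw [hY]
    exact pow_le_pow_left₀ (by positivity) h17 4
  have hYpos : 0 < (1 + b ^ 2) ^ ((d:ℝ) / 4) := by positivity
  rw [hnorm, inv_mul_le_iff₀ hYpos]
  have h3 : (1 + β ^ 2) ^ 3 ≤ (1 + β ^ 2) ^ 4 :=
    pow_le_pow_right₀ (by nlinarith [sq_nonneg β]) (by norm_num)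
  have h4 : ((1 + β ^ 2) / 17) ^ 4 * 17 ^ 4 = (1 + β ^ 2) ^ 4 := by
    rw [div_pow]; field_simp
  calc (1 + β ^ 2) ^ 3 ≤ (1 + β ^ 2) ^ 4 := h3
    _ = ((1 + β ^ 2) / 17) ^ 4 * 17 ^ 4 := h4.symm
    _ ≤ (1 + b ^ 2) ^ ((d:ℝ) / 4) * 17 ^ 4 := mul_le_mul_of_nonneg_right hY2 (by norm_num)

end Jkap

alias kap_bound := Jkap.kap_bound

end Pool.Agent.Helper160.MF
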