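import Pool.Agent.Helper160.MF.Defs2
import Pool.Agent.Helper160.MF.Jga
import Pool.Agent.Helper160.MF.Jkap
import Pool.Agent.Helper160.MF.JL3

set_option autoImplicit false
open MeasureTheory Set Metric

namespace Pool.Agent.Helper160.MF


namespace JC

open ProbabilityTheory in
theorem gauss_le (d : ℕ) (hd : 16 ≤ d) (f : ℝ → ENNReal) (hf : Measurable f) :
    ENNReal.ofReal (Real.sqrt d) * ∫⁻ β, f β ∂(gaussianReal 0 (d : NNReal)) ≤ ∫⁻ β, f β := by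
  have hd0 : (d : NNReal) ≠ 0 := by
    have : d ≠ 0 := by omega
    exact_mod_cast this
  rw [gaussianReal_of_var_ne_zero _ hd0,
    lintegral_withDensity_eq_lintegral_mul _ (measurable_gaussianPDF _ _) hf,
    ← lintegral_const_mul _ ((measurable_gaussianPDF _ _).mul hf)]
  refine lintegral_mono fun β => ?_
  simp only [Pi.mul_apply]
  rw [← mul_assoc]
  have h0 : ENNReal.ofReal (Real.sqrt d) * gaussianPDF 0 (d:NNReal) β ≤ 1 := by
    unfold gaussianPDF gaussianPDFReal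
    rw [← ENNReal.ofReal_mul (by positivity), ENNReal.ofReal_le_one]
    have hdp : (0:ℝ) < d := by
      have : 0 < d := by omega
      exact_mod_cast this
    have h1 : Real.sqrt d ≤ Real.sqrt (2 * Real.pi * ((d:NNReal) : ℝ)) := by
      apply Real.sqrt_le_sqrt
      have := Real.pi_gt_three
      rw [NNReal.coe_natCast]
      nlinarith
    have h2 : Real.exp (-(β - 0) ^ 2 / (2 * ((d:NNReal) : ℝ))) ≤ 1 := by
      rw [Real.exp_le_one_iff]
      apply div_nonpos_of_nonpos_of_nonneg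
      · nlinarith [sq_nonneg (β - 0)]
      · positivity
    have h3 : 0 < Real.sqrt (2 * Real.pi * ((d:NNReal) : ℝ)) := by
      apply Real.sqrt_pos.2
      rw [NNReal.coe_natCast]
      positivity
    calc Real.sqrt d * ((Real.sqrt (2 * Real.pi * ((d:NNReal) : ℝ)))⁻¹ *
          Real.exp (-(β - 0) ^ 2 / (2 * ((d:NNReal) : ℝ))))
        ≤ Real.sqrt (2 * Real.pi * ((d:NNReal) : ℝ)) *
          ((Real.sqrt (2 * Real.pi * ((d:NNReal) : ℝ)))⁻¹ * 1) := by gcongr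
      _ = 1 := by rw [mul_one, mul_inv_cancel₀ h3.ne']
  calc _ ≤ 1 * f β := by gcongr
    _ = f β := one_mul _

theorem lint_pi : ∫⁻ β : ℝ, ENNReal.ofReal ((1 + β ^ 2)⁻¹) = ENNReal.ofReal Real.pi := by
  rw [← integral_univ_inv_one_add_sq, ofReal_integral_eq_lintegral_ofReal integrable_inv_one_add_sq]
  exact Filter.Eventually.of_forall fun x => by positivity

theorem ga_bdd (d : ℕ) (t : ℝ) (ht : 0 < t) : ∃ M, ∀ x, ‖(ga d t x : ℂ)‖ ≤ M := by
  refine ⟨(2 * Real.pi * t) ^ (-(d : ℝ) / 2), fun x => ?_⟩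
  rw [Complex.norm_real, Real.norm_eq_abs, abs_of_pos (ga_pos d t ht x)]
  unfold ga
  have h1 : 0 ≤ (2 * Real.pi * t) ^ (-(d : ℝ) / 2) := by positivity
  have h2 : Real.exp (-‖x‖ ^ 2 / (2 * t)) ≤ 1 := by
    rw [Real.exp_le_one_iff]
    apply div_nonpos_of_nonpos_of_nonneg
    · nlinarith [sq_nonneg ‖x‖]
    · positivity
  calc _ ≤ (2 * Real.pi * t) ^ (-(d : ℝ) / 2) * 1 := by gcongr
    _ = _ := mul_one _

theorem norm_phase (r : ℝ) : ‖Complex.exp (Complex.I * ((r : ℝ) : ℂ))‖ = 1 := by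
  rw [mul_comm]; exact Complex.norm_exp_ofReal_mul_I r

/-- the estimate for a fixed frequency -/
theorem fixed {C : ℝ} {d : ℕ} (hd : 16 ≤ d) {ε : ℝ} (he : 0 < ε) (he' : ε ≤ 1 / 64) (β : ℝ)
    (hC : ∀ h : Eu d → ℂ, Integrable h → MemLp h 2 →
    ∫⁻ x : Eu d, ‖∫ z, ((ga d ((1 - ε ^ 2) / d) (x - z) : ℂ) *
        Complex.exp (Complex.I * ((β * (Real.sqrt d / 2) * (‖x - z‖ ^ 2 - (1 - ε ^ 2)) : ℝ) : ℂ)) -
        kap d ε β * (ga d (1 / d) (x - z) : ℂ)) * h z‖ₑ ^ 2 ≤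
      ENNReal.ofReal C * ∫⁻ z, ‖h z‖ₑ ^ 2)
    {lam : ENNReal} {Q : Type} [MeasurableSpace Q] {μ : Measure Q} {Y Z : Q → Eu d}
    (hD : Dat d ε lam μ Y Z) (hR : RN d lam μ Z) :
    ∫⁻ x : Eu d, ‖H0f d ε μ Y Z β x - kap d ε β * H1f d ε μ Y Z β x‖ₑ ^ 2 ≤
      ENNReal.ofReal C * (lam * μ univ) := by
  have hdp : (0:ℝ) < d := by
    have : 0 < d := by omega
    exact_mod_cast this
  have ht : 0 < (1 - ε ^ 2) / (d : ℝ) := by
    apply div_pos _ hdp
    nlinarith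
  have ht' : 0 < 1 / (d : ℝ) := by positivity
  haveI := hD.fin
  have hmY := hD.mY
  have hmZ := hD.mZ
  set k : Q → ℂ := fun q =>
    Complex.exp (Complex.I * ((β * (Real.sqrt d / 2) * (‖Z q - Y q‖ ^ 2 - ε ^ 2) : ℝ) : ℂ)) with hk
  have hkm : Measurable k := by
    rw [hk]
    have h1 : Measurable fun q => ‖Z q - Y q‖ := (hmZ.sub hmY).norm
    have h2 : Measurable fun q => (β * (Real.sqrt d / 2) * (‖Z q - Y q‖ ^ 2 - ε ^ 2) : ℝ) :=
      ((h1.pow_const 2).sub_const _).const_mul _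
    exact Complex.measurable_exp.comp ((Complex.measurable_ofReal.comp h2).const_mul _)
  obtain ⟨h, hint, hL2, hle, hrep⟩ := hR k hkm (fun q => (norm_phase _).le)
  have hcg : ∀ t : ℝ, ∀ x : Eu d, Continuous fun z : Eu d => (ga d t (x - z) : ℂ) := fun t x =>
    Complex.continuous_ofReal.comp ((continuous_ga d t).comp (continuous_const.sub continuous_id))
  have hce : ∀ x : Eu d, Continuous fun z : Eu d =>
      Complex.exp (Complex.I * ((β * (Real.sqrt d / 2) * (‖x - z‖ ^ 2 - (1 - ε ^ 2)) : ℝ) : ℂ)) := by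
    intro x
    fun_prop
  obtain ⟨M0, hM0⟩ := ga_bdd d ((1 - ε ^ 2) / d) ht
  obtain ⟨M1, hM1⟩ := ga_bdd d (1 / d) ht'
  have hM0' : 0 ≤ M0 := (norm_nonneg _).trans (hM0 0)
  have hM1' : 0 ≤ M1 := (norm_nonneg _).trans (hM1 0)
  refine le_trans (le_of_eq ?_) ((hC h hint hL2).trans (by gcongr))
  refine lintegral_congr fun x => ?_
  have e1 := hrep (fun z => (ga d ((1 - ε ^ 2) / d) (x - z) : ℂ) *
        Complex.exp (Complex.I * ((β * (Real.sqrt d / 2) * (‖x - z‖ ^ 2 - (1 - ε ^ 2)) : ℝ) : ℂ)) -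
        kap d ε β * (ga d (1 / d) (x - z) : ℂ))
    (((hcg _ x).mul (hce x)).sub ((hcg _ x).const_mul _)) ⟨M0 + ‖kap d ε β‖ * M1, fun z => by
      refine (norm_sub_le _ _).trans ?_
      rw [norm_mul, norm_mul, norm_phase, mul_one]
      gcongr
      · exact hM0 _
      · exact hM1 _⟩
  rw [← e1]
  have hi0 : Integrable (fun q => k q * ((ga d ((1 - ε ^ 2) / d) (x - Z q) : ℂ) *
        Complex.exp (Complex.I * ((β * (Real.sqrt d / 2) * (‖x - Z q‖ ^ 2 - (1 - ε ^ 2)) : ℝ) : ℂ)))) μ := by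
    refine Integrable.of_bound (C := M0) ?_ (Filter.Eventually.of_forall fun q => ?_)
    · exact (hkm.mul (((hcg _ x).mul (hce x)).measurable.comp hmZ)).aestronglyMeasurable
    · rw [norm_mul, norm_mul, norm_phase, norm_phase, mul_one, one_mul]
      exact hM0 _
  have hi1 : Integrable (fun q => k q * (ga d (1 / d) (x - Z q) : ℂ)) μ := by
    refine Integrable.of_bound (C := M1) ?_ (Filter.Eventually.of_forall fun q => ?_)
    · exact (hkm.mul ((hcg _ x).measurable.comp hmZ)).aestronglyMeasurable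
    · rw [norm_mul, norm_phase, one_mul]
      exact hM1 _
  have e2 : H0f d ε μ Y Z β x - kap d ε β * H1f d ε μ Y Z β x =
      ∫ q, k q * ((ga d ((1 - ε ^ 2) / d) (x - Z q) : ℂ) *
        Complex.exp (Complex.I * ((β * (Real.sqrt d / 2) * (‖x - Z q‖ ^ 2 - (1 - ε ^ 2)) : ℝ) : ℂ)) -
        kap d ε β * (ga d (1 / d) (x - Z q) : ℂ)) ∂μ := by
    unfold H0f H1f
    rw [← integral_const_mul, ← integral_sub hi0 (hi1.const_mul _)]
    refine integral_congr_ae (Filter.Eventually.of_forall fun q => ?_)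
    simp only [hk]
    ring
  rw [e2]

theorem cs (ν : Measure ℝ) (D : ℝ → ENNReal) (hD : Measurable D) :
    (∫⁻ β, D β ∂ν) ^ 2 ≤ (∫⁻ β, ENNReal.ofReal ((1 + β ^ 2)⁻¹) ∂ν) *
      ∫⁻ β, ENNReal.ofReal (1 + β ^ 2) * D β ^ 2 ∂ν := by
  have hpq : (2 : ℝ).HolderConjugate 2 := Real.HolderConjugate.two_two
  set f : ℝ → ENNReal := fun β => ENNReal.ofReal (Real.sqrt ((1 + β ^ 2)⁻¹)) with hf
  set g : ℝ → ENNReal := fun β => ENNReal.ofReal (Real.sqrt (1 + β ^ 2)) * D β with hg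
  have hfm : Measurable f := by
    rw [hf]; fun_prop
  have hgm : Measurable g := by
    rw [hg]; fun_prop
  have h1 := ENNReal.lintegral_mul_le_Lp_mul_Lq ν hpq hfm.aemeasurable hgm.aemeasurable
  have e1 : ∀ β, (f * g) β = D β := by
    intro β
    simp only [Pi.mul_apply, hf, hg]
    rw [← mul_assoc, ← ENNReal.ofReal_mul (Real.sqrt_nonneg _), ← Real.sqrt_mul (by positivity),
      inv_mul_cancel₀ (by positivity), Real.sqrt_one, ENNReal.ofReal_one, one_mul]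
  have e2 : ∀ β, f β ^ (2:ℝ) = ENNReal.ofReal ((1 + β ^ 2)⁻¹) := by
    intro β
    simp only [hf]
    rw [ENNReal.rpow_two, ← ENNReal.ofReal_pow (Real.sqrt_nonneg _), Real.sq_sqrt (by positivity)]
  have e3 : ∀ β, g β ^ (2:ℝ) = ENNReal.ofReal (1 + β ^ 2) * D β ^ 2 := by
    intro β
    simp only [hg]
    rw [ENNReal.rpow_two, mul_pow, ← ENNReal.ofReal_pow (Real.sqrt_nonneg _),
      Real.sq_sqrt (by positivity)]
  simp only [e1, e2, e3] at h1
  calc (∫⁻ β, D β ∂ν) ^ 2 ≤ ((∫⁻ β, ENNReal.ofReal ((1 + β ^ 2)⁻¹) ∂ν) ^ (1 / (2:ℝ)) *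
      (∫⁻ β, ENNReal.ofReal (1 + β ^ 2) * D β ^ 2 ∂ν) ^ (1 / (2:ℝ))) ^ 2 := by gcongr
    _ = _ := by
      rw [mul_pow, ← ENNReal.rpow_natCast, ← ENNReal.rpow_natCast, ← ENNReal.rpow_mul,
        ← ENNReal.rpow_mul]
      norm_num

theorem meas_kap (d : ℕ) (ε : ℝ) : Measurable (kap d ε) := by
  unfold kap
  have h1 : Measurable fun β : ℝ => (1 - Complex.I * (β * (1 - ε ^ 2) / Real.sqrt d : ℝ) : ℂ) := by
    fun_prop
  exact (h1.pow_const _).mul (by fun_prop)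

theorem meas_H0 {d : ℕ} {ε : ℝ} {Q : Type} [MeasurableSpace Q] {μ : Measure Q} [IsFiniteMeasure μ]
    {Y Z : Q → Eu d} (hY : Measurable Y) (hZ : Measurable Z) :
    Measurable fun p : Eu d × ℝ => H0f d ε μ Y Z p.2 p.1 := by
  unfold H0f
  refine (StronglyMeasurable.integral_prod_right' (f := fun r : (Eu d × ℝ) × Q =>
    Complex.exp (Complex.I * ((r.1.2 * (Real.sqrt d / 2) * (‖Z r.2 - Y r.2‖ ^ 2 - ε ^ 2) : ℝ) : ℂ)) *
    ((ga d ((1 - ε ^ 2) / d) (r.1.1 - Z r.2) : ℂ) *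
      Complex.exp (Complex.I * ((r.1.2 * (Real.sqrt d / 2) *
        (‖r.1.1 - Z r.2‖ ^ 2 - (1 - ε ^ 2)) : ℝ) : ℂ)))) ?_).measurable
  apply Measurable.stronglyMeasurable
  have hY' : Measurable fun r : (Eu d × ℝ) × Q => Y r.2 := hY.comp measurable_snd
  have hZ' : Measurable fun r : (Eu d × ℝ) × Q => Z r.2 := hZ.comp measurable_snd
  have hg : Measurable fun r : (Eu d × ℝ) × Q => ga d ((1 - ε ^ 2) / d) (r.1.1 - Z r.2) :=
    (continuous_ga d _).measurable.comp (by fun_prop)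
  fun_prop

theorem meas_H1 {d : ℕ} {ε : ℝ} {Q : Type} [MeasurableSpace Q] {μ : Measure Q} [IsFiniteMeasure μ]
    {Y Z : Q → Eu d} (hY : Measurable Y) (hZ : Measurable Z) :
    Measurable fun p : Eu d × ℝ => H1f d ε μ Y Z p.2 p.1 := by
  unfold H1f
  refine (StronglyMeasurable.integral_prod_right' (f := fun r : (Eu d × ℝ) × Q =>
    Complex.exp (Complex.I * ((r.1.2 * (Real.sqrt d / 2) * (‖Z r.2 - Y r.2‖ ^ 2 - ε ^ 2) : ℝ) : ℂ)) *
    (ga d (1 / d) (r.1.1 - Z r.2) : ℂ)) ?_).measurable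
  apply Measurable.stronglyMeasurable
  have hY' : Measurable fun r : (Eu d × ℝ) × Q => Y r.2 := hY.comp measurable_snd
  have hZ' : Measurable fun r : (Eu d × ℝ) × Q => Z r.2 := hZ.comp measurable_snd
  have hg : Measurable fun r : (Eu d × ℝ) × Q => ga d (1 / d) (r.1.1 - Z r.2) :=
    (continuous_ga d _).measurable.comp (by fun_prop)
  fun_prop

open ProbabilityTheory in
theorem core {d : ℕ} (hd : 16 ≤ d) (D : Eu d → ℝ → ENNReal) (hDm : Measurable (Function.uncurry D))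
    {A : ℝ} (hA0 : 0 ≤ A) {m : ENNReal}
    (hfix : ∀ β, ∫⁻ x, D x β ^ 2 ≤ ENNReal.ofReal (A * ((1 + β ^ 2)⁻¹) ^ 3) * m) :
    ∫⁻ x : Eu d, (ENNReal.ofReal (Real.sqrt d) * ∫⁻ β : ℝ,
        D x β ∂(gaussianReal 0 (d : NNReal))) ^ 2 ≤
      ENNReal.ofReal Real.pi * ((ENNReal.ofReal A * m) * ENNReal.ofReal Real.pi) := by
  have hpi := Real.pi_pos
  have hDx : ∀ x, Measurable (D x) := fun x => hDm.comp measurable_prodMk_left
  have hDb : ∀ β, Measurable fun x => D x β := fun β => hDm.comp measurable_prodMk_right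
  have hCS : ∀ x, (ENNReal.ofReal (Real.sqrt d) * ∫⁻ β, D x β ∂(gaussianReal 0 (d : NNReal))) ^ 2 ≤
      ENNReal.ofReal Real.pi * (ENNReal.ofReal (Real.sqrt d) *
        ∫⁻ β, ENNReal.ofReal (1 + β ^ 2) * D x β ^ 2 ∂(gaussianReal 0 (d : NNReal))) := by
    intro x
    have h1 := cs (gaussianReal 0 (d : NNReal)) (D x) (hDx x)
    have h2 := gauss_le d hd (fun β => ENNReal.ofReal ((1 + β ^ 2)⁻¹)) (by fun_prop)
    rw [lint_pi] at h2
    calc (ENNReal.ofReal (Real.sqrt d) * ∫⁻ β, D x β ∂(gaussianReal 0 (d : NNReal))) ^ 2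
        = ENNReal.ofReal (Real.sqrt d) ^ 2 * (∫⁻ β, D x β ∂(gaussianReal 0 (d : NNReal))) ^ 2 :=
          mul_pow _ _ _
      _ ≤ ENNReal.ofReal (Real.sqrt d) ^ 2 *
          ((∫⁻ β, ENNReal.ofReal ((1 + β ^ 2)⁻¹) ∂(gaussianReal 0 (d : NNReal))) *
            ∫⁻ β, ENNReal.ofReal (1 + β ^ 2) * D x β ^ 2 ∂(gaussianReal 0 (d : NNReal))) := by gcongr
      _ = (ENNReal.ofReal (Real.sqrt d) *
            ∫⁻ β, ENNReal.ofReal ((1 + β ^ 2)⁻¹) ∂(gaussianReal 0 (d : NNReal))) *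
          (ENNReal.ofReal (Real.sqrt d) *
            ∫⁻ β, ENNReal.ofReal (1 + β ^ 2) * D x β ^ 2 ∂(gaussianReal 0 (d : NNReal))) := by ring
      _ ≤ _ := by gcongr
  have hjm : Measurable (Function.uncurry fun (x : Eu d) (β : ℝ) =>
      ENNReal.ofReal (1 + β ^ 2) * D x β ^ 2) := by
    have h1 : Measurable fun p : Eu d × ℝ => ENNReal.ofReal (1 + p.2 ^ 2) := by fun_prop
    exact h1.mul (hDm.pow_const 2)
  calc ∫⁻ x : Eu d, (ENNReal.ofReal (Real.sqrt d) * ∫⁻ β : ℝ,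
        D x β ∂(gaussianReal 0 (d : NNReal))) ^ 2
      ≤ ∫⁻ x : Eu d, ENNReal.ofReal Real.pi * (ENNReal.ofReal (Real.sqrt d) *
        ∫⁻ β, ENNReal.ofReal (1 + β ^ 2) * D x β ^ 2 ∂(gaussianReal 0 (d : NNReal))) :=
        lintegral_mono hCS
    _ = ENNReal.ofReal Real.pi * (ENNReal.ofReal (Real.sqrt d) *
        ∫⁻ x : Eu d, ∫⁻ β, ENNReal.ofReal (1 + β ^ 2) * D x β ^ 2 ∂(gaussianReal 0 (d : NNReal))) := by
        rw [lintegral_const_mul, lintegral_const_mul]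
        · exact hjm.lintegral_prod_right'
        · exact (hjm.lintegral_prod_right').const_mul _
    _ = ENNReal.ofReal Real.pi * (ENNReal.ofReal (Real.sqrt d) *
        ∫⁻ β, (∫⁻ x : Eu d, ENNReal.ofReal (1 + β ^ 2) * D x β ^ 2) ∂(gaussianReal 0 (d : NNReal))) := by
        rw [lintegral_lintegral_swap hjm.aemeasurable]
    _ ≤ ENNReal.ofReal Real.pi * (ENNReal.ofReal (Real.sqrt d) *
        ∫⁻ β, (ENNReal.ofReal A * m) * ENNReal.ofReal ((1 + β ^ 2)⁻¹)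
          ∂(gaussianReal 0 (d : NNReal))) := by
        refine mul_le_mul' le_rfl (mul_le_mul' le_rfl (lintegral_mono fun β => ?_))
        rw [lintegral_const_mul _ ((hDb β).pow_const 2)]
        calc ENNReal.ofReal (1 + β ^ 2) * ∫⁻ x, D x β ^ 2
            ≤ ENNReal.ofReal (1 + β ^ 2) *
              (ENNReal.ofReal (A * ((1 + β ^ 2)⁻¹) ^ 3) * m) := by
              gcongr; exact hfix β
          _ = ENNReal.ofReal ((1 + β ^ 2) * (A * ((1 + β ^ 2)⁻¹) ^ 3)) * m := by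
              rw [← mul_assoc, ← ENNReal.ofReal_mul (by positivity)]
          _ ≤ ENNReal.ofReal (A * (1 + β ^ 2)⁻¹) * m := by
              refine mul_le_mul' (ENNReal.ofReal_le_ofReal ?_) le_rfl
              have hb : 0 < 1 + β ^ 2 := by positivity
              have hb1 : (1 + β ^ 2)⁻¹ ≤ 1 := inv_le_one_of_one_le₀ (by nlinarith [sq_nonneg β])
              have hb0 : 0 ≤ (1 + β ^ 2)⁻¹ := by positivity
              have e : (1 + β ^ 2) * (A * ((1 + β ^ 2)⁻¹) ^ 3) =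
                  A * (1 + β ^ 2)⁻¹ * (1 + β ^ 2)⁻¹ := by
                field_simp
              rw [e]
              calc A * (1 + β ^ 2)⁻¹ * (1 + β ^ 2)⁻¹ ≤ A * (1 + β ^ 2)⁻¹ * 1 := by gcongr
                _ = _ := mul_one _
          _ = _ := by
              rw [ENNReal.ofReal_mul hA0]; ring
    _ ≤ ENNReal.ofReal Real.pi *
        ∫⁻ β, (ENNReal.ofReal A * m) * ENNReal.ofReal ((1 + β ^ 2)⁻¹) := by
        gcongr
        exact gauss_le d hd _ (by fun_prop)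
    _ = ENNReal.ofReal Real.pi * ((ENNReal.ofReal A * m) * ENNReal.ofReal Real.pi) := by
        rw [lintegral_const_mul _ (by fun_prop), lint_pi]

theorem meas_D {d : ℕ} {ε : ℝ} {Q : Type} [MeasurableSpace Q] {μ : Measure Q} [IsFiniteMeasure μ]
    {Y Z : Q → Eu d} (hY : Measurable Y) (hZ : Measurable Z) :
    Measurable (Function.uncurry fun (x : Eu d) (β : ℝ) =>
      ‖H0f d ε μ Y Z β x - kap d ε β * H1f d ε μ Y Z β x‖ₑ) := by
  have h1 := meas_H0 (ε := ε) (μ := μ) hY hZ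
  have h2 := meas_H1 (ε := ε) (μ := μ) hY hZ
  have h3 : Measurable fun p : Eu d × ℝ => kap d ε p.2 := (meas_kap d ε).comp measurable_snd
  have h4 : Measurable fun p : Eu d × ℝ =>
      H0f d ε μ Y Z p.2 p.1 - kap d ε p.2 * H1f d ε μ Y Z p.2 p.1 := Measurable.sub h1 (Measurable.mul h3 h2)
  have h5 := h4.enorm
  exact h5

open ProbabilityTheory in
theorem stepC : ∃ C : ℝ, 0 < C ∧ ∀ d : ℕ, 16 ≤ d → ∀ ε : ℝ, 0 < ε → ε ≤ 1 / 64 →
    ∀ (lam : ENNReal), lam ≠ ⊤ → ∀ (Q : Type) [MeasurableSpace Q] (μ : Measure Q) (Y Z : Q → Eu d),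
    Dat d ε lam μ Y Z → RN d lam μ Z →
    ∫⁻ x : Eu d, (ENNReal.ofReal (Real.sqrt d) * ∫⁻ β : ℝ,
        ‖H0f d ε μ Y Z β x - kap d ε β * H1f d ε μ Y Z β x‖ₑ ∂(gaussianReal 0 (d : NNReal))) ^ 2 ≤
      ENNReal.ofReal (C * (ε + 1 / d)) * lam * μ univ := by
  obtain ⟨C1, hC1, hk⟩ := kap_bound
  obtain ⟨C3, hC3, h3⟩ := L3_bound
  have hpi := Real.pi_pos
  refine ⟨2 * C3 * C1 ^ 2 * Real.pi ^ 2, by positivity, ?_⟩
  intro d hd ε he he' lam hlam Q _ μ Y Z hD hR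
  have hdp : (16:ℝ) ≤ d := by exact_mod_cast hd
  have := hD.fin
  have hmY := hD.mY
  have hmZ := hD.mZ
  set A : ℝ := 2 * C3 * C1 ^ 2 * (ε + 1 / d) with hA
  have hA0 : 0 ≤ A := by positivity
  have hfix : ∀ β, ∫⁻ x : Eu d, ‖H0f d ε μ Y Z β x - kap d ε β * H1f d ε μ Y Z β x‖ₑ ^ 2 ≤ ENNReal.ofReal (A * ((1 + β ^ 2)⁻¹) ^ 3) * (lam * μ univ) := by
    intro β
    refine (fixed hd he he' β (h3 d hd ε he he' β) hD hR).trans ?_
    refine mul_le_mul' (ENNReal.ofReal_le_ofReal ?_) le_rfl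
    have hb : 0 < 1 + β ^ 2 := by positivity
    have k1 : ‖kap d ε β‖ ≤ C1 * ((1 + β ^ 2)⁻¹) ^ 3 := by
      have := hk d hd ε he he' β
      rw [inv_pow, ← div_eq_mul_inv, le_div_iff₀ (by positivity)]
      exact this
    have k2 : ‖kap d ε β‖ ^ 2 ≤ C1 ^ 2 * ((1 + β ^ 2)⁻¹) ^ 6 := by
      calc ‖kap d ε β‖ ^ 2 ≤ (C1 * ((1 + β ^ 2)⁻¹) ^ 3) ^ 2 := by gcongr
        _ = _ := by ring
    have k3 : (ε ^ 2 + |β| / Real.sqrt d) ^ 2 ≤ 2 * ((ε + 1 / d) * (1 + β ^ 2)) := by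
      have s1 : (|β| / Real.sqrt d) ^ 2 = β ^ 2 / d := by
        rw [div_pow, sq_abs, Real.sq_sqrt (by positivity)]
      have s2 : (ε ^ 2 + |β| / Real.sqrt d) ^ 2 ≤ 2 * ((ε ^ 2) ^ 2 + (|β| / Real.sqrt d) ^ 2) := by
        nlinarith [sq_nonneg (ε ^ 2 - |β| / Real.sqrt d)]
      have s3 : (ε ^ 2) ^ 2 ≤ ε := by
        have : ε ≤ 1 := by linarith
        have h4 : ε ^ 4 ≤ ε ^ 1 := pow_le_pow_of_le_one he.le this (by norm_num)
        calc (ε ^ 2) ^ 2 = ε ^ 4 := by ring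
          _ ≤ ε ^ 1 := h4
          _ = ε := pow_one _
      have s4 : β ^ 2 / d = (1 / d) * β ^ 2 := by ring
      have s5 : 0 ≤ ε * β ^ 2 := by positivity
      have s6 : (0:ℝ) ≤ 1 / d := by positivity
      rw [s1, s4] at s2
      nlinarith
    have k4 : (1 + β ^ 2 / d) ^ 2 ≤ (1 + β ^ 2) ^ 2 := by
      have : β ^ 2 / d ≤ β ^ 2 := div_le_self (sq_nonneg _) (by linarith)
      gcongr
    calc C3 * ‖kap d ε β‖ ^ 2 * (ε ^ 2 + |β| / Real.sqrt d) ^ 2 * (1 + β ^ 2 / d) ^ 2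
        ≤ C3 * (C1 ^ 2 * ((1 + β ^ 2)⁻¹) ^ 6) * (2 * ((ε + 1 / d) * (1 + β ^ 2))) *
          (1 + β ^ 2) ^ 2 := by gcongr
      _ = A * (((1 + β ^ 2)⁻¹) ^ 3 * ((1 + β ^ 2)⁻¹ * (1 + β ^ 2)) ^ 3) := by rw [hA]; ring
      _ = A * ((1 + β ^ 2)⁻¹) ^ 3 := by rw [inv_mul_cancel₀ hb.ne']; ring
  refine (core hd _ (meas_D hmY hmZ) hA0 hfix).trans (le_of_eq ?_)
  have e : 2 * C3 * C1 ^ 2 * Real.pi ^ 2 * (ε + 1 / d) = Real.pi * (A * Real.pi) := by
    rw [hA]; ring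
  rw [e, ENNReal.ofReal_mul hpi.le, ENNReal.ofReal_mul hA0]
  ring

end JC

alias stepC := JC.stepC

end Pool.Agent.Helper160.MF
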