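import Pool.Agent.Helper160.MF.Defs2
import Pool.Agent.Helper160.MF.Jkap

set_option autoImplicit false
open MeasureTheory Set Metric

namespace Pool.Agent.Helper160.MF


namespace JD

open ProbabilityTheory in
theorem stepD : ∃ C : ℝ, 0 < C ∧ ∀ d : ℕ, 16 ≤ d → ∀ ε : ℝ, 0 < ε → ε ≤ 1 / 64 →
    ENNReal.ofReal (Real.sqrt d) * ∫⁻ β : ℝ, ‖kap d ε β‖ₑ ∂(gaussianReal 0 (d : NNReal)) ≤ ENNReal.ofReal C := by
  obtain ⟨C, hC, hk⟩ := kap_bound
  refine ⟨C * Real.pi, mul_pos hC Real.pi_pos, ?_⟩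
  intro d hd ε hε hε1
  have hdpos : (0 : ℝ) < d := by
    have : 0 < d := by omega
    exact_mod_cast this
  have hd0 : (d : NNReal) ≠ 0 := by
    have : d ≠ 0 := by omega
    exact_mod_cast this
  have hkb : ∀ β : ℝ, ‖kap d ε β‖ ≤ C * (1 + β ^ 2)⁻¹ := by
    intro β
    have h1 := hk d hd ε hε hε1 β
    have h2 : (1 : ℝ) ≤ 1 + β ^ 2 := by nlinarith [sq_nonneg β]
    have h3 : (1 : ℝ) + β ^ 2 ≤ (1 + β ^ 2) ^ 3 := by
      calc (1 : ℝ) + β ^ 2 = (1 + β ^ 2) ^ 1 := by ring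
        _ ≤ (1 + β ^ 2) ^ 3 := pow_le_pow_right₀ h2 (by norm_num)
    have h4 : ‖kap d ε β‖ * (1 + β ^ 2) ≤ C :=
      le_trans (mul_le_mul_of_nonneg_left h3 (norm_nonneg _)) h1
    rw [← div_eq_mul_inv, le_div_iff₀ (by positivity)]
    exact h4
  have hpdf : ∀ β : ℝ, gaussianPDF 0 (d : NNReal) β ≤ ENNReal.ofReal ((Real.sqrt (2 * Real.pi * d))⁻¹) := by
    intro β
    unfold gaussianPDF gaussianPDFReal
    apply ENNReal.ofReal_le_ofReal
    have h1 : Real.exp (-(β - 0) ^ 2 / (2 * ((d : NNReal) : ℝ))) ≤ 1 := by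
      apply Real.exp_le_one_iff.mpr
      have : 0 ≤ (β - 0) ^ 2 / (2 * ((d : NNReal) : ℝ)) := by positivity
      have h5 : -(β - 0) ^ 2 / (2 * ((d : NNReal) : ℝ)) = - ((β - 0) ^ 2 / (2 * ((d : NNReal) : ℝ))) := by ring
      rw [h5]
      linarith
    calc (Real.sqrt (2 * Real.pi * ((d : NNReal) : ℝ)))⁻¹ * Real.exp (-(β - 0) ^ 2 / (2 * ((d : NNReal) : ℝ)))
        ≤ (Real.sqrt (2 * Real.pi * ((d : NNReal) : ℝ)))⁻¹ * 1 :=
          mul_le_mul_of_nonneg_left h1 (by positivity)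
      _ = (Real.sqrt (2 * Real.pi * d))⁻¹ := by
          rw [mul_one]; norm_num
  have hsq : Real.sqrt d * (Real.sqrt (2 * Real.pi * d))⁻¹ ≤ 1 := by
    rw [← div_eq_mul_inv, div_le_one (by positivity)]
    apply Real.sqrt_le_sqrt
    have : (1 : ℝ) ≤ 2 * Real.pi := by nlinarith [Real.pi_gt_three]
    nlinarith
  rw [gaussianReal_of_var_ne_zero 0 hd0]
  calc ENNReal.ofReal (Real.sqrt d) * ∫⁻ β : ℝ, ‖kap d ε β‖ₑ ∂(volume.withDensity (gaussianPDF 0 (d : NNReal)))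
      = ENNReal.ofReal (Real.sqrt d) * ∫⁻ β : ℝ, gaussianPDF 0 (d : NNReal) β * ‖kap d ε β‖ₑ := by
        congr 1
        rw [lintegral_withDensity_eq_lintegral_mul_non_measurable _ (measurable_gaussianPDF 0 (d : NNReal))]
        · rfl
        · exact Filter.Eventually.of_forall (fun β => by
            unfold gaussianPDF
            exact ENNReal.ofReal_lt_top)
    _ ≤ ENNReal.ofReal (Real.sqrt d) * ∫⁻ β : ℝ, ENNReal.ofReal ((Real.sqrt (2 * Real.pi * d))⁻¹) *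
          ENNReal.ofReal (C * (1 + β ^ 2)⁻¹) := by
        gcongr with β
        · exact hpdf β
        · rw [← ofReal_norm]
          exact ENNReal.ofReal_le_ofReal (hkb β)
    _ = ENNReal.ofReal (Real.sqrt d * (Real.sqrt (2 * Real.pi * d))⁻¹) *
          ∫⁻ β : ℝ, ENNReal.ofReal (C * (1 + β ^ 2)⁻¹) := by
        rw [lintegral_const_mul' _ _ ENNReal.ofReal_ne_top, ← mul_assoc,
          ENNReal.ofReal_mul (Real.sqrt_nonneg _)]
    _ ≤ 1 * ∫⁻ β : ℝ, ENNReal.ofReal (C * (1 + β ^ 2)⁻¹) := by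
        gcongr
        exact ENNReal.ofReal_le_one.mpr hsq
    _ = ENNReal.ofReal (C * Real.pi) := by
        rw [one_mul, ← ofReal_integral_eq_lintegral_ofReal]
        · rw [integral_const_mul, integral_univ_inv_one_add_sq]
        · exact integrable_inv_one_add_sq.const_mul C
        · exact Filter.Eventually.of_forall (fun β => by positivity)
    _ ≤ ENNReal.ofReal (C * Real.pi) := le_refl _

end JD

alias stepD := JD.stepD

end Pool.Agent.Helper160.MF
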