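import Pool.Agent.Helper160.MF.Defs2

set_option autoImplicit false
open MeasureTheory Set Metric

namespace Pool.Agent.Helper160.MF


namespace JRN

/-- the measure with density `P` on pairs, and the retraction making the pairs close -/
theorem rn_P (d : ℕ) (ε : ℝ) (hε : 0 < ε) (lam : ENNReal) (hl : lam ≠ ⊤) (P : Eu d → Eu d → ENNReal)
    (hP : Measurable (fun q : Eu d × Eu d => P q.1 q.2))
    (hs : ∀ y z, P y z ≠ 0 → ‖z - y‖ ≤ ε) (hf : ∀ y z, P y z ≠ ⊤)
    (hm : ∀ z, ∫⁻ y, P y z ≤ lam) (hfin : ∫⁻ y, ∫⁻ z, P y z ≠ ⊤) :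
    ∃ (μ : Measure (Eu d × Eu d)) (Y Z : Eu d × Eu d → Eu d), Dat d ε lam μ Y Z ∧ RN d lam μ Z ∧
      μ univ = ∫⁻ y, ∫⁻ z, P y z ∧
      (∀ F : Eu d → Eu d → ENNReal, Measurable (fun q : Eu d × Eu d => F q.1 q.2) →
        ∫⁻ q, F (Y q) (Z q) ∂μ = ∫⁻ y, ∫⁻ z, P y z * F y z) := by
  classical
  set ν : Measure (Eu d × Eu d) := (volume : Measure (Eu d)).prod (volume : Measure (Eu d)) with hν
  set p : Eu d × Eu d → ENNReal := fun q => P q.1 q.2 with hp
  set μ : Measure (Eu d × Eu d) := ν.withDensity p with hμ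
  have hY : Measurable (fun q : Eu d × Eu d => if ‖q.2 - q.1‖ ≤ ε then q.1 else q.2) :=
    Measurable.ite (measurableSet_le ((measurable_snd.sub measurable_fst).norm) measurable_const)
      measurable_fst measurable_snd
  have huniv : μ univ = ∫⁻ y, ∫⁻ z, P y z := by
    rw [hμ, withDensity_apply _ MeasurableSet.univ, Measure.restrict_univ, hν,
      lintegral_prod _ hP.aemeasurable]
  have huniv2 : μ univ = ∫⁻ z, ∫⁻ y, P y z := by
    rw [hμ, withDensity_apply _ MeasurableSet.univ, Measure.restrict_univ, hν,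
      lintegral_prod_symm' _ hP]
  have hfm : IsFiniteMeasure μ := ⟨by rw [huniv]; exact lt_top_iff_ne_top.2 hfin⟩
  have hgm : Measurable fun z : Eu d => ∫⁻ y, P y z := hP.lintegral_prod_left'
  refine ⟨μ, fun q => if ‖q.2 - q.1‖ ≤ ε then q.1 else q.2, Prod.snd, ?_, ?_, huniv, ?_⟩
  · refine ⟨hfm, hY, measurable_snd, ?_, ?_⟩
    · intro q
      show ‖q.2 - (if ‖q.2 - q.1‖ ≤ ε then q.1 else q.2)‖ ≤ ε
      split_ifs with h
      · exact h
      · simp only [sub_self, norm_zero]
        exact hε.le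
    · intro F hF
      have h1 : Measurable fun q : Eu d × Eu d => F q.2 := hF.comp measurable_snd
      rw [hμ, lintegral_withDensity_eq_lintegral_mul ν hP h1, hν,
        lintegral_prod_symm' _ (hP.mul h1)]
      rw [← lintegral_const_mul _ hF]
      refine lintegral_mono fun z => ?_
      have h2 : ∫⁻ y, (p * fun q : Eu d × Eu d => F q.2) (y, z) = (∫⁻ y, P y z) * F z := by
        rw [← lintegral_mul_const]
        · rfl
        · exact hP.comp (measurable_id.prodMk measurable_const)
      show ∫⁻ y, (p * fun q : Eu d × Eu d => F q.2) (y, z) ≤ lam * F z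
      rw [h2]
      exact mul_le_mul_left (hm z) _
  · intro k hk hk1
    set f : Eu d × Eu d → ℂ := fun q => ((p q).toReal : ℂ) * k q with hfdef
    have hfmeas : Measurable f := (Complex.measurable_ofReal.comp hP.ennreal_toReal).mul hk
    have hfn : ∀ q, ‖f q‖ₑ ≤ p q := by
      intro q
      rw [hfdef]
      simp only
      rw [enorm_mul]
      have h1 : ‖((p q).toReal : ℂ)‖ₑ = p q := by
        rw [← ofReal_norm, Complex.norm_real, Real.norm_of_nonneg ENNReal.toReal_nonneg,
          ENNReal.ofReal_toReal (hf _ _)]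
      have h2 : ‖k q‖ₑ ≤ 1 := by
        rw [← ofReal_norm]
        exact ENNReal.ofReal_le_one.2 (hk1 q)
      rw [h1]
      calc p q * ‖k q‖ₑ ≤ p q * 1 := mul_le_mul_right h2 _
        _ = p q := mul_one _
    have hhm : StronglyMeasurable fun z : Eu d => ∫ y, f (y, z) :=
      hfmeas.stronglyMeasurable.integral_prod_left'
    have hhb : ∀ z, ‖∫ y, f (y, z)‖ₑ ≤ ∫⁻ y, P y z := by
      intro z
      exact (enorm_integral_le_lintegral_enorm _).trans (lintegral_mono fun y => hfn (y, z))
    have hsq : ∫⁻ z, ‖∫ y, f (y, z)‖ₑ ^ 2 ≤ lam * μ univ := by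
      rw [huniv2, ← lintegral_const_mul _ hgm]
      refine lintegral_mono fun z => ?_
      show ‖∫ y, f (y, z)‖ₑ ^ 2 ≤ lam * ∫⁻ y, P y z
      rw [sq]
      exact mul_le_mul' ((hhb z).trans (hm z)) (hhb z)
    refine ⟨fun z => ∫ y, f (y, z), ⟨hhm.aestronglyMeasurable, ?_⟩,
      ⟨hhm.aestronglyMeasurable, ?_⟩, hsq, ?_⟩
    · refine lt_of_le_of_lt (lintegral_mono hhb) ?_
      rw [← huniv2]
      exact measure_lt_top _ _
    · rw [eLpNorm_lt_top_iff_lintegral_rpow_enorm_lt_top (by norm_num) (by norm_num)]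
      refine lt_of_le_of_lt (lintegral_mono fun z => ?_)
        (lt_of_le_of_lt hsq (ENNReal.mul_lt_top (lt_top_iff_ne_top.2 hl) (measure_lt_top _ _)))
      rw [ENNReal.toReal_ofNat]
      exact le_of_eq (ENNReal.rpow_ofNat _ 2)
    · intro φ hφ ⟨M, hM⟩
      have hint0 : Integrable (fun q : Eu d × Eu d => k q * φ q.2) μ := by
        refine Integrable.of_bound (C := M)
          ((hk.mul (hφ.measurable.comp measurable_snd)).aestronglyMeasurable) ?_
        refine Filter.Eventually.of_forall fun q => ?_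
        rw [norm_mul]
        calc ‖k q‖ * ‖φ q.2‖ ≤ 1 * M :=
              mul_le_mul (hk1 q) (hM _) (norm_nonneg _) zero_le_one
          _ = M := one_mul _
      have hlt : ∀ᵐ q ∂ν, p q < ⊤ := Filter.Eventually.of_forall fun q => lt_top_iff_ne_top.2 (hf _ _)
      have hint1 : Integrable (fun q : Eu d × Eu d => (p q).toReal • (k q * φ q.2)) ν :=
        (integrable_withDensity_iff_integrable_smul' hP hlt).1 hint0
      rw [hμ, integral_withDensity_eq_integral_toReal_smul hP hlt, hν, integral_prod_symm _ hint1]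
      refine integral_congr_ae (Filter.Eventually.of_forall fun z => ?_)
      show ∫ y, (p (y, z)).toReal • (k (y, z) * φ z) = φ z * ∫ y, f (y, z)
      rw [← integral_const_mul]
      refine integral_congr_ae (Filter.Eventually.of_forall fun y => ?_)
      show (p (y, z)).toReal • (k (y, z) * φ z) = φ z * (((p (y, z)).toReal : ℂ) * k (y, z))
      rw [Complex.real_smul]
      ring
  · intro F hF
    have h1 : Measurable fun q : Eu d × Eu d =>
        F (if ‖q.2 - q.1‖ ≤ ε then q.1 else q.2) q.2 := hF.comp (hY.prodMk measurable_snd)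
    rw [hμ, lintegral_withDensity_eq_lintegral_mul ν hP h1]
    have h2 : ∫⁻ q, (p * fun q : Eu d × Eu d => F (if ‖q.2 - q.1‖ ≤ ε then q.1 else q.2) q.2) q ∂ν =
        ∫⁻ q, P q.1 q.2 * F q.1 q.2 ∂ν := by
      refine lintegral_congr fun q => ?_
      show P q.1 q.2 * F (if ‖q.2 - q.1‖ ≤ ε then q.1 else q.2) q.2 = P q.1 q.2 * F q.1 q.2
      by_cases h0 : P q.1 q.2 = 0
      · rw [h0, zero_mul, zero_mul]
      · rw [if_pos (hs _ _ h0)]
    refine h2.trans ?_
    rw [hν]
    exact lintegral_prod _ (hP.mul hF).aemeasurable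

end JRN

alias rn_P := JRN.rn_P

end Pool.Agent.Helper160.MF
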