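import Pool.Agent.Helper160.MF.Defs2
import Pool.Agent.Helper160.MF.JA
import Pool.Agent.Helper160.MF.JB
import Pool.Agent.Helper160.MF.JC
import Pool.Agent.Helper160.MF.JD
import Pool.Agent.Helper160.MF.JRN
import Pool.Agent.Helper160.MF.Jga
import Pool.Agent.Helper160.MF.Jkap

set_option autoImplicit false
open MeasureTheory Set Metric

namespace Pool.Agent.Helper160.MF

namespace JML
open ProbabilityTheory

theorem meas_ga {d : ℕ} (t : ℝ) {X : Type*} [MeasurableSpace X] {f : X → Eu d} (hf : Measurable f) :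
    Measurable (fun x => ga d t (f x)) :=
  (continuous_ga d t).measurable.comp hf

theorem sm_Hf {d : ℕ} {ε : ℝ} {Q : Type} [MeasurableSpace Q] (μ : Measure Q) [IsFiniteMeasure μ]
    {Y Z : Q → Eu d} (hY : Measurable Y) (hZ : Measurable Z) :
    Measurable (fun p : Eu d × (ℝ × ℝ) => Hf d ε μ Y Z (Real.sqrt 10 * p.2.1) p.2.2 p.1) := by
  unfold Hf
  refine (StronglyMeasurable.integral_prod_right' (f := fun r : (Eu d × (ℝ × ℝ)) × Q =>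
    (ga d ((1 - ε ^ 2) / d) (r.1.1 - Z r.2) : ℂ) *
    Complex.exp ((Real.sqrt 10 * r.1.2.1 * Real.sqrt d * inner ℝ (r.1.1 - Z r.2) (Z r.2 - Y r.2) : ℝ)
      + Complex.I * ((r.1.2.2 * (Real.sqrt d / 2) * (‖r.1.1 - Y r.2‖ ^ 2 - 1) : ℝ) : ℂ))) ?_).measurable
  apply Measurable.stronglyMeasurable
  have h1 : Measurable (fun r : (Eu d × (ℝ × ℝ)) × Q => r.1.1 - Z r.2) := by fun_prop
  have h2 := meas_ga (d := d) ((1 - ε ^ 2) / d) h1
  have h3 : Measurable (fun r : (Eu d × (ℝ × ℝ)) × Q => inner ℝ (r.1.1 - Z r.2) (Z r.2 - Y r.2)) :=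
    h1.inner (by fun_prop)
  fun_prop

theorem sm_H0f {d : ℕ} {ε : ℝ} {Q : Type} [MeasurableSpace Q] (μ : Measure Q) [IsFiniteMeasure μ]
    {Y Z : Q → Eu d} (hY : Measurable Y) (hZ : Measurable Z) :
    Measurable (fun p : Eu d × ℝ => H0f d ε μ Y Z p.2 p.1) := by
  unfold H0f
  refine (StronglyMeasurable.integral_prod_right' (f := fun r : (Eu d × ℝ) × Q =>
    Complex.exp (Complex.I * ((r.1.2 * (Real.sqrt d / 2) * (‖Z r.2 - Y r.2‖ ^ 2 - ε ^ 2) : ℝ) : ℂ)) *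
    ((ga d ((1 - ε ^ 2) / d) (r.1.1 - Z r.2) : ℂ) *
      Complex.exp (Complex.I * ((r.1.2 * (Real.sqrt d / 2) * (‖r.1.1 - Z r.2‖ ^ 2 - (1 - ε ^ 2)) : ℝ) : ℂ)))) ?_).measurable
  apply Measurable.stronglyMeasurable
  have h1 : Measurable (fun r : (Eu d × ℝ) × Q => r.1.1 - Z r.2) := by fun_prop
  have h2 := meas_ga (d := d) ((1 - ε ^ 2) / d) h1
  fun_prop

theorem sm_H1f {d : ℕ} {ε : ℝ} {Q : Type} [MeasurableSpace Q] (μ : Measure Q) [IsFiniteMeasure μ]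
    {Y Z : Q → Eu d} (hY : Measurable Y) (hZ : Measurable Z) :
    Measurable (fun p : Eu d × ℝ => H1f d ε μ Y Z p.2 p.1) := by
  unfold H1f
  refine (StronglyMeasurable.integral_prod_right' (f := fun r : (Eu d × ℝ) × Q =>
    Complex.exp (Complex.I * ((r.1.2 * (Real.sqrt d / 2) * (‖Z r.2 - Y r.2‖ ^ 2 - ε ^ 2) : ℝ) : ℂ)) *
    (ga d (1 / d) (r.1.1 - Z r.2) : ℂ)) ?_).measurable
  apply Measurable.stronglyMeasurable
  have h1 : Measurable (fun r : (Eu d × ℝ) × Q => r.1.1 - Z r.2) := by fun_prop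
  have h2 := meas_ga (d := d) (1 / d) h1
  fun_prop

theorem meas_kap (d : ℕ) (ε : ℝ) : Measurable (fun β : ℝ => kap d ε β) := by
  unfold kap
  fun_prop

theorem H1f_le {d : ℕ} {ε : ℝ} {Q : Type} [MeasurableSpace Q] (μ : Measure Q)
    (Y Z : Q → Eu d) (β : ℝ) (x : Eu d) :
    ‖H1f d ε μ Y Z β x‖ₑ ≤ ∫⁻ q, ENNReal.ofReal (ga d (1 / d) (x - Z q)) ∂μ := by
  unfold H1f
  refine (enorm_integral_le_lintegral_enorm _).trans ?_
  refine lintegral_mono fun q => ?_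
  rw [enorm_mul]
  have h1 : ‖Complex.exp (Complex.I * ((β * (Real.sqrt d / 2) * (‖Z q - Y q‖ ^ 2 - ε ^ 2) : ℝ) : ℂ))‖ₑ = 1 := by
    rw [← ofReal_norm_eq_enorm, mul_comm Complex.I, Complex.norm_exp_ofReal_mul_I]
    simp
  have h0 : 0 ≤ ga d (1 / d) (x - Z q) := by unfold ga; positivity
  have h2 : ‖((ga d (1 / d) (x - Z q) : ℝ) : ℂ)‖ₑ = ENNReal.ofReal (ga d (1 / d) (x - Z q)) := by
    rw [← ofReal_norm_eq_enorm, Complex.norm_real, Real.norm_of_nonneg h0]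
  rw [h1, h2, one_mul]

theorem add_sq_le (a b : ENNReal) : (a + b) ^ 2 ≤ 2 * a ^ 2 + 2 * b ^ 2 := by
  have := ENNReal.rpow_add_le_mul_rpow_add_rpow a b (p := 2) (by norm_num)
  norm_num at this
  rw [mul_add] at this
  exact_mod_cast this

/-- the unit scale estimate -/
theorem ML_unit : ∃ C : ℝ, 0 < C ∧ ∀ d : ℕ, 16 ≤ d → ∀ ε : ℝ, 0 < ε → ε ≤ 1 / 64 →
    ∀ (lam : ENNReal), lam ≠ ⊤ → ∀ P : Eu d → Eu d → ENNReal,
    Measurable (fun q : Eu d × Eu d => P q.1 q.2) →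
    (∀ y z, P y z ≠ 0 → ‖z - y‖ ≤ ε) → (∀ y z, P y z ≠ ⊤) →
    (∀ z, ∫⁻ y, P y z ≤ lam) → (∫⁻ y, ∫⁻ z, P y z ≠ ⊤) →
    ∃ w : Eu d → ENNReal, Measurable w ∧
      (∀ x, ∫⁻ y, ∫⁻ z, P y z * ENNReal.ofReal (Ak d ε x y z) ≤
        ENNReal.ofReal C * (∫⁻ z, (∫⁻ y, P y z) * ENNReal.ofReal (ga d (1 / d) (x - z))) + w x) ∧
      ∫⁻ x, w x ^ 2 ≤ ENNReal.ofReal (C * (ε + 1 / d)) * lam * ∫⁻ y, ∫⁻ z, P y z := by
  obtain ⟨CB, hCB, HB⟩ := stepB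
  obtain ⟨CC, hCC, HC⟩ := stepC
  obtain ⟨CD, hCD, HD⟩ := stepD
  refine ⟨CD + 2 * CB + 2 * CC, by positivity, ?_⟩
  intro d hd ε hε hε1 lam hl P hP hs hf hm hfin
  obtain ⟨μ, Y, Z, hDat, hRN, hmass, hF⟩ := rn_P d ε hε lam hl P hP hs hf hm hfin
  haveI : IsFiniteMeasure μ := hDat.fin
  have hY := hDat.mY
  have hZ := hDat.mZ
  set ν1 := gaussianReal 0 1 with hν1
  set ν2 := gaussianReal 0 (d : NNReal) with hν2
  have mH := sm_Hf (ε := ε) μ hY hZ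
  have mH0 := sm_H0f (ε := ε) μ hY hZ
  have mH1 := sm_H1f (ε := ε) μ hY hZ
  have mk := meas_kap d ε
  have mH0' : Measurable (fun p : Eu d × (ℝ × ℝ) => H0f d ε μ Y Z p.2.2 p.1) := by
    exact mH0.comp (by fun_prop : Measurable (fun p : Eu d × (ℝ × ℝ) => ((p.1, p.2.2) : Eu d × ℝ)))
  set w1 : Eu d → ENNReal := fun x => ENNReal.ofReal (Real.sqrt d) * ∫⁻ p : ℝ × ℝ,
        ‖Hf d ε μ Y Z (Real.sqrt 10 * p.1) p.2 x - H0f d ε μ Y Z p.2 x‖ₑ ∂(ν1.prod ν2) with hw1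
  set w2 : Eu d → ENNReal := fun x => ENNReal.ofReal (Real.sqrt d) * ∫⁻ β : ℝ,
        ‖H0f d ε μ Y Z β x - kap d ε β * H1f d ε μ Y Z β x‖ₑ ∂ν2 with hw2
  have mw1 : Measurable w1 := by
    refine Measurable.const_mul ?_ _
    exact Measurable.lintegral_prod_right' (f := fun p : Eu d × (ℝ × ℝ) =>
      ‖Hf d ε μ Y Z (Real.sqrt 10 * p.2.1) p.2.2 p.1 - H0f d ε μ Y Z p.2.2 p.1‖ₑ) (mH.sub mH0').enorm
  have mw2 : Measurable w2 := by
    refine Measurable.const_mul ?_ _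
    exact Measurable.lintegral_prod_right' (f := fun p : Eu d × ℝ =>
      ‖H0f d ε μ Y Z p.2 p.1 - kap d ε p.2 * H1f d ε μ Y Z p.2 p.1‖ₑ)
      (mH0.sub ((mk.comp measurable_snd).mul mH1)).enorm
  refine ⟨fun x => w1 x + w2 x, mw1.add mw2, ?_, ?_⟩
  · intro x
    have e1 : ∫⁻ y, ∫⁻ z, P y z * ENNReal.ofReal (Ak d ε x y z) =
        ∫⁻ q, ENNReal.ofReal (Ak d ε x (Y q) (Z q)) ∂μ := by
      refine (hF (fun y z => ENNReal.ofReal (Ak d ε x y z)) ?_).symm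
      unfold Ak
      have h2 := meas_ga (d := d) ((1 - ε ^ 2) / d) (by fun_prop : Measurable (fun q : Eu d × Eu d => x - q.2))
      have h3 : Measurable (fun q : Eu d × Eu d => inner ℝ (x - q.2) (q.2 - q.1)) :=
        (by fun_prop : Measurable (fun q : Eu d × Eu d => x - q.2)).inner (by fun_prop)
      fun_prop
    rw [e1]
    refine (stepA d hd ε hε hε1 lam hl μ Y Z hDat x).trans ?_
    have e2 : ∫⁻ p : ℝ × ℝ, ‖Hf d ε μ Y Z (Real.sqrt 10 * p.1) p.2 x‖ₑ ∂(ν1.prod ν2) ≤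
        ∫⁻ p : ℝ × ℝ, (‖Hf d ε μ Y Z (Real.sqrt 10 * p.1) p.2 x - H0f d ε μ Y Z p.2 x‖ₑ +
          (‖H0f d ε μ Y Z p.2 x - kap d ε p.2 * H1f d ε μ Y Z p.2 x‖ₑ +
            ‖kap d ε p.2‖ₑ * ∫⁻ q, ENNReal.ofReal (ga d (1 / d) (x - Z q)) ∂μ)) ∂(ν1.prod ν2) := by
      refine lintegral_mono fun p => ?_
      have h1 : Hf d ε μ Y Z (Real.sqrt 10 * p.1) p.2 x =
        (Hf d ε μ Y Z (Real.sqrt 10 * p.1) p.2 x - H0f d ε μ Y Z p.2 x) +
          ((H0f d ε μ Y Z p.2 x - kap d ε p.2 * H1f d ε μ Y Z p.2 x) + kap d ε p.2 * H1f d ε μ Y Z p.2 x) := by ring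
      calc ‖Hf d ε μ Y Z (Real.sqrt 10 * p.1) p.2 x‖ₑ
          = ‖(Hf d ε μ Y Z (Real.sqrt 10 * p.1) p.2 x - H0f d ε μ Y Z p.2 x) +
          ((H0f d ε μ Y Z p.2 x - kap d ε p.2 * H1f d ε μ Y Z p.2 x) + kap d ε p.2 * H1f d ε μ Y Z p.2 x)‖ₑ := by
            rw [← h1]
        _ ≤ _ := by
            refine (enorm_add_le _ _).trans (add_le_add le_rfl ?_)
            refine (enorm_add_le _ _).trans (add_le_add le_rfl ?_)
            rw [enorm_mul]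
            exact mul_le_mul_right (H1f_le μ Y Z p.2 x) _
    have m1 : Measurable (fun p : ℝ × ℝ => ‖Hf d ε μ Y Z (Real.sqrt 10 * p.1) p.2 x - H0f d ε μ Y Z p.2 x‖ₑ) := by
      exact ((mH.comp (by fun_prop : Measurable (fun p : ℝ × ℝ => ((x, p) : Eu d × (ℝ × ℝ))))).sub
        (mH0'.comp (by fun_prop : Measurable (fun p : ℝ × ℝ => ((x, p) : Eu d × (ℝ × ℝ)))))).enorm
    have m2 : Measurable (fun β : ℝ => ‖H0f d ε μ Y Z β x - kap d ε β * H1f d ε μ Y Z β x‖ₑ) := by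
      exact ((mH0.comp (by fun_prop : Measurable (fun p : ℝ => ((x, p) : Eu d × ℝ)))).sub
        (mk.mul (mH1.comp (by fun_prop : Measurable (fun p : ℝ => ((x, p) : Eu d × ℝ)))))).enorm
    have m2' : Measurable (fun p : ℝ × ℝ => ‖H0f d ε μ Y Z p.2 x - kap d ε p.2 * H1f d ε μ Y Z p.2 x‖ₑ) :=
      m2.comp measurable_snd
    have sndi : ∀ g : ℝ → ENNReal, Measurable g → ∫⁻ p : ℝ × ℝ, g p.2 ∂(ν1.prod ν2) = ∫⁻ β, g β ∂ν2 := by
      intro g hg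
      have h1 := lintegral_prod (μ := ν1) (ν := ν2) (fun p : ℝ × ℝ => g p.2) (hg.comp measurable_snd).aemeasurable
      rw [h1]
      simp
    have e3 : ∫⁻ p : ℝ × ℝ, (‖Hf d ε μ Y Z (Real.sqrt 10 * p.1) p.2 x - H0f d ε μ Y Z p.2 x‖ₑ +
          (‖H0f d ε μ Y Z p.2 x - kap d ε p.2 * H1f d ε μ Y Z p.2 x‖ₑ +
            ‖kap d ε p.2‖ₑ * ∫⁻ q, ENNReal.ofReal (ga d (1 / d) (x - Z q)) ∂μ)) ∂(ν1.prod ν2) =
        ∫⁻ p : ℝ × ℝ, ‖Hf d ε μ Y Z (Real.sqrt 10 * p.1) p.2 x - H0f d ε μ Y Z p.2 x‖ₑ ∂(ν1.prod ν2) +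
        (∫⁻ β, ‖H0f d ε μ Y Z β x - kap d ε β * H1f d ε μ Y Z β x‖ₑ ∂ν2 +
          (∫⁻ β, ‖kap d ε β‖ₑ ∂ν2) * ∫⁻ q, ENNReal.ofReal (ga d (1 / d) (x - Z q)) ∂μ) := by
      rw [lintegral_add_left m1, lintegral_add_left m2', sndi _ m2]
      congr 2
      rw [sndi (fun β => ‖kap d ε β‖ₑ * ∫⁻ q, ENNReal.ofReal (ga d (1 / d) (x - Z q)) ∂μ) (mk.enorm.mul_const _)]
      rw [lintegral_mul_const _ mk.enorm]
    have e4 : ∫⁻ q, ENNReal.ofReal (ga d (1 / d) (x - Z q)) ∂μ =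
        ∫⁻ z, (∫⁻ y, P y z) * ENNReal.ofReal (ga d (1 / d) (x - z)) := by
      have mg : Measurable (fun q : Eu d × Eu d => ENNReal.ofReal (ga d (1 / d) (x - q.2))) :=
        (meas_ga (d := d) (1 / d) (by fun_prop : Measurable (fun q : Eu d × Eu d => x - q.2))).ennreal_ofReal
      have h1 := hF (fun _ z => ENNReal.ofReal (ga d (1 / d) (x - z))) mg
      rw [h1, lintegral_lintegral_swap (hP.mul mg).aemeasurable]
      refine lintegral_congr fun z => ?_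
      rw [lintegral_mul_const]
      exact hP.comp (by fun_prop : Measurable (fun y : Eu d => ((y, z) : Eu d × Eu d)))
    calc ENNReal.ofReal (Real.sqrt d) * ∫⁻ p : ℝ × ℝ, ‖Hf d ε μ Y Z (Real.sqrt 10 * p.1) p.2 x‖ₑ ∂(ν1.prod ν2)
        ≤ ENNReal.ofReal (Real.sqrt d) * (∫⁻ p : ℝ × ℝ, ‖Hf d ε μ Y Z (Real.sqrt 10 * p.1) p.2 x - H0f d ε μ Y Z p.2 x‖ₑ ∂(ν1.prod ν2) +
        (∫⁻ β, ‖H0f d ε μ Y Z β x - kap d ε β * H1f d ε μ Y Z β x‖ₑ ∂ν2 +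
          (∫⁻ β, ‖kap d ε β‖ₑ ∂ν2) * ∫⁻ q, ENNReal.ofReal (ga d (1 / d) (x - Z q)) ∂μ)) := by
          rw [← e3]; exact mul_le_mul_right e2 _
      _ = (ENNReal.ofReal (Real.sqrt d) * ∫⁻ β, ‖kap d ε β‖ₑ ∂ν2) *
            (∫⁻ q, ENNReal.ofReal (ga d (1 / d) (x - Z q)) ∂μ) + (w1 x + w2 x) := by
          rw [hw1, hw2]; ring
      _ ≤ ENNReal.ofReal (CD + 2 * CB + 2 * CC) *
            (∫⁻ z, (∫⁻ y, P y z) * ENNReal.ofReal (ga d (1 / d) (x - z))) + (w1 x + w2 x) := by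
          rw [e4]
          gcongr
          refine (HD d hd ε hε hε1).trans (ENNReal.ofReal_le_ofReal (by linarith))
  · have hB := HB d hd ε hε hε1 lam hl _ μ Y Z hDat
    have hC := HC d hd ε hε hε1 lam hl _ μ Y Z hDat hRN
    rw [hmass] at hB hC
    have hd0 : (0 : ℝ) < d := by exact_mod_cast (by omega : 0 < d)
    calc ∫⁻ x, (w1 x + w2 x) ^ 2 ≤ ∫⁻ x, (2 * w1 x ^ 2 + 2 * w2 x ^ 2) := lintegral_mono fun x => add_sq_le _ _
      _ = 2 * (∫⁻ x, w1 x ^ 2) + 2 * ∫⁻ x, w2 x ^ 2 := by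
          rw [lintegral_add_left ((mw1.pow_const 2).const_mul 2), lintegral_const_mul _ (mw1.pow_const 2),
            lintegral_const_mul _ (mw2.pow_const 2)]
      _ ≤ 2 * (ENNReal.ofReal (CB * ε) * lam * ∫⁻ y, ∫⁻ z, P y z) +
          2 * (ENNReal.ofReal (CC * (ε + 1 / d)) * lam * ∫⁻ y, ∫⁻ z, P y z) := by
          gcongr
      _ = (2 * ENNReal.ofReal (CB * ε) + 2 * ENNReal.ofReal (CC * (ε + 1 / d))) * lam * ∫⁻ y, ∫⁻ z, P y z := by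
          ring
      _ ≤ ENNReal.ofReal ((CD + 2 * CB + 2 * CC) * (ε + 1 / d)) * lam * ∫⁻ y, ∫⁻ z, P y z := by
          gcongr
          rw [show (2 : ENNReal) = ENNReal.ofReal 2 by simp, ← ENNReal.ofReal_mul (by norm_num),
            ← ENNReal.ofReal_mul (by norm_num), ← ENNReal.ofReal_add (by positivity) (by positivity)]
          refine ENNReal.ofReal_le_ofReal ?_
          have h1 : 0 < 1 / (d : ℝ) := by positivity
          nlinarith [mul_pos hCB h1, mul_pos hCD h1, mul_pos hCD hε]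

end JML

alias ML_unit := JML.ML_unit

end Pool.Agent.Helper160.MF
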