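import Pool.Agent.Helper160.MF.Defs2

set_option autoImplicit false
open MeasureTheory Set Metric

namespace Pool.Agent.Helper160.MF


namespace Jbasic

theorem qd_pos (d : ℕ) : 0 < qd d := Real.rpow_pos_of_pos (by norm_num) _

theorem qd_pow (d : ℕ) (hd : 1 ≤ d) : qd d ^ d = 1 / 2 := by
  have hd0 : (d : ℝ) ≠ 0 := by
    have : 0 < d := hd
    exact_mod_cast this.ne'
  unfold qd
  rw [← Real.rpow_natCast, ← Real.rpow_mul (by norm_num), one_div_mul_cancel hd0, Real.rpow_one]

theorem qd_ge (d : ℕ) (hd : 1 ≤ d) : 1 - Real.log 2 / d ≤ qd d := by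
  unfold qd
  rw [Real.rpow_def_of_pos (by norm_num)]
  have h1 := Real.add_one_le_exp (Real.log (1 / 2) * (1 / (d : ℝ)))
  have h2 : Real.log (1 / 2) = - Real.log 2 := by
    rw [one_div, Real.log_inv]
  rw [h2] at h1 ⊢
  have h3 : -Real.log 2 * (1 / (d : ℝ)) = -(Real.log 2 / d) := by ring
  rw [h3] at h1 ⊢
  linarith

theorem qd_lt_one (d : ℕ) (hd : 1 ≤ d) : qd d < 1 := by
  have hd0 : (0 : ℝ) < d := by exact_mod_cast hd
  exact Real.rpow_lt_one (by norm_num) (by norm_num) (by positivity)

theorem measurableSet_shell (d : ℕ) (R : ℝ) : MeasurableSet (shell d R) := by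
  unfold shell
  exact (measurableSet_lt measurable_const measurable_norm).inter
    (measurableSet_lt measurable_norm measurable_const)

theorem volume_shell (d : ℕ) (hd : 1 ≤ d) (R : ℝ) (hR : 0 < R) :
    volume (shell d R) = volume (ball (0 : Eu d) R) / 2 := by
  have hq := qd_pos d
  have hq1 := qd_lt_one d hd
  have e1 : shell d R = ball (0 : Eu d) R \ closedBall (0 : Eu d) (qd d * R) := by
    ext x
    unfold shell
    simp only [mem_ofPred_eq, mem_sdiff, mem_ball_zero_iff, mem_closedBall_zero_iff, not_le]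
    exact and_comm
  have hsub : closedBall (0 : Eu d) (qd d * R) ⊆ ball (0 : Eu d) R :=
    closedBall_subset_ball (by nlinarith)
  have e2 : volume (closedBall (0 : Eu d) (qd d * R)) = volume (ball (0 : Eu d) R) / 2 := by
    rw [Measure.addHaar_closedBall _ _ (by positivity), Measure.addHaar_ball_of_pos _ _ hR,
      finrank_euclideanSpace_fin, mul_pow, qd_pow d hd]
    rw [ENNReal.ofReal_mul (by norm_num)]
    have : ENNReal.ofReal (1 / 2) = 2⁻¹ := by
      rw [one_div, ENNReal.ofReal_inv_of_pos (by norm_num)]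
      simp
    rw [this, ENNReal.div_eq_inv_mul, mul_assoc]
  rw [e1, measure_sdiff hsub measurableSet_closedBall.nullMeasurableSet
    (measure_closedBall_lt_top).ne, e2]
  exact ENNReal.sub_half (measure_ball_lt_top).ne

theorem lintegral_bs (d : ℕ) (hd : 1 ≤ d) (R : ℝ) (hR : 0 < R) (y : Eu d) :
    ∫⁻ x, bs d R (x - y) = 1 := by
  rw [lintegral_sub_right_eq_self (fun x => bs d R x) y]
  unfold bs
  have h1 : ∫⁻ x, (shell d R).indicator (fun _ => (volume (shell d R))⁻¹) x =
      (volume (shell d R))⁻¹ * volume (shell d R) :=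
    lintegral_indicator_const (measurableSet_shell d R) _
  rw [h1]
  apply ENNReal.inv_mul_cancel
  · rw [volume_shell d hd R hR]
    apply (ENNReal.div_pos _ (by norm_num)).ne'
    exact (measure_ball_pos _ _ hR).ne'
  · rw [volume_shell d hd R hR]
    exact (ENNReal.div_lt_top (measure_ball_lt_top).ne (by norm_num)).ne

end Jbasic

alias qd_pos := Jbasic.qd_pos
alias qd_pow := Jbasic.qd_pow
alias qd_ge := Jbasic.qd_ge
alias qd_lt_one := Jbasic.qd_lt_one
alias measurableSet_shell := Jbasic.measurableSet_shell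
alias volume_shell := Jbasic.volume_shell
alias lintegral_bs := Jbasic.lintegral_bs

end Pool.Agent.Helper160.MF
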