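import Pool.Agent.Helper160.MF.Defs2
import Pool.Agent.Helper160.MF.Jbasic

set_option autoImplicit false
open MeasureTheory Set Metric

namespace Pool.Agent.Helper160.MF


namespace Jfar

lemma ratio_pow (d : ℕ) (hd : 16 ≤ d) : ((d : ℝ) / ((d : ℝ) - 2)) ^ d ≤ 16 := by
  have hd' : (16 : ℝ) ≤ d := by exact_mod_cast hd
  have h2 : (0 : ℝ) < (d : ℝ) - 2 := by linarith
  have h1 : (d : ℝ) / ((d : ℝ) - 2) ≤ Real.exp (2 / ((d : ℝ) - 2)) := by
    have := Real.add_one_le_exp (2 / ((d : ℝ) - 2))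
    have e : (d : ℝ) / ((d : ℝ) - 2) = 2 / ((d : ℝ) - 2) + 1 := by
      field_simp
      ring
    rw [e]; exact this
  have h3 : ((d : ℝ) / ((d : ℝ) - 2)) ^ d ≤ Real.exp (2 / ((d : ℝ) - 2)) ^ d := by
    apply pow_le_pow_left₀ _ h1
    positivity
  refine h3.trans ?_
  rw [← Real.exp_nat_mul]
  have h4 : (d : ℝ) * (2 / ((d : ℝ) - 2)) ≤ 5 / 2 := by
    rw [← mul_div_assoc, div_le_iff₀ h2]
    linarith
  refine (Real.exp_le_exp.mpr h4).trans ?_
  have h5 : Real.exp (5 / 2) ^ 2 = Real.exp 1 ^ 5 := by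
    rw [← Real.exp_nat_mul, ← Real.exp_nat_mul]
    norm_num
  have h6 : Real.exp 1 < 2.7182818286 := Real.exp_one_lt_d9
  have h7 : Real.exp 1 ^ 5 ≤ 2.7182818286 ^ 5 := by
    apply pow_le_pow_left₀ (Real.exp_pos 1).le h6.le
  have h8 : Real.exp (5 / 2) ^ 2 ≤ 16 ^ 2 := by
    rw [h5]
    refine h7.trans ?_
    norm_num
  have h9 : (0 : ℝ) ≤ Real.exp (5 / 2) := (Real.exp_pos _).le
  nlinarith [h8, h9]

lemma Pk_le (d : ℕ) (hd : 16 ≤ d) (a b c R : ℝ) (hb : 0 ≤ b) (hR : 0 < R)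
    (ha : R / 2 ≤ a) (hbR : b ≤ R / d) (hc : a - b ≤ c) :
    a ^ d * (a ^ 2 - b ^ 2) / (a ^ 2 * c ^ d) ≤ 16 := by
  have hd' : (16 : ℝ) ≤ d := by exact_mod_cast hd
  have h2 : (0 : ℝ) < (d : ℝ) - 2 := by linarith
  have hd0 : (0 : ℝ) < d := by linarith
  have ha0 : 0 < a := by linarith
  have hb2 : b ≤ 2 * a / d := by
    refine hbR.trans ?_
    apply div_le_div_of_nonneg_right _ hd0.le
    linarith
  have hc1 : a * (((d : ℝ) - 2) / d) ≤ c := by
    have : a * (((d : ℝ) - 2) / d) = a - 2 * a / d := by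
      field_simp
    rw [this]; linarith
  have hc0 : 0 < c := by
    refine lt_of_lt_of_le ?_ hc1
    positivity
  have key : a / c ≤ (d : ℝ) / ((d : ℝ) - 2) := by
    rw [div_le_div_iff₀ hc0 h2]
    have : a * (((d : ℝ) - 2) / d) * d ≤ c * d := by
      apply mul_le_mul_of_nonneg_right hc1 hd0.le
    have e : a * (((d : ℝ) - 2) / d) * d = a * ((d : ℝ) - 2) := by
      field_simp
    linarith
  have hstep : a ^ d * (a ^ 2 - b ^ 2) / (a ^ 2 * c ^ d) ≤ (a / c) ^ d := by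
    rw [div_pow, div_le_div_iff₀ (by positivity) (by positivity)]
    have hp : 0 ≤ a ^ d * c ^ d := by positivity
    nlinarith [mul_nonneg hp (sq_nonneg b)]
  refine hstep.trans ((pow_le_pow_left₀ (by positivity) key d).trans (ratio_pow d hd))

theorem far_bound (d : ℕ) (hd : 16 ≤ d) (r R : ℝ) (hr : 0 < r) (hR : r ≤ R / d) (x y z : Eu d) :
    tr d r R y z x ≤ 32 * (volume (ball (0 : Eu d) R))⁻¹ *
      (ball (0 : Eu d) (R * (1 + 1 / d))).indicator (fun _ => (1 : ENNReal)) (x - z) := by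
  have hd' : (16 : ℝ) ≤ d := by exact_mod_cast hd
  have hd0 : (0 : ℝ) < d := by linarith
  have hR0 : 0 < R := by
    have : 0 < R / d := lt_of_lt_of_le hr hR
    have h2 := mul_pos this hd0
    rwa [div_mul_cancel₀ _ hd0.ne'] at h2
  unfold tr
  by_cases h1 : z - y ∈ shell d r
  swap
  · rw [Set.indicator_of_notMem h1]; simp
  by_cases h2 : x - y ∈ shell d R
  swap
  · unfold bs
    rw [Set.indicator_of_notMem h2]; simp
  rw [Set.indicator_of_mem h1]
  unfold bs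
  rw [Set.indicator_of_mem h2, volume_shell d (by omega) R hR0]
  obtain ⟨h1a, h1b⟩ := h1
  obtain ⟨h2a, h2b⟩ := h2
  have hq : (1 : ℝ) / 2 ≤ qd d := by
    have h := qd_ge d (by omega)
    have hl : Real.log 2 < 1 := by
      have := Real.log_two_lt_d9
      linarith
    have : Real.log 2 / d ≤ 1 / 2 := by
      rw [div_le_iff₀ hd0]
      linarith
    linarith
  have ha : R / 2 ≤ ‖x - y‖ := by
    have : 1 / 2 * R ≤ qd d * R := mul_le_mul_of_nonneg_right hq hR0.le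
    linarith
  have hxz : x - y - (z - y) = x - z := by abel
  have hPk : Pk d (x - y) (z - y) ≤ 16 := by
    unfold Pk
    apply Pk_le d hd _ _ _ R (norm_nonneg _) hR0 ha (h1b.le.trans hR)
    exact norm_sub_norm_le _ _
  have hmem : x - z ∈ ball (0 : Eu d) (R * (1 + 1 / d)) := by
    rw [mem_ball_zero_iff, ← hxz]
    refine lt_of_le_of_lt (norm_sub_le _ _) ?_
    have : R * (1 + 1 / d) = R + R / d := by ring
    rw [this]
    linarith
  rw [Set.indicator_of_mem hmem]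
  have hof : ENNReal.ofReal (Pk d (x - y) (z - y)) ≤ 16 := by
    have := ENNReal.ofReal_le_ofReal hPk
    simpa using this
  rw [one_mul, mul_one]
  have hV : (volume (ball (0 : Eu d) R) / 2)⁻¹ = 2 * (volume (ball (0 : Eu d) R))⁻¹ := by
    rw [ENNReal.div_eq_inv_mul, ENNReal.mul_inv (Or.inl (by simp)) (Or.inl (by simp)), inv_inv]
  rw [hV]
  calc 2 * (volume (ball (0 : Eu d) R))⁻¹ * ENNReal.ofReal (Pk d (x - y) (z - y))
      ≤ 2 * (volume (ball (0 : Eu d) R))⁻¹ * 16 := by gcongr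
    _ = 32 * (volume (ball (0 : Eu d) R))⁻¹ := by
        rw [mul_right_comm]
        norm_num

theorem far_mass (d : ℕ) (hd : 16 ≤ d) (R : ℝ) (hR : 0 < R) (x : Eu d) :
    ∫⁻ z, 32 * (volume (ball (0 : Eu d) R))⁻¹ *
      (ball (0 : Eu d) (R * (1 + 1 / d))).indicator (fun _ => (1 : ENNReal)) (x - z) ≤ 100 := by
  have hd' : (16 : ℝ) ≤ d := by exact_mod_cast hd
  have hd0 : (0 : ℝ) < d := by linarith
  have hV0 : volume (ball (0 : Eu d) R) ≠ 0 := (measure_ball_pos volume _ hR).ne'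
  have hVt : volume (ball (0 : Eu d) R) ≠ ⊤ := measure_ball_lt_top.ne
  have hc : 32 * (volume (ball (0 : Eu d) R))⁻¹ ≠ ⊤ := by
    apply ENNReal.mul_ne_top (by norm_num)
    exact ENNReal.inv_ne_top.mpr hV0
  rw [lintegral_const_mul' _ _ hc]
  have h1 : ∫⁻ z, (ball (0 : Eu d) (R * (1 + 1 / d))).indicator (fun _ => (1 : ENNReal)) (x - z)
      = volume (ball (0 : Eu d) (R * (1 + 1 / d))) := by
    rw [lintegral_sub_left_eq_self (μ := (volume : Measure (Eu d)))
      (fun w => (ball (0 : Eu d) (R * (1 + 1 / d))).indicator (fun _ => (1 : ENNReal)) w) x]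
    rw [lintegral_indicator measurableSet_ball]
    simp
  rw [h1]
  have h2 : volume (ball (0 : Eu d) (R * (1 + 1 / d)))
      = ENNReal.ofReal ((1 + 1 / (d : ℝ)) ^ d) * volume (ball (0 : Eu d) R) := by
    have hfr : Module.finrank ℝ (Eu d) = d := by simp [Eu]
    have := Measure.addHaar_ball_mul_of_pos (volume : Measure (Eu d)) (0 : Eu d)
      (r := 1 + 1 / (d : ℝ)) (by positivity) R
    rw [hfr] at this
    rw [mul_comm R]
    exact this
  rw [h2]
  have h3 : 32 * (volume (ball (0 : Eu d) R))⁻¹ *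
      (ENNReal.ofReal ((1 + 1 / (d : ℝ)) ^ d) * volume (ball (0 : Eu d) R))
      = 32 * ENNReal.ofReal ((1 + 1 / (d : ℝ)) ^ d) := by
    calc 32 * (volume (ball (0 : Eu d) R))⁻¹ *
      (ENNReal.ofReal ((1 + 1 / (d : ℝ)) ^ d) * volume (ball (0 : Eu d) R))
        = 32 * ENNReal.ofReal ((1 + 1 / (d : ℝ)) ^ d) *
          ((volume (ball (0 : Eu d) R))⁻¹ * volume (ball (0 : Eu d) R)) := by ring
      _ = _ := by rw [ENNReal.inv_mul_cancel hV0 hVt, mul_one]
  rw [h3]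
  have h4 : (1 + 1 / (d : ℝ)) ^ d ≤ 3 := by
    have := Real.add_one_le_exp (1 / (d : ℝ))
    have h5 : (1 + 1 / (d : ℝ)) ^ d ≤ Real.exp (1 / (d : ℝ)) ^ d := by
      apply pow_le_pow_left₀ (by positivity)
      linarith
    refine h5.trans ?_
    rw [← Real.exp_nat_mul]
    have : (d : ℝ) * (1 / d) = 1 := by field_simp
    rw [this]
    have := Real.exp_one_lt_d9
    linarith
  calc 32 * ENNReal.ofReal ((1 + 1 / (d : ℝ)) ^ d) ≤ 32 * ENNReal.ofReal 3 := by
        gcongr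
    _ ≤ 100 := by
        rw [show (3 : ℝ) = ((3 : ℕ) : ℝ) by norm_num, ENNReal.ofReal_natCast]
        norm_num

end Jfar

alias far_bound := Jfar.far_bound
alias far_mass := Jfar.far_mass

end Pool.Agent.Helper160.MF
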