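import Pool.Agent.Helper160.MF.Defs2

set_option autoImplicit false
open MeasureTheory Set Metric

namespace Pool.Agent.Helper160.MF


namespace Jvol

noncomputable def Gd (d : ℕ) : ℝ :=
  Real.sqrt d * ((d : ℝ) / (2 * Real.exp 1)) ^ ((d : ℝ) / 2)

lemma Gd_pos (d : ℕ) (hd : 1 ≤ d) : 0 < Gd d := by
  have h : (0 : ℝ) < d := by exact_mod_cast hd
  unfold Gd
  have := Real.exp_pos 1
  positivity

lemma log_Gd (d : ℕ) (hd : 1 ≤ d) :
    Real.log (Gd d) = Real.log d / 2 + ((d : ℝ) / 2) * (Real.log d - Real.log 2 - 1) := by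
  have h : (0 : ℝ) < d := by exact_mod_cast hd
  have he := Real.exp_pos 1
  unfold Gd
  rw [Real.log_mul (Real.sqrt_pos.2 h).ne' (by positivity), Real.log_sqrt h.le,
    Real.log_rpow (by positivity), Real.log_div h.ne' (by positivity),
    Real.log_mul (by norm_num) he.ne', Real.log_exp]
  ring

lemma Gd_step (d : ℕ) (hd : 1 ≤ d) : ((d : ℝ) / 2 + 1) * Gd d ≤ Gd (d + 2) := by
  have h : (0 : ℝ) < d := by exact_mod_cast hd
  have hG := Gd_pos d hd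
  have hG2 := Gd_pos (d + 2) (by omega)
  rw [← Real.log_le_log_iff (by positivity) hG2, Real.log_mul (by positivity) hG.ne',
    log_Gd d hd, log_Gd (d + 2) (by omega)]
  have h1 : Real.log ((d : ℝ) / 2 + 1) = Real.log ((d : ℝ) + 2) - Real.log 2 := by
    rw [← Real.log_div (by positivity) (by norm_num)]
    congr 1
    ring
  have h2 : 1 ≤ (((d : ℝ) + 1) / 2) * (Real.log ((d : ℝ) + 2) - Real.log d) := by
    have h3 := Real.le_log_one_add_of_nonneg (x := 2 / (d : ℝ)) (by positivity)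
    have h4 : Real.log ((d : ℝ) + 2) - Real.log d = Real.log (1 + 2 / (d : ℝ)) := by
      rw [← Real.log_div (by positivity) h.ne']
      congr 1
      field_simp
    rw [h4]
    have h5 : 2 * (2 / (d : ℝ)) / (2 / (d : ℝ) + 2) = 2 / ((d : ℝ) + 1) := by
      field_simp
      ring
    rw [h5] at h3
    have h6 : (((d : ℝ) + 1) / 2) * (2 / ((d : ℝ) + 1)) = 1 := by
      field_simp
    have h7 : (((d : ℝ) + 1) / 2) * (2 / ((d : ℝ) + 1)) ≤
        (((d : ℝ) + 1) / 2) * Real.log (1 + 2 / (d : ℝ)) :=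
      mul_le_mul_of_nonneg_left h3 (by positivity)
    rw [h6] at h7
    exact h7
  rw [h1]
  push_cast
  nlinarith [h2]

lemma Gamma_le : ∃ C : ℝ, 0 < C ∧ ∀ k : ℕ,
    Real.Gamma (((k + 1 : ℕ) : ℝ) / 2 + 1) ≤ C * Gd (k + 1) ∧
    Real.Gamma (((k + 2 : ℕ) : ℝ) / 2 + 1) ≤ C * Gd (k + 2) := by
  have hg1 := Gd_pos 1 le_rfl
  have hg2 := Gd_pos 2 (by norm_num)
  have hΓ1 : 0 < Real.Gamma (((1 : ℕ) : ℝ) / 2 + 1) := Real.Gamma_pos_of_pos (by positivity)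
  have hΓ2 : 0 < Real.Gamma (((2 : ℕ) : ℝ) / 2 + 1) := Real.Gamma_pos_of_pos (by positivity)
  refine ⟨Real.Gamma (((1 : ℕ) : ℝ) / 2 + 1) / Gd 1 + Real.Gamma (((2 : ℕ) : ℝ) / 2 + 1) / Gd 2,
    by positivity, ?_⟩
  intro k
  induction k with
  | zero =>
    refine ⟨?_, ?_⟩
    · rw [add_mul]
      have h1 : Real.Gamma (((1 : ℕ) : ℝ) / 2 + 1) / Gd 1 * Gd (0 + 1) =
          Real.Gamma (((0 + 1 : ℕ) : ℝ) / 2 + 1) := by
        rw [zero_add, div_mul_cancel₀ _ hg1.ne']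
      rw [h1]
      have : 0 ≤ Real.Gamma (((2 : ℕ) : ℝ) / 2 + 1) / Gd 2 * Gd (0 + 1) := by positivity
      linarith
    · rw [add_mul]
      have h1 : Real.Gamma (((2 : ℕ) : ℝ) / 2 + 1) / Gd 2 * Gd (0 + 2) =
          Real.Gamma (((0 + 2 : ℕ) : ℝ) / 2 + 1) := by
        rw [zero_add, div_mul_cancel₀ _ hg2.ne']
      rw [h1]
      have : 0 ≤ Real.Gamma (((1 : ℕ) : ℝ) / 2 + 1) / Gd 1 * Gd (0 + 2) := by positivity
      linarith
  | succ k ih =>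
    refine ⟨ih.2, ?_⟩
    have h1 : (((k + 1 + 2 : ℕ) : ℝ) / 2 + 1) = (((k + 1 : ℕ) : ℝ) / 2 + 1) + 1 := by
      push_cast
      ring
    rw [h1, Real.Gamma_add_one (by positivity)]
    have h2 := Gd_step (k + 1) (by omega)
    refine le_trans (mul_le_mul_of_nonneg_left ih.1 (by positivity)) ?_
    have hC : 0 ≤ Real.Gamma (((1 : ℕ) : ℝ) / 2 + 1) / Gd 1 +
      Real.Gamma (((2 : ℕ) : ℝ) / 2 + 1) / Gd 2 := by positivity
    have h3 := mul_le_mul_of_nonneg_left h2 hC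
    refine le_trans (le_of_eq ?_) h3
    ring


theorem vol_ball_lower : ∃ C : ℝ, 0 < C ∧ ∀ d : ℕ, 1 ≤ d →
    1 ≤ C * Real.sqrt d * ((d : ℝ) / (2 * Real.pi * Real.exp 1)) ^ ((d : ℝ) / 2) *
      (volume (ball (0 : Eu d) 1)).toReal := by 

  obtain ⟨C, hC, hG⟩ := Gamma_le
  refine ⟨C, hC, ?_⟩
  intro d hd
  obtain ⟨k, rfl⟩ : ∃ k, d = k + 1 := ⟨d - 1, by omega⟩
  have h1 := (hG k).1
  have hd0 : (0 : ℝ) < ((k + 1 : ℕ) : ℝ) := by positivity
  have hΓ : 0 < Real.Gamma (((k + 1 : ℕ) : ℝ) / 2 + 1) := Real.Gamma_pos_of_pos (by positivity)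
  have he := Real.exp_pos 1
  have hpi := Real.pi_pos
  rw [EuclideanSpace.volume_ball, Fintype.card_fin, ENNReal.ofReal_one, one_pow, one_mul,
    ENNReal.toReal_ofReal (by positivity)]
  have h2 : (√Real.pi) ^ (k + 1) = Real.pi ^ (((k + 1 : ℕ) : ℝ) / 2) := by
    rw [Real.sqrt_eq_rpow, ← Real.rpow_natCast, ← Real.rpow_mul hpi.le]
    congr 1
    ring
  have h3 : (((k + 1 : ℕ) : ℝ) / (2 * Real.pi * Real.exp 1)) ^ (((k + 1 : ℕ) : ℝ) / 2) *
      Real.pi ^ (((k + 1 : ℕ) : ℝ) / 2) =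
      (((k + 1 : ℕ) : ℝ) / (2 * Real.exp 1)) ^ (((k + 1 : ℕ) : ℝ) / 2) := by
    rw [← Real.mul_rpow (by positivity) hpi.le]
    congr 1
    field_simp
  rw [h2]
  have h4 : C * √((k + 1 : ℕ) : ℝ) *
      (((k + 1 : ℕ) : ℝ) / (2 * Real.pi * Real.exp 1)) ^ (((k + 1 : ℕ) : ℝ) / 2) *
      (Real.pi ^ (((k + 1 : ℕ) : ℝ) / 2) / Real.Gamma (((k + 1 : ℕ) : ℝ) / 2 + 1)) =
      (C * Gd (k + 1)) / Real.Gamma (((k + 1 : ℕ) : ℝ) / 2 + 1) := by
    unfold Gd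
    rw [← h3]
    ring
  rw [h4, one_le_div hΓ]
  exact h1

end Jvol

alias vol_ball_lower := Jvol.vol_ball_lower

end Pool.Agent.Helper160.MF
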