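import Pool.Agent.Helper160.MF.Defs2
import Pool.Agent.Helper160.MF.Jbasic
import Pool.Agent.Helper160.MF.Jvol

set_option autoImplicit false
open MeasureTheory Set Metric

namespace Pool.Agent.Helper160.MF


namespace Jnear

theorem core_log (h : ℝ) (h1 : 22 / 25 ≤ 1 + h) : h - Real.log (1 + h) ≤ 25 / 22 * h ^ 2 := by
  have h1pos : 0 < 1 + h := by linarith
  have := Real.one_sub_inv_le_log_of_pos h1pos
  have h2 : h - (1 - (1 + h)⁻¹) = h ^ 2 / (1 + h) := by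
    field_simp
    ring
  have h3 : h ^ 2 / (1 + h) ≤ 25 / 22 * h ^ 2 := by
    rw [div_le_iff₀ h1pos]
    nlinarith [sq_nonneg h]
  linarith

theorem core_h (s h δ P c : ℝ) (hs0 : 4095 / 4096 ≤ s) (hsh : s * h = δ - 2 * P)
    (hδ1 : δ ≤ c) (hδ2 : -c ≤ δ) : h ^ 2 ≤ (4096 / 4095) ^ 2 * (8 * P ^ 2 + 2 * c ^ 2) := by
  have hδsq : δ ^ 2 ≤ c ^ 2 := sq_le_sq' hδ2 hδ1
  have hsh2 : (s * h) ^ 2 ≤ 8 * P ^ 2 + 2 * c ^ 2 := by
    rw [hsh]
    have h1 : 0 ≤ (δ + 2 * P) ^ 2 := sq_nonneg _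
    have h2 : (δ - 2 * P) ^ 2 = 8 * P ^ 2 + 2 * δ ^ 2 - (δ + 2 * P) ^ 2 := by ring
    linarith
  have h6 : (4095 / 4096) ^ 2 * h ^ 2 ≤ (s * h) ^ 2 := by
    rw [mul_pow]
    apply mul_le_mul_of_nonneg_right _ (sq_nonneg h)
    exact pow_le_pow_left₀ (by norm_num) hs0 2
  have h9 : h ^ 2 = (4096 / 4095) ^ 2 * ((4095 / 4096) ^ 2 * h ^ 2) := by ring
  rw [h9]
  exact mul_le_mul_of_nonneg_left (h6.trans hsh2) (by norm_num)

/-- the elementary inequality behind the near bound -/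
theorem core (d ε a b W P u : ℝ) (hd : 16 ≤ d) (hε : 0 < ε) (hε' : ε ≤ 1 / 64)
    (hW : W = a ^ 2 - 2 * P - b ^ 2) (hWl : 22 / 25 ≤ W)
    (ha : 1 - 2 * Real.log 2 / d ≤ a ^ 2) (ha' : a ^ 2 ≤ 1)
    (hb : ε ^ 2 * (1 - 2 * Real.log 2 / d) ≤ b ^ 2) (hb' : b ^ 2 ≤ ε ^ 2)
    (hu : u = d / 2 * (a ^ 2 - 1)) :
    d / 2 * (W / (1 - ε ^ 2) - 1 - Real.log (W / (1 - ε ^ 2))) + u ^ 2 / 2 ≤ 2 + 5 * (d * P ^ 2) := by
  have hl2 : Real.log 2 < 0.7 := by
    have := Real.log_two_lt_d9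
    linarith
  have hl2' : 0 < Real.log 2 := Real.log_pos (by norm_num)
  have hd0 : 0 < d := by linarith
  have he2 : ε ^ 2 ≤ 1 / 4096 := by
    have : ε ^ 2 ≤ (1 / 64) ^ 2 := pow_le_pow_left₀ hε.le hε' 2
    calc ε ^ 2 ≤ (1 / 64) ^ 2 := this
      _ = 1 / 4096 := by norm_num
  have he20 : 0 < ε ^ 2 := by positivity
  obtain ⟨e, he⟩ : ∃ e, e = ε ^ 2 := ⟨_, rfl⟩
  rw [← he] at he2 he20 hb hb' ⊢
  obtain ⟨s, hs⟩ : ∃ s, s = 1 - e := ⟨_, rfl⟩
  rw [← hs]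
  have hs0 : 4095 / 4096 ≤ s := by linarith
  have hs1 : s ≤ 1 := by linarith
  have hspos : 0 < s := by linarith
  obtain ⟨h, hh⟩ : ∃ h, h = W / s - 1 := ⟨_, rfl⟩
  have hWs : W / s = 1 + h := by rw [hh]; ring
  have h1 : 22 / 25 ≤ 1 + h := by
    rw [← hWs, le_div_iff₀ hspos]
    linarith
  have hlog := core_log h h1
  obtain ⟨c, hc⟩ : ∃ c, c = 2 * Real.log 2 / d := ⟨_, rfl⟩
  rw [← hc] at ha hb
  obtain ⟨δ, hδ⟩ : ∃ δ, δ = (a ^ 2 - 1) + (e - b ^ 2) := ⟨_, rfl⟩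
  have hsh : s * h = δ - 2 * P := by
    have : s * (W / s) = W := by field_simp
    have h4 : s * h = s * (W / s) - s := by rw [hh]; ring
    rw [h4, this, hW, hδ, hs]; ring
  have hdiv : c * d = 2 * Real.log 2 := by rw [hc]; field_simp
  have hdd : 0 < c := by rw [hc]; positivity
  have hcd : c * d ≤ 1.4 := by rw [hdiv]; linarith
  have hec : e * c ≤ c := by
    calc e * c ≤ 1 * c := mul_le_mul_of_nonneg_right (by linarith) hdd.le
      _ = c := one_mul c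
  have hδ1 : δ ≤ c := by
    have h5 : e - b ^ 2 ≤ e * c := by linarith
    linarith
  have hδ2 : -c ≤ δ := by linarith
  have hh2 := core_h s h δ P c hs0 hsh hδ1 hδ2
  have hc2 : d * c ^ 2 ≤ 1 / 8 := by
    have h5 : c ≤ 1.4 / 16 := by
      have : c * 16 ≤ c * d := mul_le_mul_of_nonneg_left hd hdd.le
      linarith
    have h6 : d * c ^ 2 = (c * d) * c := by ring
    rw [h6]
    calc (c * d) * c ≤ 1.4 * (1.4 / 16) := mul_le_mul hcd h5 hdd.le (by norm_num)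
      _ ≤ 1 / 8 := by norm_num
  have hu2 : u ^ 2 ≤ 1 := by
    have h7 : -1 ≤ u := by
      rw [hu]
      have : d * (-c) ≤ d * (a ^ 2 - 1) := mul_le_mul_of_nonneg_left (by linarith) hd0.le
      linarith
    have h8 : u ≤ 1 := by
      rw [hu]
      have : d * (a ^ 2 - 1) ≤ d * 0 := mul_le_mul_of_nonneg_left (by linarith) hd0.le
      linarith
    have := sq_le_sq' h7 h8
    linarith
  have hfin : d / 2 * (h - Real.log (1 + h)) ≤ d / 2 * (25 / 22 * h ^ 2) :=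
    mul_le_mul_of_nonneg_left hlog (by positivity)
  have hfin2 : d / 2 * (25 / 22 * h ^ 2) ≤
      d / 2 * (25 / 22 * ((4096 / 4095) ^ 2 * (8 * P ^ 2 + 2 * c ^ 2))) := by
    apply mul_le_mul_of_nonneg_left _ (by positivity)
    linarith
  have hP : 0 ≤ d * P ^ 2 := by positivity
  rw [hWs, show (1 + h - 1 - Real.log (1 + h)) = h - Real.log (1 + h) by ring]
  have hfin3 : d / 2 * (25 / 22 * ((4096 / 4095) ^ 2 * (8 * P ^ 2 + 2 * c ^ 2))) =
      25 / 22 * (4096 / 4095) ^ 2 * 4 * (d * P ^ 2) + 25 / 22 * (4096 / 4095) ^ 2 * (d * c ^ 2) := by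
    ring
  rw [hfin3] at hfin2
  norm_num at hfin2
  linarith

theorem near_bound : ∃ C : ℝ, 0 < C ∧ ∀ d : ℕ, 16 ≤ d → ∀ ε : ℝ, 0 < ε → ε ≤ 1 / 64 →
    ∀ x y z : Eu d, tr d ε 1 y z x ≤ ENNReal.ofReal (C * Ak d ε x y z) := by
  obtain ⟨C0, hC0, hV0⟩ := vol_ball_lower
  refine ⟨2 * C0 * Real.exp 2, by positivity, ?_⟩
  intro d hd ε hε hε' x y z
  unfold tr
  by_cases hz : z - y ∈ shell d ε
  swap
  · simp [Set.indicator, hz]
  by_cases hx : x - y ∈ shell d 1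
  swap
  · simp [bs, hx]
  have hd1 : 1 ≤ d := by omega
  have hdR : (16 : ℝ) ≤ d := by exact_mod_cast hd
  have hd0 : (0 : ℝ) < d := by linarith
  have hV := hV0 d hd1
  have hvfin : volume (ball (0 : Eu d) 1) ≠ ⊤ := measure_ball_lt_top.ne
  set V := (volume (ball (0 : Eu d) 1)).toReal with hVdef
  have hVnn : 0 ≤ V := ENNReal.toReal_nonneg
  have hVpos : 0 < V := by
    rcases hVnn.lt_or_eq with h | h
    · exact h
    · rw [← h] at hV; norm_num at hV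
  have hvol : volume (ball (0 : Eu d) 1) = ENNReal.ofReal V := (ENNReal.ofReal_toReal hvfin).symm
  have hbs : bs d 1 (x - y) = ENNReal.ofReal (2 / V) := by
    unfold bs
    rw [Set.indicator_of_mem hx, volume_shell d hd1 1 one_pos, hvol]
    rw [ENNReal.inv_div (by simp) (by simp), ENNReal.ofReal_div_of_pos hVpos]
    simp
  rw [Set.indicator_of_mem hz, one_mul, hbs, ← ENNReal.ofReal_mul (by positivity)]
  apply ENNReal.ofReal_le_ofReal
  -- real inequality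
  obtain ⟨hx1, hx2⟩ := hx
  obtain ⟨hz1, hz2⟩ := hz
  rw [mul_one] at hx1
  have hq0 := qd_pos d
  have hq1 := qd_ge d hd1
  have hq2 := qd_lt_one d hd1
  have hl2 : Real.log 2 < 0.7 := by
    have := Real.log_two_lt_d9
    linarith
  have hl2' : 0 < Real.log 2 := Real.log_pos (by norm_num)
  have hld : Real.log 2 / d ≤ 0.7 / 16 := by
    rw [div_le_div_iff₀ hd0 (by norm_num)]
    nlinarith
  set a := ‖x - y‖ with ha
  set b := ‖z - y‖ with hb
  have ha0 : 0 < a := lt_trans hq0 hx1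
  have hb0 : 0 < b := lt_trans (by positivity) hz1
  set w := x - z with hw
  set v := z - y with hv
  have hXwv : x - y = w + v := by rw [hw, hv]; abel
  have hwn : ‖x - y - v‖ = ‖w‖ := by rw [hXwv]; simp
  set P : ℝ := inner ℝ w v with hP
  have ha2 : a ^ 2 = ‖w‖ ^ 2 + 2 * P + b ^ 2 := by
    rw [ha, hXwv, norm_add_sq_real]
  have hqsq : 1 - 2 * Real.log 2 / d ≤ qd d ^ 2 := by
    have h1 : 2 * Real.log 2 / d = 2 * (Real.log 2 / d) := by ring
    rw [h1]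
    have h2 : 0 ≤ (1 - qd d) ^ 2 := sq_nonneg _
    have h3 : (1 - qd d) ^ 2 = 1 - 2 * qd d + qd d ^ 2 := by ring
    linarith
  have hwlow : a - b ≤ ‖w‖ := by
    have := norm_sub_norm_le (x - y) v
    rw [hwn] at this
    exact this
  have hwlow2 : 0.94 ≤ ‖w‖ := by linarith
  have hwpos : 0 < ‖w‖ := by linarith
  have hWl : 22 / 25 ≤ ‖w‖ ^ 2 := by
    have : (0.94 : ℝ) ^ 2 ≤ ‖w‖ ^ 2 := pow_le_pow_left₀ (by norm_num) hwlow2 2
    norm_num at this ⊢
    linarith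
  have hcore := core d ε a b (‖w‖ ^ 2) P (d / 2 * (a ^ 2 - 1)) hdR hε hε' (by rw [ha2]; ring) hWl
    (hqsq.trans (pow_le_pow_left₀ hq0.le hx1.le 2)) (pow_le_one₀ ha0.le hx2.le)
    (by
      have h1 : (qd d * ε) ^ 2 ≤ b ^ 2 := pow_le_pow_left₀ (by positivity) hz1.le 2
      have h2 : ε ^ 2 * (1 - 2 * Real.log 2 / d) ≤ ε ^ 2 * qd d ^ 2 :=
        mul_le_mul_of_nonneg_left hqsq (by positivity)
      have h3 : (qd d * ε) ^ 2 = ε ^ 2 * qd d ^ 2 := by ring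
      linarith)
    (pow_le_pow_left₀ hb0.le hz2.le 2) rfl
  have hs0 : 0 < 1 - ε ^ 2 := by
    have h1 : ε ^ 2 ≤ (1 / 64) ^ 2 := pow_le_pow_left₀ hε.le hε' 2
    have h2 : ((1 : ℝ) / 64) ^ 2 < 1 := by norm_num
    linarith
  -- the Poisson kernel
  have hPk : Pk d (x - y) v ≤ (‖w‖ ^ d)⁻¹ := by
    unfold Pk
    rw [hwn]
    rw [← ha]
    rw [← hb]
    rw [div_le_iff₀ (by positivity)]
    have h1 : (‖w‖ ^ d)⁻¹ * (a ^ 2 * ‖w‖ ^ d) = a ^ 2 := by field_simp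
    rw [h1]
    have h2 : a ^ d ≤ 1 := pow_le_one₀ ha0.le hx2.le
    have h3 : a ^ 2 - b ^ 2 ≤ a ^ 2 := by nlinarith
    have h4 : 0 ≤ a ^ d := by positivity
    calc a ^ d * (a ^ 2 - b ^ 2) ≤ a ^ d * a ^ 2 := mul_le_mul_of_nonneg_left h3 h4
      _ ≤ 1 * a ^ 2 := mul_le_mul_of_nonneg_right h2 (by positivity)
      _ = a ^ 2 := one_mul _
  have hwd : (‖w‖ ^ d)⁻¹ = Real.exp (-(d / 2 * Real.log (‖w‖ ^ 2))) := by
    rw [Real.log_pow, Real.exp_neg]
    congr 1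
    rw [← Real.rpow_natCast, Real.rpow_def_of_pos hwpos]
    congr 1
    push_cast
    ring
  have hD : ((d : ℝ) / (2 * Real.pi * Real.exp 1)) ^ ((d : ℝ) / 2) =
      Real.exp ((Real.log d - Real.log (2 * Real.pi) - 1) * (d / 2)) := by
    rw [Real.rpow_def_of_pos (by positivity), Real.log_div (by positivity) (by positivity),
      Real.log_mul (by positivity) (by positivity), Real.log_exp]
    congr 1
    ring
  have hga : ga d ((1 - ε ^ 2) / d) w =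
      Real.exp (-(Real.log (2 * Real.pi) + Real.log (1 - ε ^ 2) - Real.log d) * (d / 2) -
        d / 2 * (‖w‖ ^ 2 / (1 - ε ^ 2))) := by
    unfold ga
    rw [Real.rpow_def_of_pos (by positivity), Real.log_mul (by positivity) (by positivity),
      Real.log_div (by positivity) (by positivity), ← Real.exp_add]
    congr 1
    field_simp
    ring
  have hVb : 2 / V ≤ 2 * (C0 * Real.sqrt d *
      Real.exp ((Real.log d - Real.log (2 * Real.pi) - 1) * (d / 2))) := by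
    rw [← hD, div_le_iff₀ hVpos]
    linarith
  have hsq : (Real.sqrt d * P) ^ 2 = d * P ^ 2 := by
    rw [mul_pow, Real.sq_sqrt hd0.le]
  calc 2 / V * Pk d (x - y) v ≤ 2 / V * (‖w‖ ^ d)⁻¹ :=
        mul_le_mul_of_nonneg_left hPk (by positivity)
    _ ≤ (2 * (C0 * Real.sqrt d *
      Real.exp ((Real.log d - Real.log (2 * Real.pi) - 1) * (d / 2)))) * (‖w‖ ^ d)⁻¹ :=
        mul_le_mul_of_nonneg_right hVb (by positivity)
    _ = 2 * C0 * Real.sqrt d * Real.exp ((Real.log d - Real.log (2 * Real.pi) - 1) * (d / 2) +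
      -(d / 2 * Real.log (‖w‖ ^ 2))) := by
        rw [hwd, Real.exp_add]; ring
    _ ≤ 2 * C0 * Real.sqrt d * Real.exp (2 + -(d / 2 * (a ^ 2 - 1)) ^ 2 / 2 +
      (-(Real.log (2 * Real.pi) + Real.log (1 - ε ^ 2) - Real.log d) * (d / 2) -
        d / 2 * (‖w‖ ^ 2 / (1 - ε ^ 2))) + 5 * (Real.sqrt d * P) ^ 2) := by
        apply mul_le_mul_of_nonneg_left _ (by positivity)
        apply Real.exp_le_exp.mpr
        rw [hsq]
        rw [Real.log_div (by positivity) hs0.ne'] at hcore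
        linarith [hcore]
    _ = 2 * C0 * Real.exp 2 * Ak d ε x y z := by
        unfold Ak
        rw [← hw, ← hv, ← ha, ← hP, hga, Real.exp_add, Real.exp_add, Real.exp_add]
        ring

end Jnear

alias near_bound := Jnear.near_bound

end Pool.Agent.Helper160.MF
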