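import Pool.Agent.Helper160.MF.Defs2
import Pool.Agent.Helper160.MF.Jbasic
import Pool.Agent.Helper160.MF.Jnear
import Pool.Agent.Helper160.MF.Jfar
import Pool.Agent.Helper160.MF.Jga
import Pool.Agent.Helper160.MF.JML
import Pool.Agent.Helper392.MF.Core
import Pool.Agent.Helper567.MF.Tr
import Pool.Agent.Helper567.MF.Scaled

set_option autoImplicit false
open MeasureTheory Set Metric

namespace Pool.Agent.Helper160.MF

theorem lintegral_ga' (d : ℕ) (t : ℝ) (ht : 0 < t) (x : Eu d) :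
    ∫⁻ z, ENNReal.ofReal (ga d t (x - z)) = 1 := by
  rw [← lintegral_ga d t ht x]
  refine lintegral_congr fun z => ?_
  unfold ga
  rw [norm_sub_rev]

/-- weak type (1,1) along the radii `R * 64 ^ k` for thin shell averages, uniformly in `d ≥ 16` -/
theorem core : ∃ C : ℝ, 0 < C ∧ ∀ d : ℕ, 16 ≤ d → ∀ R : ℝ, 0 < R → ∀ K : ℕ,
    ∀ f : Eu d → ENNReal, Measurable f → (∀ y, f y ≠ ⊤) → ∫⁻ y, f y ≠ ⊤ →
    ∀ lam : ENNReal, lam ≠ 0 → lam ≠ ⊤ →
    lam * volume {x : Eu d | ∃ k, k < K ∧ ENNReal.ofReal C * lam < ∫⁻ y, f y * bs d (R * 64 ^ k) (x - y)} ≤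
      ENNReal.ofReal C * ∫⁻ y, f y :=
  core_of measurableSet_shell volume_shell lintegral_bs
    (fun d hd r R hr hrR y z => Pool.Agent.Helper567.MF.tr_mass d hd r R hr hrR y z)
    (fun d hd r R hr hrR y x => Pool.Agent.Helper567.MF.tr_start d hd r R hr hrR y x)
    (fun d hd r s R hr hrs hsR y z x => Pool.Agent.Helper567.MF.tr_ck d hd r s R hr hrs hsR y z x)
    far_bound far_mass lintegral_ga' (Pool.Agent.Helper567.MF.ML_scaled_of near_bound ML_unit)

end Pool.Agent.Helper160.MF
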