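import Pool.Agent.Helper160.MF.Defs2

set_option autoImplicit false
open MeasureTheory Set Metric

namespace Pool.Agent.Helper160.MF


namespace Jsmall

theorem small_vol (n : ℕ) (x : EuclideanSpace ℝ (Fin n)) {r : ℝ} (hr : 0 < r) :
    volume (Metric.ball x r) = volume (Metric.closedBall x r) := by
  rw [Measure.addHaar_ball_of_pos _ _ hr, Measure.addHaar_closedBall _ _ hr.le]

theorem small_vitali (n : ℕ) (f : EuclideanSpace ℝ (Fin n) → ℝ) (t : ℝ) (ht : 0 < t)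
    (E : Set (EuclideanSpace ℝ (Fin n))) (R : ℝ)
    (h : ∀ x ∈ E, ∃ ρ : ℝ, 0 < ρ ∧ ρ ≤ R ∧
      ENNReal.ofReal t * volume (Metric.closedBall x ρ) ≤ ∫⁻ y in Metric.closedBall x ρ, ‖f y‖ₑ) :
    volume E ≤ ENNReal.ofReal (5 ^ n / t) * ∫⁻ x, ‖f x‖ₑ := by
  choose! ρ hρ0 hρR hρ using h
  obtain ⟨u, huE, hudisj, hucov⟩ :=
    Vitali.exists_disjoint_subfamily_covering_enlargement_closedBall E
      (fun x : EuclideanSpace ℝ (Fin n) => x) ρ R hρR 5 (by norm_num)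
  have hcount : u.Countable := by
    apply hudisj.countable_of_nonempty_interior
    intro a ha
    refine ⟨a, ?_⟩
    apply Metric.ball_subset_interior_closedBall
    exact Metric.mem_ball_self (hρ0 a (huE ha))
  have hcov : E ⊆ ⋃ b ∈ u, Metric.closedBall b (5 * ρ b) := by
    intro a ha
    obtain ⟨b, hb, hab⟩ := hucov a ha
    rw [Set.mem_iUnion₂]
    exact ⟨b, hb, hab (Metric.mem_closedBall_self (hρ0 a ha).le)⟩
  have ht0 : ENNReal.ofReal t ≠ 0 := (ENNReal.ofReal_pos.2 ht).ne'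
  have hball : ∀ b ∈ u, volume (Metric.closedBall b (5 * ρ b)) ≤
      ENNReal.ofReal (5 ^ n / t) * ∫⁻ y in Metric.closedBall b (ρ b), ‖f y‖ₑ := by
    intro b hb
    have hb0 := hρ0 b (huE hb)
    have e1 : volume (Metric.closedBall b (5 * ρ b)) =
        ENNReal.ofReal (5 ^ n) * volume (Metric.closedBall b (ρ b)) := by
      rw [Measure.addHaar_closedBall _ _ (by positivity : 0 ≤ 5 * ρ b),
        Measure.addHaar_closedBall _ _ hb0.le, ← mul_assoc, ← ENNReal.ofReal_mul (by positivity)]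
      simp [mul_pow]
    have e2 : volume (Metric.closedBall b (ρ b)) ≤
        (ENNReal.ofReal t)⁻¹ * ∫⁻ y in Metric.closedBall b (ρ b), ‖f y‖ₑ := by
      have h1 := hρ b (huE hb)
      calc volume (Metric.closedBall b (ρ b))
          = (ENNReal.ofReal t)⁻¹ * (ENNReal.ofReal t * volume (Metric.closedBall b (ρ b))) := by
            rw [← mul_assoc, ENNReal.inv_mul_cancel ht0 ENNReal.ofReal_ne_top, one_mul]
        _ ≤ _ := mul_le_mul' le_rfl h1
    rw [e1, ENNReal.ofReal_div_of_pos ht, div_eq_mul_inv, mul_assoc]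
    exact mul_le_mul' le_rfl e2
  calc volume E ≤ volume (⋃ b ∈ u, Metric.closedBall b (5 * ρ b)) := measure_mono hcov
    _ ≤ ∑' b : u, volume (Metric.closedBall (b : EuclideanSpace ℝ (Fin n)) (5 * ρ b)) :=
        measure_biUnion_le _ hcount _
    _ ≤ ∑' b : u, ENNReal.ofReal (5 ^ n / t) *
          ∫⁻ y in Metric.closedBall (b : EuclideanSpace ℝ (Fin n)) (ρ b), ‖f y‖ₑ :=
        ENNReal.tsum_le_tsum fun b => hball b b.2
    _ = ENNReal.ofReal (5 ^ n / t) *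
          ∑' b : u, ∫⁻ y in Metric.closedBall (b : EuclideanSpace ℝ (Fin n)) (ρ b), ‖f y‖ₑ :=
        ENNReal.tsum_mul_left
    _ = ENNReal.ofReal (5 ^ n / t) *
          ∫⁻ y in ⋃ b ∈ u, Metric.closedBall b (ρ b), ‖f y‖ₑ := by
        rw [lintegral_biUnion hcount (fun b _ => Metric.isClosed_closedBall.measurableSet) hudisj]
    _ ≤ ENNReal.ofReal (5 ^ n / t) * ∫⁻ x, ‖f x‖ₑ :=
        mul_le_mul' le_rfl (setLIntegral_le_lintegral _ _)

theorem small_avg (n : ℕ) (f : EuclideanSpace ℝ (Fin n) → ℝ) (t : ℝ)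
    (x : EuclideanSpace ℝ (Fin n)) (ρ : ℝ) (hρ : 0 < ρ)
    (h : ENNReal.ofReal t < (volume (Metric.ball (0 : EuclideanSpace ℝ (Fin n)) ρ))⁻¹ *
              ∫⁻ y in Metric.ball (0 : EuclideanSpace ℝ (Fin n)) ρ, ‖f (x + y)‖ₑ) :
    ENNReal.ofReal t * volume (Metric.closedBall x ρ) ≤
      ∫⁻ y in Metric.closedBall x ρ, ‖f y‖ₑ := by
  have hV : volume (Metric.ball (0 : EuclideanSpace ℝ (Fin n)) ρ) =
      volume (Metric.closedBall x ρ) := by
    rw [Measure.addHaar_ball_of_pos _ _ hρ, Measure.addHaar_closedBall _ _ hρ.le]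
  have hV0 : volume (Metric.ball (0 : EuclideanSpace ℝ (Fin n)) ρ) ≠ 0 :=
    (Metric.measure_ball_pos volume 0 hρ).ne'
  have hVt : volume (Metric.ball (0 : EuclideanSpace ℝ (Fin n)) ρ) ≠ ⊤ := measure_ball_lt_top.ne
  have hJ : ∫⁻ y in Metric.ball (0 : EuclideanSpace ℝ (Fin n)) ρ, ‖f (x + y)‖ₑ =
      ∫⁻ y in Metric.ball x ρ, ‖f y‖ₑ := by
    have hpre : Metric.ball (0 : EuclideanSpace ℝ (Fin n)) ρ = (fun y => x + y) ⁻¹' Metric.ball x ρ := by
      ext y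
      simp
    rw [hpre]
    exact (measurePreserving_add_left volume x).setLIntegral_comp_preimage_emb
      (measurableEmbedding_addLeft x) (fun z => ‖f z‖ₑ) (Metric.ball x ρ)
  calc ENNReal.ofReal t * volume (Metric.closedBall x ρ)
      = ENNReal.ofReal t * volume (Metric.ball (0 : EuclideanSpace ℝ (Fin n)) ρ) := by rw [hV]
    _ ≤ ((volume (Metric.ball (0 : EuclideanSpace ℝ (Fin n)) ρ))⁻¹ *
          ∫⁻ y in Metric.ball (0 : EuclideanSpace ℝ (Fin n)) ρ, ‖f (x + y)‖ₑ) *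
          volume (Metric.ball (0 : EuclideanSpace ℝ (Fin n)) ρ) := mul_le_mul' h.le le_rfl
    _ = ∫⁻ y in Metric.ball x ρ, ‖f y‖ₑ := by
        rw [mul_comm, ← mul_assoc, ENNReal.mul_inv_cancel hV0 hVt, one_mul, hJ]
    _ ≤ ∫⁻ y in Metric.closedBall x ρ, ‖f y‖ₑ :=
        lintegral_mono_set Metric.ball_subset_closedBall

theorem small_radius (n : ℕ) (hn : n ≠ 0) (f : EuclideanSpace ℝ (Fin n) → ℝ) (hf : Integrable f)
    (t : ℝ) (ht : 0 < t) : ∃ R : ℝ, ∀ (x : EuclideanSpace ℝ (Fin n)) (ρ : ℝ), 0 < ρ →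
      ENNReal.ofReal t * volume (Metric.closedBall x ρ) ≤
        ∫⁻ y in Metric.closedBall x ρ, ‖f y‖ₑ → ρ ≤ R := by
  obtain ⟨I, hI⟩ : ∃ I : ℝ, I = (∫⁻ y, ‖f y‖ₑ).toReal := ⟨_, rfl⟩
  obtain ⟨v, hv⟩ : ∃ v : ℝ, v = (volume (Metric.ball (0 : EuclideanSpace ℝ (Fin n)) 1)).toReal :=
    ⟨_, rfl⟩
  have hfin : ∫⁻ y, ‖f y‖ₑ ≠ ⊤ := hf.2.ne
  have hv0 : 0 < v := by
    rw [hv]
    exact ENNReal.toReal_pos (Metric.measure_ball_pos volume 0 one_pos).ne' measure_ball_lt_top.ne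
  refine ⟨max 1 (I / (t * v)), fun x ρ hρ h => ?_⟩
  rcases le_or_gt ρ 1 with h1 | h1
  · exact h1.trans (le_max_left _ _)
  · refine le_trans ?_ (le_max_right _ _)
    have h2 : ENNReal.ofReal t * volume (Metric.closedBall x ρ) ≤ ∫⁻ y, ‖f y‖ₑ :=
      h.trans (setLIntegral_le_lintegral _ _)
    have h3 := ENNReal.toReal_mono hfin h2
    rw [Measure.addHaar_closedBall _ _ hρ.le, ENNReal.toReal_mul, ENNReal.toReal_mul,
      ENNReal.toReal_ofReal ht.le, ENNReal.toReal_ofReal (by positivity), ← hv, ← hI] at h3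
    have h4 : Module.finrank ℝ (EuclideanSpace ℝ (Fin n)) = n := by simp
    rw [h4] at h3
    have h5 : ρ ≤ ρ ^ n := le_self_pow₀ h1.le hn
    rw [le_div_iff₀ (by positivity)]
    calc ρ * (t * v) ≤ ρ ^ n * (t * v) := mul_le_mul_of_nonneg_right h5 (by positivity)
      _ = t * (ρ ^ n * v) := by ring
      _ ≤ I := h3

theorem small_dim : ∀ n : ℕ, ∃ C : ℝ, 0 < C ∧ ∀ r : ℝ, 0 < r →
      ∀ f : EuclideanSpace ℝ (Fin n) → ℝ, Integrable f →
      ∀ t : ℝ, 0 < t →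
        volume {x : EuclideanSpace ℝ (Fin n) |
          ENNReal.ofReal t <
            ⨆ k : ℤ, (volume (Metric.ball (0 : EuclideanSpace ℝ (Fin n)) ((2 : ℝ) ^ k * r)))⁻¹ *
              ∫⁻ y in Metric.ball (0 : EuclideanSpace ℝ (Fin n)) ((2 : ℝ) ^ k * r), ‖f (x + y)‖ₑ}
          ≤ ENNReal.ofReal (C / t) * ∫⁻ x, ‖f x‖ₑ := by
  intro n
  refine ⟨5 ^ n, by positivity, ?_⟩
  intro r hr f hf t ht
  have hx : ∀ x : EuclideanSpace ℝ (Fin n), ENNReal.ofReal t <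
      (⨆ k : ℤ, (volume (Metric.ball (0 : EuclideanSpace ℝ (Fin n)) ((2 : ℝ) ^ k * r)))⁻¹ *
        ∫⁻ y in Metric.ball (0 : EuclideanSpace ℝ (Fin n)) ((2 : ℝ) ^ k * r), ‖f (x + y)‖ₑ) →
      ∃ ρ : ℝ, 0 < ρ ∧ ENNReal.ofReal t * volume (Metric.closedBall x ρ) ≤
        ∫⁻ y in Metric.closedBall x ρ, ‖f y‖ₑ := by
    intro x h
    obtain ⟨k, hk⟩ := lt_iSup_iff.1 h
    have hρ : 0 < (2 : ℝ) ^ k * r := by positivity
    exact ⟨(2 : ℝ) ^ k * r, hρ, small_avg n f t x _ hρ hk⟩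
  by_cases hn : n = 0
  · subst hn
    apply small_vitali 0 f t ht _ 1
    intro x h
    obtain ⟨ρ, hρ, h1⟩ := hx x h
    have h2 : Metric.closedBall x ρ = Metric.closedBall x 1 := by
      ext y
      have : y = x := Subsingleton.elim _ _
      rw [this]
      simp [hρ.le]
    rw [h2] at h1
    exact ⟨1, one_pos, le_rfl, h1⟩
  · obtain ⟨R, hR⟩ := small_radius n hn f hf t ht
    apply small_vitali n f t ht _ R
    intro x h
    obtain ⟨ρ, hρ, h1⟩ := hx x h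
    exact ⟨ρ, hρ, hR x ρ hρ h1, h1⟩

end Jsmall

alias small_dim := Jsmall.small_dim

end Pool.Agent.Helper160.MF
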