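import Pool.Agent.Helper160.MF.Defs2
import Pool.Agent.Helper160.MF.Jcore
import Pool.Agent.Helper160.MF.Jsmall
import Pool.Agent.Helper160.MF.Jbasic

set_option autoImplicit false
open MeasureTheory Set Metric

namespace Pool.Agent.Helper160.MF


namespace Jred

open scoped ENNReal

/-- shell average -/
noncomputable def Av (n : ℕ) (F : Eu n → ℝ≥0∞) (s : ℝ) (x : Eu n) : ℝ≥0∞ :=
  ∫⁻ y, F y * bs n s (x - y)

theorem shell_neg {n : ℕ} (s : ℝ) (y : Eu n) : -y ∈ shell n s ↔ y ∈ shell n s := by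
  simp [shell]

theorem vol_ball_ne_zero {n : ℕ} {s : ℝ} (hs : 0 < s) : volume (ball (0 : Eu n) s) ≠ 0 :=
  (measure_ball_pos _ _ hs).ne'

theorem vol_ball_ne_top {n : ℕ} {s : ℝ} : volume (ball (0 : Eu n) s) ≠ ⊤ :=
  measure_ball_lt_top.ne

theorem vol_shell_ne_zero {n : ℕ} (hn : 1 ≤ n) {s : ℝ} (hs : 0 < s) : volume (shell n s) ≠ 0 := by
  rw [volume_shell n hn s hs]
  exact (ENNReal.div_pos (vol_ball_ne_zero hs) (by norm_num)).ne'

theorem vol_shell_ne_top {n : ℕ} (hn : 1 ≤ n) {s : ℝ} (hs : 0 < s) : volume (shell n s) ≠ ⊤ := by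
  rw [volume_shell n hn s hs]
  exact ENNReal.div_ne_top vol_ball_ne_top (by norm_num)

theorem lint_shell {n : ℕ} (hn : 1 ≤ n) (F : Eu n → ℝ≥0∞) (hF : Measurable F) {s : ℝ} (hs : 0 < s)
    (x : Eu n) : ∫⁻ y in shell n s, F (x + y) = volume (shell n s) * Av n F s x := by
  have hm := measurableSet_shell n s
  have h1 : Av n F s x = (volume (shell n s))⁻¹ * ∫⁻ y in shell n s, F (x + y) := by
    unfold Av
    have hm2 : Measurable ((shell n s).indicator fun y => F (x + y)) :=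
      (hF.comp (measurable_const_add x)).indicator hm
    rw [← lintegral_add_left_eq_self _ x, ← lintegral_indicator hm, ← lintegral_const_mul _ hm2]
    congr 1
    funext y
    have h2 : x - (x + y) = -y := by abel
    unfold bs
    rw [h2]
    by_cases hy : y ∈ shell n s
    · rw [Set.indicator_of_mem ((shell_neg s y).2 hy), Set.indicator_of_mem hy, mul_comm]
    · rw [Set.indicator_of_notMem (fun h => hy ((shell_neg s y).1 h)),
        Set.indicator_of_notMem hy, mul_zero, mul_zero]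
  rw [h1, ← mul_assoc, ENNReal.mul_inv_cancel (vol_shell_ne_zero hn hs) (vol_shell_ne_top hn hs),
    one_mul]

theorem vol_shell_scale {n : ℕ} (hn : 1 ≤ n) {ρ : ℝ} (hρ : 0 < ρ) (i : ℕ) :
    volume (shell n (qd n ^ i * ρ)) =
      ENNReal.ofReal ((1 / 2) ^ (i + 1)) * volume (ball (0 : Eu n) ρ) := by
  have hq := qd_pos n
  have : Nonempty (Fin n) := ⟨⟨0, by omega⟩⟩
  have : Nontrivial (Eu n) := inferInstance
  have h1 : 0 < qd n ^ i * ρ := by positivity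
  rw [volume_shell n hn _ h1, Measure.addHaar_ball _ _ h1.le, Measure.addHaar_ball _ _ hρ.le,
    finrank_euclideanSpace_fin]
  have h2 : (qd n ^ i * ρ) ^ n = (1 / 2) ^ i * ρ ^ n := by
    rw [mul_pow, ← pow_mul, mul_comm i n, pow_mul, qd_pow n hn]
  rw [h2, ENNReal.ofReal_mul (by positivity), pow_succ, ENNReal.ofReal_mul (by positivity),
    div_eq_mul_inv]
  have h3 : ENNReal.ofReal (1 / 2) = (2 : ℝ≥0∞)⁻¹ := by
    rw [one_div, ENNReal.ofReal_inv_of_pos (by norm_num)]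
    norm_num
  rw [h3]
  ring

theorem cover {n : ℕ} (hn : 1 ≤ n) {ρ : ℝ} (hρ : 0 < ρ) :
    ball (0 : Eu n) ρ ⊆ (⋃ i : ℕ, shell n (qd n ^ i * ρ)) ∪
      ({0} ∪ ⋃ i : ℕ, sphere (0 : Eu n) (qd n ^ i * ρ)) := by
  intro y hy
  rw [mem_ball_zero_iff] at hy
  by_cases h0 : y = 0
  · exact Or.inr (Or.inl h0)
  have hy0 : 0 < ‖y‖ := norm_pos_iff.2 h0
  have hex : ∃ m : ℕ, qd n ^ m * ρ < ‖y‖ := by
    obtain ⟨m, hm⟩ := exists_pow_lt_of_lt_one (div_pos hy0 hρ) (qd_lt_one n hn)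
    exact ⟨m, (lt_div_iff₀ hρ).1 hm⟩
  classical
  obtain ⟨hm1, hm2⟩ : qd n ^ (Nat.find hex) * ρ < ‖y‖ ∧
      ∀ m < Nat.find hex, ¬ (qd n ^ m * ρ < ‖y‖) :=
    ⟨Nat.find_spec hex, fun m hm => Nat.find_min hex hm⟩
  rcases hk : Nat.find hex with _ | i
  · rw [hk] at hm1
    simp at hm1
    linarith
  · rw [hk] at hm1 hm2
    have h3 := not_lt.1 (hm2 i (Nat.lt_succ_self i))
    rcases h3.lt_or_eq with h4 | h4
    · left
      refine Set.mem_iUnion.2 ⟨i, ?_, h4⟩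
      rw [← mul_assoc, ← pow_succ']
      exact hm1
    · right
      right
      exact Set.mem_iUnion.2 ⟨i, mem_sphere_zero_iff_norm.2 h4⟩

theorem null {n : ℕ} (hn : 1 ≤ n) (ρ : ℝ) :
    volume (({0} : Set (Eu n)) ∪ ⋃ i : ℕ, sphere (0 : Eu n) (qd n ^ i * ρ)) = 0 := by
  have : Nonempty (Fin n) := ⟨⟨0, by omega⟩⟩
  have : Nontrivial (Eu n) := inferInstance
  rw [measure_union_null_iff]
  constructor
  · exact measure_singleton _
  · rw [measure_iUnion_null_iff]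
    intro i
    exact Measure.addHaar_sphere _ _ _

theorem avg_le {n : ℕ} (hn : 1 ≤ n) (F : Eu n → ℝ≥0∞) (hF : Measurable F) {ρ : ℝ} (hρ : 0 < ρ)
    (x : Eu n) : (volume (ball (0 : Eu n) ρ))⁻¹ * ∫⁻ y in ball (0 : Eu n) ρ, F (x + y) ≤
      ∑' i : ℕ, ENNReal.ofReal ((1 / 2) ^ (i + 1)) * Av n F (qd n ^ i * ρ) x := by
  have hq := qd_pos n
  have h1 : ∫⁻ y in ball (0 : Eu n) ρ, F (x + y) ≤
      ∑' i : ℕ, ∫⁻ y in shell n (qd n ^ i * ρ), F (x + y) := by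
    calc ∫⁻ y in ball (0 : Eu n) ρ, F (x + y) ≤
        ∫⁻ y in (⋃ i : ℕ, shell n (qd n ^ i * ρ)) ∪
          ({0} ∪ ⋃ i : ℕ, sphere (0 : Eu n) (qd n ^ i * ρ)), F (x + y) :=
          lintegral_mono_set (cover hn hρ)
      _ ≤ (∫⁻ y in ⋃ i : ℕ, shell n (qd n ^ i * ρ), F (x + y)) +
          ∫⁻ y in ({0} ∪ ⋃ i : ℕ, sphere (0 : Eu n) (qd n ^ i * ρ)), F (x + y) :=
          lintegral_union_le _ _ _
      _ = ∫⁻ y in ⋃ i : ℕ, shell n (qd n ^ i * ρ), F (x + y) := by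
          rw [setLIntegral_measure_zero _ _ (null hn ρ), add_zero]
      _ ≤ ∑' i : ℕ, ∫⁻ y in shell n (qd n ^ i * ρ), F (x + y) := lintegral_iUnion_le _ _
  calc (volume (ball (0 : Eu n) ρ))⁻¹ * ∫⁻ y in ball (0 : Eu n) ρ, F (x + y) ≤
      (volume (ball (0 : Eu n) ρ))⁻¹ * ∑' i : ℕ, ∫⁻ y in shell n (qd n ^ i * ρ), F (x + y) :=
        mul_le_mul_right h1 _
    _ = ∑' i : ℕ, ENNReal.ofReal ((1 / 2) ^ (i + 1)) * Av n F (qd n ^ i * ρ) x := by
        rw [← ENNReal.tsum_mul_left]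
        congr 1
        funext i
        rw [lint_shell hn F hF (by positivity), vol_shell_scale hn hρ, ← mul_assoc,
          mul_comm (ENNReal.ofReal _), ← mul_assoc, ENNReal.inv_mul_cancel (vol_ball_ne_zero hρ)
          vol_ball_ne_top, one_mul]


theorem exists_shell {n : ℕ} (hn : 1 ≤ n) (F : Eu n → ℝ≥0∞) (hF : Measurable F) {ρ : ℝ}
    (hρ : 0 < ρ) (x : Eu n) {t : ℝ} (ht : 0 < t)
    (h : ENNReal.ofReal t <
      (volume (ball (0 : Eu n) ρ))⁻¹ * ∫⁻ y in ball (0 : Eu n) ρ, F (x + y)) :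
    ∃ i : ℕ, ENNReal.ofReal (1 / 4 * (3 / 2) ^ i * t) < Av n F (qd n ^ i * ρ) x := by
  by_contra hc
  push Not at hc
  have h1 := h.trans_le (avg_le hn F hF hρ x)
  have h2 : ∑' i : ℕ, ENNReal.ofReal ((1 / 2) ^ (i + 1)) * Av n F (qd n ^ i * ρ) x ≤
      ∑' i : ℕ, ENNReal.ofReal (t / 8 * (3 / 4) ^ i) := by
    apply ENNReal.tsum_le_tsum
    intro i
    refine (mul_le_mul_right (hc i) _).trans_eq ?_
    rw [← ENNReal.ofReal_mul (by positivity)]
    congr 1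
    have h3 : (3 / 4 : ℝ) ^ i = (1 / 2) ^ i * (3 / 2) ^ i := by
      rw [← mul_pow]
      norm_num
    rw [h3]
    ring
  have h3 : ∑' i : ℕ, ENNReal.ofReal (t / 8 * (3 / 4) ^ i) = ENNReal.ofReal (t / 2) := by
    rw [← ENNReal.ofReal_tsum_of_nonneg (fun i => by positivity)
      ((summable_geometric_of_lt_one (by norm_num) (by norm_num)).mul_left _), tsum_mul_left,
      tsum_geometric_of_lt_one (by norm_num) (by norm_num)]
    congr 1
    ring
  rw [h3] at h2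
  have h4 := h1.trans_le h2
  rw [ENNReal.ofReal_lt_ofReal_iff (by positivity)] at h4
  linarith

theorem weak_sup {n : ℕ} {C : ℝ} (hC : 0 < C) (F : Eu n → ℝ≥0∞)
    (hcore : ∀ R : ℝ, 0 < R → ∀ K : ℕ, ∀ lam : ENNReal, lam ≠ 0 → lam ≠ ⊤ →
      lam * volume {x : Eu n | ∃ k, k < K ∧ ENNReal.ofReal C * lam < Av n F (R * 64 ^ k) x} ≤
        ENNReal.ofReal C * ∫⁻ y, F y) {s : ℝ} (hs : 0 < s) {a : ℝ} (ha : 0 < a) :
    volume {x : Eu n | ∃ m : ℤ, ENNReal.ofReal a < Av n F (s * 64 ^ m) x} ≤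
      ENNReal.ofReal (C ^ 2 / a) * ∫⁻ y, F y := by
  set T : ℕ → Set (Eu n) := fun M => {x : Eu n | ∃ k : ℕ, k < 2 * M ∧
    ENNReal.ofReal a < Av n F ((s * 64 ^ (-(M : ℤ))) * 64 ^ k) x} with hT
  have hmono : Monotone T := by
    intro M M' hMM' x hx
    obtain ⟨k, hk, h1⟩ := hx
    refine ⟨k + (M' - M), by omega, ?_⟩
    have h2 : s * 64 ^ (-(M' : ℤ)) * 64 ^ (k + (M' - M)) = s * (64 : ℝ) ^ (-(M : ℤ)) * 64 ^ k := by
      rw [mul_assoc, mul_assoc, ← zpow_natCast, ← zpow_natCast, ← zpow_add₀ (by norm_num),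
        ← zpow_add₀ (by norm_num)]
      congr 2
      push_cast [Nat.cast_sub hMM']
      ring
    rw [h2]
    exact h1
  have hsub : {x : Eu n | ∃ m : ℤ, ENNReal.ofReal a < Av n F (s * 64 ^ m) x} ⊆ ⋃ M, T M := by
    rintro x ⟨m, hm⟩
    refine Set.mem_iUnion.2 ⟨m.natAbs + 1, (m + (m.natAbs + 1 : ℕ)).toNat, by omega, ?_⟩
    have h2 : s * 64 ^ (-((m.natAbs + 1 : ℕ) : ℤ)) * 64 ^ (m + (m.natAbs + 1 : ℕ)).toNat =
        s * (64 : ℝ) ^ m := by
      rw [mul_assoc, ← zpow_natCast (64 : ℝ) (m + (m.natAbs + 1 : ℕ)).toNat,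
        ← zpow_add₀ (by norm_num)]
      congr 2
      omega
    rw [h2]
    exact hm
  refine (measure_mono hsub).trans ?_
  rw [hmono.measure_iUnion]
  apply iSup_le
  intro M
  have hl0 : ENNReal.ofReal (a / C) ≠ 0 := (ENNReal.ofReal_pos.2 (div_pos ha hC)).ne'
  have h1 := hcore (s * 64 ^ (-(M : ℤ))) (by positivity) (2 * M) (ENNReal.ofReal (a / C)) hl0
    ENNReal.ofReal_ne_top
  have h2 : ENNReal.ofReal C * ENNReal.ofReal (a / C) = ENNReal.ofReal a := by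
    rw [← ENNReal.ofReal_mul hC.le]
    congr 1
    field_simp
  rw [h2] at h1
  have h3 : volume (T M) ≤ (ENNReal.ofReal (a / C))⁻¹ * (ENNReal.ofReal C * ∫⁻ y, F y) := by
    calc volume (T M) = (ENNReal.ofReal (a / C))⁻¹ * (ENNReal.ofReal (a / C) * volume (T M)) := by
          rw [← mul_assoc, ENNReal.inv_mul_cancel hl0 ENNReal.ofReal_ne_top, one_mul]
      _ ≤ _ := mul_le_mul_right h1 _
  refine h3.trans_eq ?_
  rw [← mul_assoc, ← ENNReal.ofReal_inv_of_pos (div_pos ha hC), ← ENNReal.ofReal_mul (by positivity)]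
  congr 2
  field_simp

theorem large {n : ℕ} (hn : 16 ≤ n) {C : ℝ} (hC : 0 < C) (F : Eu n → ℝ≥0∞) (hF : Measurable F)
    (hcore : ∀ R : ℝ, 0 < R → ∀ K : ℕ, ∀ lam : ENNReal, lam ≠ 0 → lam ≠ ⊤ →
      lam * volume {x : Eu n | ∃ k, k < K ∧ ENNReal.ofReal C * lam < Av n F (R * 64 ^ k) x} ≤
        ENNReal.ofReal C * ∫⁻ y, F y) {r : ℝ} (hr : 0 < r) {t : ℝ} (ht : 0 < t) :
    volume {x : Eu n | ENNReal.ofReal t <
      ⨆ k : ℤ, (volume (ball (0 : Eu n) ((2 : ℝ) ^ k * r)))⁻¹ *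
        ∫⁻ y in ball (0 : Eu n) ((2 : ℝ) ^ k * r), F (x + y)} ≤
      ENNReal.ofReal (72 * C ^ 2 / t) * ∫⁻ y, F y := by
  have hq := qd_pos n
  have hsub : {x : Eu n | ENNReal.ofReal t <
      ⨆ k : ℤ, (volume (ball (0 : Eu n) ((2 : ℝ) ^ k * r)))⁻¹ *
        ∫⁻ y in ball (0 : Eu n) ((2 : ℝ) ^ k * r), F (x + y)} ⊆
      ⋃ i : ℕ, ⋃ j : Fin 6, {x : Eu n | ∃ m : ℤ, ENNReal.ofReal (1 / 4 * (3 / 2) ^ i * t) <
        Av n F ((qd n ^ i * (2 ^ (j : ℕ) * r)) * 64 ^ m) x} := by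
    intro x hx
    rw [Set.mem_ofPred_eq] at hx
    obtain ⟨k, hk⟩ := lt_iSup_iff.1 hx
    obtain ⟨i, hi⟩ := exists_shell (by omega) F hF (by positivity) x ht hk
    refine Set.mem_iUnion.2 ⟨i, Set.mem_iUnion.2 ⟨⟨(k % 6).toNat, by omega⟩, k / 6, ?_⟩⟩
    have h1 : qd n ^ i * ((2 : ℝ) ^ k * r) =
        qd n ^ i * (2 ^ (k % 6).toNat * r) * 64 ^ (k / 6) := by
      have h2 : (2 : ℝ) ^ k = 2 ^ (k % 6).toNat * 64 ^ (k / 6) := by
        have h3 : (64 : ℝ) = 2 ^ (6 : ℤ) := by norm_num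
        rw [h3, ← zpow_mul, ← zpow_natCast (2 : ℝ) (k % 6).toNat, ← zpow_add₀ (by norm_num)]
        congr 1
        omega
      rw [h2]
      ring
    rw [← h1]
    exact hi
  refine (measure_mono hsub).trans ?_
  have hb : ∀ (i : ℕ) (j : Fin 6), volume {x : Eu n | ∃ m : ℤ,
      ENNReal.ofReal (1 / 4 * (3 / 2) ^ i * t) <
        Av n F ((qd n ^ i * (2 ^ (j : ℕ) * r)) * 64 ^ m) x} ≤
      ENNReal.ofReal (4 * C ^ 2 / t * (2 / 3) ^ i) * ∫⁻ y, F y := by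
    intro i j
    refine (weak_sup hC F hcore (by positivity) (by positivity)).trans_eq ?_
    congr 2
    have h3 : (2 / 3 : ℝ) ^ i = ((3 / 2) ^ i)⁻¹ := by
      rw [← inv_pow]
      norm_num
    rw [h3]
    field_simp
  calc volume (⋃ i : ℕ, ⋃ j : Fin 6, {x : Eu n | ∃ m : ℤ,
      ENNReal.ofReal (1 / 4 * (3 / 2) ^ i * t) <
        Av n F ((qd n ^ i * (2 ^ (j : ℕ) * r)) * 64 ^ m) x}) ≤
      ∑' i : ℕ, ∑' j : Fin 6, volume {x : Eu n | ∃ m : ℤ,
      ENNReal.ofReal (1 / 4 * (3 / 2) ^ i * t) <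
        Av n F ((qd n ^ i * (2 ^ (j : ℕ) * r)) * 64 ^ m) x} :=
        (measure_iUnion_le _).trans (ENNReal.tsum_le_tsum fun i => measure_iUnion_le _)
    _ ≤ ∑' i : ℕ, ∑' _j : Fin 6, ENNReal.ofReal (4 * C ^ 2 / t * (2 / 3) ^ i) * ∫⁻ y, F y :=
        ENNReal.tsum_le_tsum fun i => ENNReal.tsum_le_tsum fun j => hb i j
    _ = ∑' i : ℕ, ENNReal.ofReal (24 * C ^ 2 / t * (2 / 3) ^ i) * ∫⁻ y, F y := by
        congr 1
        funext i
        rw [tsum_fintype, Finset.sum_const, Finset.card_univ, Fintype.card_fin, nsmul_eq_mul,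
          ← mul_assoc]
        congr 1
        have h4 : ((6 : ℕ) : ℝ≥0∞) = ENNReal.ofReal 6 := by norm_num
        rw [h4, ← ENNReal.ofReal_mul (by norm_num)]
        congr 1
        ring
    _ = (∑' i : ℕ, ENNReal.ofReal (24 * C ^ 2 / t * (2 / 3) ^ i)) * ∫⁻ y, F y :=
        ENNReal.tsum_mul_right
    _ = ENNReal.ofReal (72 * C ^ 2 / t) * ∫⁻ y, F y := by
        congr 1
        rw [← ENNReal.ofReal_tsum_of_nonneg (fun i => by positivity)
          ((summable_geometric_of_lt_one (by norm_num) (by norm_num)).mul_left _), tsum_mul_left,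
          tsum_geometric_of_lt_one (by norm_num) (by norm_num)]
        congr 1
        ring

theorem final : ∃ C : ℝ, 0 < C ∧ ∀ n : ℕ, 1 ≤ n → ∀ r : ℝ, 0 < r →
      volume (Metric.ball (0 : EuclideanSpace ℝ (Fin n)) r) = 1 →
      ∀ f : EuclideanSpace ℝ (Fin n) → ℝ, Integrable f →
      ∀ t : ℝ, 0 < t →
        volume {x : EuclideanSpace ℝ (Fin n) |
          ENNReal.ofReal t <
            ⨆ k : ℤ, (volume (Metric.ball (0 : EuclideanSpace ℝ (Fin n)) ((2 : ℝ) ^ k * r)))⁻¹ *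
              ∫⁻ y in Metric.ball (0 : EuclideanSpace ℝ (Fin n)) ((2 : ℝ) ^ k * r), ‖f (x + y)‖ₑ}
          ≤ ENNReal.ofReal (C / t) * ∫⁻ x, ‖f x‖ₑ := by
  obtain ⟨C, hC, hcore⟩ := core
  choose Cs hCs hsmall using small_dim
  have hsum : ∀ m < 16, Cs m ≤ ∑ i ∈ Finset.range 16, Cs i := fun m hm =>
    Finset.single_le_sum (fun i _ => (hCs i).le) (Finset.mem_range.2 hm)
  have hsum0 : 0 ≤ ∑ i ∈ Finset.range 16, Cs i := Finset.sum_nonneg fun i _ => (hCs i).le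
  refine ⟨∑ i ∈ Finset.range 16, Cs i + 72 * C ^ 2, by positivity, ?_⟩
  intro n hn r hr _ f hf t ht
  rcases lt_or_ge n 16 with h16 | h16
  · refine (hsmall n r hr f hf t ht).trans ?_
    gcongr
    have := hsum n h16
    have h2 : 0 ≤ 72 * C ^ 2 := by positivity
    linarith
  · set g : Eu n → ℝ := hf.1.mk f with hg
    have hgm : StronglyMeasurable g := hf.1.stronglyMeasurable_mk
    have hfg : f =ᵐ[volume] g := hf.1.ae_eq_mk
    set F : Eu n → ℝ≥0∞ := fun y => ‖g y‖ₑ with hF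
    have hFm : Measurable F := hgm.measurable.enorm
    have hFfin : ∀ y, F y ≠ ⊤ := fun y => enorm_ne_top
    have hFint : ∫⁻ y, F y = ∫⁻ y, ‖f y‖ₑ :=
      lintegral_congr_ae (hfg.mono fun y hy => by simp only [hF, hy])
    have hFint' : ∫⁻ y, F y ≠ ⊤ := by
      rw [hFint]
      exact hf.2.ne
    have hloc : ∀ (x : Eu n) (ρ : ℝ), ∫⁻ y in ball (0 : Eu n) ρ, ‖f (x + y)‖ₑ =
        ∫⁻ y in ball (0 : Eu n) ρ, F (x + y) := by
      intro x ρ
      apply lintegral_congr_ae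
      apply ae_restrict_of_ae
      have h1 := (measurePreserving_add_left (volume : Measure (Eu n)) x).quasiMeasurePreserving.ae
        hfg
      filter_upwards [h1] with y hy
      simp only [hF, hy]
    have h2 := large h16 hC F hFm
      (fun R hR K lam hl0 hl1 => hcore n h16 R hR K F hFm hFfin hFint' lam hl0 hl1) hr ht
    simp only [hloc, ← hFint]
    refine h2.trans ?_
    gcongr
    linarith


end Jred

alias final := Jred.final

end Pool.Agent.Helper160.MF
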